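import Pool.Agent.P.MP_c1aa6a_an.Mix.Iface

/-! Existence of the tower, its action, decoding. -/

set_option autoImplicit false
open MeasureTheory Set Filter Topology
open scoped ENNReal NNReal symmDiff

namespace Pool.Agent.P.MP_c1aa6a_an.Mix

namespace TDx

/-- The number of unit pieces. -/
def A : ℕ → ℕ
  | 0 => 1
  | n + 1 => A n + 1 + ∑ s ∈ J n, (4 * (A n * 2 ^ (Tri n).card) * 4 ^ Encodable.encode s +
      A n * 2 ^ (Tri n).card + 4 * (A n * 2 ^ (Tri n).card))

/-- The height. -/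
def h (n : ℕ) : ℤ := (A n * 2 ^ (Tri n).card : ℕ)

theorem ltA (n : ℕ) : n < A n := by
  induction n with
  | zero => exact Nat.one_pos
  | succ n ih => rw [A]; omega

theorem A_le (n : ℕ) : (A n : ℤ) ≤ h n :=
  Int.ofNat_le.2 (Nat.le_mul_of_pos_right _ (by positivity))

theorem room (n : ℕ) (s : Finset ℕ) (hs : s ∈ J n) :
    4 * h n * 4 ^ Encodable.encode s + h n + 4 * h n ≤ h (n + 1) := by
  refine le_trans ?_ (A_le (n + 1))
  have := Finset.single_le_sum (f := fun s : Finset ℕ => 4 * (A n * 2 ^ (Tri n).card) *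
    4 ^ Encodable.encode s + A n * 2 ^ (Tri n).card + 4 * (A n * 2 ^ (Tri n).card))
    (fun _ _ => Nat.zero_le _) hs
  rw [A, h]
  exact_mod_cast this.trans (Nat.le_add_left _ _)

/-- Injective numbering of the first `a` pieces. -/
structure P0 (n a : ℕ) (p : ℕ → Dg → ℤ) : Prop where
  dep : ∀ a d d', (∀ c ∈ Tri n, d c = d' c) → p a d = p a d'
  inj : ∀ b d b' d', b < a → b' < a → p b d = p b' d' → b = b' ∧ ∀ c ∈ Tri n, d c = d' c
  bd : ∀ b d, b < a → 0 ≤ p b d ∧ p b d < h n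

/-- Bijective numbering. -/
def P1 (n : ℕ) (p : ℕ → Dg → ℤ) : Prop :=
  P0 n (A n) p ∧ ∀ k, 0 ≤ k → k < h n → ∃ b : ℕ × Dg, b.1 < A n ∧ p b.1 b.2 = k

theorem ext {n a : ℕ} {f : ℕ → Dg → ℤ} (hf : P0 n a f) :
    ∃ p, P1 n p ∧ ∀ b < a, b < A n → ∀ d, p b d = f b d := by
  classical
  let S := Finset.range (A n) ×ˢ (Tri n).powerset
  let φ : Dg → Finset (ℕ × ℕ) := fun d => (Tri n).filter fun c => d c = true
  let ψ : Finset (ℕ × ℕ) → Dg := fun s c => decide (c ∈ s)
  have hφ : ∀ d d', φ d = φ d' ↔ ∀ c ∈ Tri n, d c = d' c := fun d d' => by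
    simp only [φ, Finset.filter_inj', Bool.coe_iff_coe]
  have hψ : ∀ s ⊆ Tri n, φ (ψ s) = s := fun s hs => by
    ext c
    simpa [φ, ψ] using fun hc => hs hc
  have hS : ∀ b d, b < A n → (b, φ d) ∈ S := fun b d hb => by simp [S, φ, hb]
  have hS' : ∀ x : S, x.1.1 < A n ∧ x.1.2 ⊆ Tri n := fun x =>
    (Finset.mem_product.1 x.2).imp Finset.mem_range.1 Finset.mem_powerset.1
  obtain ⟨g, hg⟩ := Set.MapsTo.exists_equiv_extend_of_card_eq (α := S)
    (t := Finset.Ico 0 (h n)) (by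
      rw [Int.card_Ico, sub_zero, h, Int.toNat_natCast]
      simp [S]) (s := {x | x.1.1 < a})
    (f := fun x => f x.1.1 (ψ x.1.2)) (fun x hx => by simpa using hf.bd _ _ hx)
    (fun x hx y hy e => by
      obtain ⟨e1, e2⟩ := hf.inj _ _ _ _ hx hy e
      refine Subtype.ext (Prod.ext e1 ?_)
      rw [← hψ _ (hS' x).2, (hφ _ _).2 e2, hψ _ (hS' y).2])
  refine ⟨fun b d => if hb : b < A n then g ⟨_, hS b d hb⟩ else 0, ⟨⟨fun b d d' e => ?_,
    fun b d b' d' hb hb' e => ?_, fun b d hb => ?_⟩, fun k h1 h2 => ?_⟩, fun b h1 h2 d => ?_⟩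
  · simp only [(hφ _ _).2 e]
  · simp only [hb, hb', dif_pos] at e
    have := Prod.ext_iff.1 (Subtype.ext_iff.1 (g.injective (Subtype.ext e)))
    exact ⟨this.1, (hφ _ _).1 this.2⟩
  · simp only [hb, dif_pos]
    exact Finset.mem_Ico.1 (g _).2
  · obtain ⟨x, hx⟩ := g.surjective ⟨k, Finset.mem_Ico.2 ⟨h1, h2⟩⟩
    refine ⟨(x.1.1, ψ x.1.2), (hS' x).1, ?_⟩
    simp only [(hS' x).1, dif_pos, hψ _ (hS' x).2, Prod.mk.eta, Subtype.coe_eta, hx]
  · simp only [h2, dif_pos]
    rw [hg _ h1]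
    exact hf.dep _ _ _ ((hφ _ _).1 (hψ _ (Finset.filter_subset _ _)))

theorem sep {H x y : ℤ} {i j : ℕ} (hx : x < H) (hy : 0 ≤ y) (hH : 0 ≤ H) (hij : i < j) :
    4 * H * 4 ^ i + x ≠ 4 * H * 4 ^ j + y := by
  have h1 : (4 : ℤ) ^ i < 4 ^ j := pow_lt_pow_right₀ (by norm_num) hij
  have h2 := mul_le_mul_of_nonneg_left (Int.add_one_le_iff.2 h1) hH
  intro e
  linarith

theorem step {n : ℕ} {p : ℕ → Dg → ℤ} (hp : P0 n (A n) p) : P0 (n + 1) (A n) fun a d =>
    4 * h n * 4 ^ Encodable.encode (dgt n d) + p a d := by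
  have h0 : 0 ≤ h n := Int.natCast_nonneg _
  refine ⟨fun a d d' e => ?_, fun b d b' d' hb hb' e => ?_, fun b d hb => ?_⟩
  · rw [dgt_eq_iff.2 fun i hi => e _ (mem_Tri.2 ⟨n.lt_succ_self, hi⟩), hp.dep a d d' fun c hc =>
      e c (mem_Tri.2 ⟨Nat.lt_succ_of_lt (mem_Tri.1 hc).1, (mem_Tri.1 hc).2⟩)]
  · have e1 : dgt n d = dgt n d' := by
      refine Encodable.encode_injective ?_
      by_contra hne
      rcases lt_or_gt_of_ne hne with hlt | hlt
      · exact sep (hp.bd b d hb).2 (hp.bd b' d' hb').1 h0 hlt e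
      · exact sep (hp.bd b' d' hb').2 (hp.bd b d hb).1 h0 hlt e.symm
    rw [e1, add_right_inj] at e
    obtain ⟨e2, e3⟩ := hp.inj _ _ _ _ hb hb' e
    refine ⟨e2, fun c hc => ?_⟩
    obtain ⟨c1, c2⟩ := mem_Tri.1 hc
    rcases (Nat.lt_succ_iff.1 c1).eq_or_lt with rfl | c3
    · exact dgt_eq_iff.1 e1 _ c2
    · exact e3 c (mem_Tri.2 ⟨c3, c2⟩)
  · have h1 := room n _ (dgt_mem n d)
    obtain ⟨h2, h3⟩ := hp.bd b d hb
    exact ⟨by positivity, by linarith⟩

theorem monoA : Monotone A := monotone_nat_of_le_succ fun n => by rw [A]; omega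

end TDx

theorem p_TD : S_TD := by
  obtain ⟨p0, hp0, -⟩ := TDx.ext (n := 0) (a := 0) (f := fun _ _ => 0)
    ⟨fun _ _ _ _ => rfl, fun _ _ _ _ h => absurd h (Nat.not_lt_zero _),
      fun _ _ h => absurd h (Nat.not_lt_zero _)⟩
  choose nx h1 h2 using fun (n : ℕ) (p : {p // TDx.P1 n p}) => TDx.ext (TDx.step p.2.1)
  let q : ∀ n, {p // TDx.P1 n p} := fun n =>
    Nat.rec (motive := fun n => {p // TDx.P1 n p}) ⟨p0, hp0⟩ (fun n p => ⟨nx n p, h1 n p⟩) n
  exact ⟨⟨TDx.A, TDx.h, fun n => 4 * TDx.h n, fun n => (q n).1, TDx.ltA, TDx.monoA,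
    fun n => (Int.ofNat_lt.2 (TDx.ltA n)).trans_le (TDx.A_le n), fun _ => le_rfl, TDx.room,
    fun n => (q n).2.1.dep, fun n => (q n).2.1.inj, fun n => (q n).2.1.bd, fun n => (q n).2.2,
    fun n a d ha => h2 n (q n) a ha (ha.trans_le (TDx.monoA n.le_succ)) d⟩⟩

namespace TMx

section piece
variable {Z Z' κ : Type} [MeasurableSpace Z] [MeasurableSpace Z'] [Countable κ] {k : Z → κ}

theorem meas_piece (hk : ∀ i, MeasurableSet (k ⁻¹' {i})) {g : κ → Z → Z'}
    (hg : ∀ i, Measurable (g i)) : Measurable fun z => g (k z) z := fun s hs => by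
  have : (fun z => g (k z) z) ⁻¹' s = ⋃ i, k ⁻¹' {i} ∩ g i ⁻¹' s := by ext z; simp
  rw [this]
  exact MeasurableSet.iUnion fun i => (hk i).inter (hg i hs)

theorem part (m : Measure Z) (hk : ∀ i, MeasurableSet (k ⁻¹' {i})) {A : Set Z}
    (hA : MeasurableSet A) : m A = ∑' i, m (A ∩ k ⁻¹' {i}) := by
  rw [← measure_iUnion ((pairwise_disjoint_fiber k).mono fun i j h =>
    h.mono inter_subset_right inter_subset_right) fun i => hA.inter (hk i)]
  congr 1
  ext z
  simp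

theorem mp_piece (m : Measure Z) (hk : ∀ i, MeasurableSet (k ⁻¹' {i})) {g : κ → Z → Z}
    (hg : ∀ i, MeasurePreserving (g i) m m) (inj : ∀ i, Function.Injective (g i)) {T T' : Z → Z}
    (hT : ∀ z, T z = g (k z) z) (mT : Measurable T) (mT' : Measurable T')
    (h1 : ∀ z, T' (T z) = z) (h2 : ∀ z, T (T' z) = z) : MeasurePreserving T m m := by
  refine ⟨mT, Measure.ext fun A hA => ?_⟩
  rw [Measure.map_apply mT hA, part m hk (mT hA),
    part m (k := fun z => k (T' z)) (fun i => mT' (hk i)) hA]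
  refine tsum_congr fun i => ?_
  refine Eq.trans ?_ ((hg i).measure_preimage (hA.inter (mT' (hk i))).nullMeasurableSet)
  congr 1
  ext z
  simp only [mem_inter_iff, mem_preimage, mem_singleton_iff]
  constructor
  · rintro ⟨h, rfl⟩
    rw [← hT, h1]
    exact ⟨h, rfl⟩
  · rintro ⟨h, e⟩
    have := h2 (g i z)
    rw [hT, e] at this
    rw [inj i this] at e
    rw [hT, e]
    exact ⟨h, rfl⟩

end piece

theorem count_mp (e : ℕ ≃ ℕ) : MeasurePreserving e Measure.count Measure.count := by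
  refine ⟨measurable_of_countable _, Measure.ext_iff_singleton.2 fun a => ?_⟩
  have : e ⁻¹' {a} = {e.symm a} := by ext; simp [Equiv.eq_symm_apply]
  rw [Measure.map_apply (measurable_of_countable _) (measurableSet_singleton a), this]
  simp

/-- The word of `d` below stage `n`. -/
def wd (n : ℕ) (d : Dg) : Finset (ℕ × ℕ) := (Tri n).filter fun c => d c = true

/-- The digits of a word. -/
def dw (s : Finset (ℕ × ℕ)) : Dg := fun c => decide (c ∈ s)

theorem dw_wd (n : ℕ) (d : Dg) : ∀ c ∈ Tri n, d c = dw (wd n d) c := fun c hc => by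
  simp [dw, wd, hc]

variable {Y : Type}

/-- The piece of a point. -/
def kp (t : ℤ) (ω : W Y) : ℕ × Finset (ℕ × ℕ) := (ω.1, wd (ω.1 + t.natAbs + 1) ω.2.1)

theorem meas_kp [MeasurableSpace Y] (t : ℤ) (i : ℕ × Finset (ℕ × ℕ)) :
    MeasurableSet (kp (Y := Y) t ⁻¹' {i}) := by
  have : kp (Y := Y) t ⁻¹' {i} = Prod.fst ⁻¹' {i.1} ∩ ⋂ c, (fun ω : W Y => ω.2.1 c) ⁻¹'
      {b | (c ∈ Tri (i.1 + t.natAbs + 1) ∧ b = true) ↔ c ∈ i.2} := by
    ext ω
    simp only [kp, wd, mem_preimage, mem_singleton_iff, Prod.ext_iff, Finset.ext_iff,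
      Finset.mem_filter, mem_inter_iff, mem_iInter, mem_ofPred_eq]
    exact and_congr_right fun h => by rw [h]
  rw [this]
  exact (measurable_fst (measurableSet_singleton _)).inter (MeasurableSet.iInter fun c =>
    ((measurable_pi_apply c).comp measurable_snd.fst) MeasurableSet.of_discrete)

/-- The map with targets `b` on the piece `a`, `d`. -/
def gq (α : ℕ → Y → Y) (n a : ℕ) (d : Dg) (b : ℕ × Dg) (ω : W Y) : W Y :=
  (Equiv.swap a b.1 ω.1, fun c => xor (ω.2.1 c) (if c ∈ Tri n then xor (d c) (b.2 c) else false),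
    G α n b.2 (G α n d ω.2.2))

/-- The map on a piece. -/
noncomputable def gp (D : TD) (α : ℕ → Y → Y) (t : ℤ) (i : ℕ × Finset (ℕ × ℕ)) : W Y → W Y :=
  gq α (i.1 + t.natAbs + 1) i.1 (dw i.2)
    (D.inv (i.1 + t.natAbs + 1) (D.pos (i.1 + t.natAbs + 1) i.1 (dw i.2) + t))

theorem T_eq (D : TD) (α : ℕ → Y → Y) (t : ℤ) (ω : W Y) : D.T α t ω = gp D α t (kp t ω) ω := by
  have h := dw_wd (ω.1 + t.natAbs + 1) ω.2.1
  simp only [TD.T, TD.mv, gp, gq, kp, ← D.dep _ _ _ _ h, ← G_congr α h, Equiv.swap_apply_left]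
  refine Prod.ext rfl (Prod.ext (funext fun c => ?_) rfl)
  by_cases hc : c ∈ Tri (ω.1 + t.natAbs + 1)
  · simp [hc, ← h c hc]
  · simp [hc]

theorem gq_inj {α : ℕ → Y → Y} (hα : CI α) (n a : ℕ) (d : Dg) (b : ℕ × Dg) :
    Function.Injective (gq α n a d b) := fun ω ω' e => by
  simp only [gq, Prod.mk.injEq] at e
  refine Prod.ext ((Equiv.swap _ _).injective e.1) (Prod.ext (funext fun c => ?_) ?_)
  · exact Bool.xor_left_inj.1 (congrFun e.2.1 c)
  · exact Function.Involutive.injective (G_G hα n d)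
      (Function.Involutive.injective (G_G hα n b.2) e.2.2)

variable [MeasurableSpace Y]

theorem meas_G {X : Type} [MeasurableSpace X] {α : X → ℕ → Y → Y}
    (hα : ∀ j, Measurable fun p : X × Y => α p.1 j p.2) (n : ℕ) (e : Dg) :
    Measurable fun p : X × Y => G (α p.1) n e p.2 := by
  induction n with
  | zero => exact measurable_snd
  | succ n ih =>
    simp only [G, gm]
    split_ifs
    · exact (hα _).comp (measurable_fst.prodMk ih)
    · exact ih
    · exact ih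

theorem meas_T (D : TD) {X : Type} [MeasurableSpace X] {α : X → ℕ → Y → Y}
    (hα : ∀ j, Measurable fun p : X × Y => α p.1 j p.2) (t : ℤ) :
    Measurable fun p : X × W Y => D.T (α p.1) t p.2 := by
  simp only [T_eq]
  refine meas_piece (k := fun p : X × W Y => kp t p.2) (g := fun i p => gp D (α p.1) t i p.2)
    (fun i => measurable_snd (meas_kp t i)) fun i => ?_
  have h : ∀ n e e', Measurable fun p : X × W Y => G (α p.1) n e (G (α p.1) n e' p.2.2.2) :=
    fun n e e' => by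
      have c : Measurable fun p : X × W Y => (p.1, p.2.2.2) :=
        measurable_fst.prodMk measurable_snd.snd.snd
      have a := (meas_G hα n e').comp c
      have b := (meas_G hα n e).comp (measurable_fst.prodMk a)
      exact b
  exact ((measurable_of_countable _).comp measurable_snd.fst).prodMk
    (((xor_mp _).measurable.comp measurable_snd.snd.fst).prodMk (h _ _ _))

end TMx

theorem p_TM : S_TM := by
  refine ⟨fun D X Y _ _ α hα t => TMx.meas_T D hα t, fun D Y _ μ _ α hα t => ?_⟩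
  have m : ∀ t, Measurable (D.T α t) := fun t =>
    (TMx.meas_T D (X := Unit) (α := fun _ => α)
      (fun j => (hα.1 j).measurable.comp measurable_snd) t).comp (measurable_prodMk_left (x := ()))
  refine TMx.mp_piece _ (TMx.meas_kp t) (g := TMx.gp D α t) (fun i => ?_)
    (fun i => TMx.gq_inj hα.2 _ _ _ _) (TMx.T_eq D α t) (m t) (m (-t)) (TD.T_neg hα.2 t)
    fun z => by simpa only [neg_neg] using TD.T_neg (D := D) hα.2 (-t) z
  exact (TMx.count_mp _).prod ((xor_mp _).prod ((G_mp hα _ _).comp (G_mp hα _ _)))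

namespace KEYx

open Encodable

theorem rem (x e : ℕ) : (e = x ∧ 4 ^ e % (4 * 4 ^ x) = 4 ^ x) ∨
    (e ≠ x ∧ 4 * (4 ^ e % (4 * 4 ^ x)) ≤ 4 ^ x) := by
  have h : 0 < 4 ^ x := by positivity
  rcases lt_trichotomy e x with h1 | rfl | h1
  · refine Or.inr ⟨h1.ne, (Nat.mul_le_mul_left 4 (Nat.mod_le _ _)).trans ?_⟩
    rw [← pow_succ']
    exact Nat.pow_le_pow_right (by norm_num) h1
  · exact Or.inl ⟨rfl, Nat.mod_eq_of_lt (by omega)⟩
  · refine Or.inr ⟨h1.ne', ?_⟩
    rw [← pow_succ', Nat.mod_eq_zero_of_dvd (pow_dvd_pow 4 h1)]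
    exact Nat.zero_le _

theorem three {a b c d e f : ℕ} (h : (4 : ℤ) ^ a + 4 ^ b + 4 ^ c = 4 ^ d + 4 ^ e + 4 ^ f) :
    a = d ∨ a = e ∨ a = f := by
  have h0 : 4 ^ a + 4 ^ b + 4 ^ c = 4 ^ d + 4 ^ e + 4 ^ f := by exact_mod_cast h
  have k : ∀ u v w : ℕ, (4 ^ u + 4 ^ v + 4 ^ w) % (4 * 4 ^ a) =
      4 ^ u % (4 * 4 ^ a) + 4 ^ v % (4 * 4 ^ a) + 4 ^ w % (4 * 4 ^ a) := fun u v w => by
    have h1 : 0 < 4 ^ a := by positivity
    have := rem a u
    have := rem a v
    have := rem a w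
    rw [Nat.add_mod, Nat.add_mod (4 ^ u), Nat.mod_add_mod]
    exact Nat.mod_eq_of_lt (by omega)
  have h1 : 0 < 4 ^ a := by positivity
  have h2 := k a b c
  rw [h0, k] at h2
  have := rem a a
  have := rem a d
  have := rem a e
  have := rem a f
  omega

theorem two {a b d e : ℕ} (h : (4 : ℤ) ^ a + 4 ^ b = 4 ^ d + 4 ^ e) : a = d ∨ a = e := by
  have := three (congrArg (· + (4 : ℤ) ^ (a + 1)) h)
  omega

variable {D : TD} {Y : Type} {α : ℕ → Y → Y}

theorem small {m : ℕ} {z : ℤ} (h : |D.L m * z| < D.h m + D.h m) : z = 0 := by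
  have h1 := D.hL m
  have h2 := TD.h_pos (D := D) m
  rw [abs_mul, abs_of_nonneg (by omega)] at h
  by_contra e
  have := le_mul_of_one_le_right (by omega : 0 ≤ D.L m) (Int.one_le_abs e)
  omega

theorem far {m n : ℕ} {u v : Finset ℕ} (h : u ≠ v) {t : ℤ} (ht : |t| < D.h (m + 1) + D.h (m + 1))
    (hm : m < n) : D.h n + D.h n ≤ |t - (D.p n u - D.p n v)| := by
  have h1 := D.L_le_abs n h
  have h2 := D.hL n
  have h3 := TD.h_mono (D := D) (Nat.succ_le_of_lt hm)
  have h4 := abs_sub_abs_le_abs_sub (D.p n u - D.p n v) t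
  rw [abs_sub_comm t]
  simp only [Nat.succ_eq_add_one] at h3
  omega

theorem sid {m n : ℕ} {u v u' v' : Finset ℕ} (hu : u ∈ J m) (hv : v ∈ J m) (hu' : u' ∈ J n)
    (hv' : v' ∈ J n) (h : u ≠ v) (h' : u' ≠ v')
    (e : |D.p m u - D.p m v - (D.p n u' - D.p n v')| < D.h m + D.h n) : m = n ∧ v = v' := by
  rcases lt_trichotomy m n with h1 | rfl | h1
  · have := far (D := D) h' ((D.abs_lt_succ hu hv).trans (lt_add_of_pos_right _ (TD.h_pos _))) h1
    have := TD.h_mono (D := D) h1.le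
    omega
  · have h2 := small (D := D) (m := m) (z := 4 ^ encode v + 4 ^ encode u' -
      (4 ^ encode v' + 4 ^ encode u)) (by
        rw [← abs_neg] at e
        refine lt_of_eq_of_lt (congrArg _ ?_) e
        simp only [TD.p]
        ring)
    exact ⟨rfl, encode_injective ((two (sub_eq_zero.1 h2)).resolve_right
      fun e => h (encode_injective e).symm)⟩
  · have := far (D := D) h ((D.abs_lt_succ hu' hv').trans (lt_add_of_pos_right _ (TD.h_pos _))) h1
    have := TD.h_mono (D := D) h1.le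
    rw [abs_sub_comm] at e
    omega

theorem dec (hα : CI α) {m n : ℕ} (hmn : m ≤ n) {t : ℤ} {ω ω' : W Y} (h0 : ω.1 < D.A m)
    (h0' : ω'.1 < D.A m) (h : D.Rel α n t ω ω') : D.Rel α m t ω ω' ∨ ∃ r, m ≤ r ∧
      dgt r ω'.2.1 ≠ dgt r ω.2.1 ∧
        |t - (D.p r (dgt r ω'.2.1) - D.p r (dgt r ω.2.1))| < D.h r := by
  induction hmn with
  | refl => exact Or.inl h
  | @step n hn ih =>
    have a := h0.trans_le (D.monoA hn)
    have a' := h0'.trans_le (D.monoA hn)
    obtain ⟨-, -, h3, h4, h5⟩ := h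
    rw [D.step _ _ _ a, D.step _ _ _ a'] at h4
    by_cases e : dgt n ω'.2.1 = dgt n ω.2.1
    · have e1 := dgt_eq_iff.1 e
      refine ih ⟨a, a', fun c hc => ?_, by rw [e] at h4; omega, ?_⟩
      · by_cases hc' : c ∈ Tri (n + 1)
        · rw [mem_Tri] at hc hc'
          obtain ⟨i, j⟩ := c
          obtain rfl : i = n := by omega
          exact e1 j hc'.2
        · exact h3 c hc'
      · simp only [G, e1 0 (Nat.zero_le n)] at h5
        split_ifs at h5
        · rw [← gm_gm hα n (G α n ω'.2.1 ω'.2.2), h5, gm_gm hα]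
        · exact h5
    · refine Or.inr ⟨n, hn, e, ?_⟩
      have b := D.bd n _ ω.2.1 a
      have b' := D.bd n _ ω'.2.1 a'
      rw [TD.p, TD.p, abs_lt]
      omega

theorem dec' (hα : CI α) {m : ℕ} {t : ℤ} {ω : W Y} (h0 : ω ∈ D.K Y m)
    (h0' : D.T α t ω ∈ D.K Y m) : |t| < D.h m ∨ ∃ r u, m ≤ r ∧ u ∈ J r ∧ u ≠ dgt r ω.2.1 ∧
      |t - (D.p r u - D.p r (dgt r ω.2.1))| < D.h r := by
  obtain ⟨n, h⟩ := TD.T_rel (D := D) hα t ω
  exact (dec hα (le_max_left m n) h0 h0' (h.mono (le_max_right m n))).imp TD.Rel.abs_lt_h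
    fun ⟨r, h1, h2, h3⟩ => ⟨r, _, h1, dgt_mem _ _, h2, h3⟩

end KEYx

theorem p_KEY  : S_KEY := by
  intro D Y α hα
  refine ⟨fun m i hi j hj hij ω h h' => ?_,
    fun m i hi j hj k hk l hl hij hkl hik hjl ω h h' => ?_, fun m t ht => ?_⟩
  · have h1 := TD.h_pos (D := D) m
    rcases KEYx.dec' hα h h' with e | ⟨r, u, -, hu, hne, e⟩
    · have := D.L_le_abs m hij
      have := D.hL m
      omega
    · obtain ⟨rfl, e1⟩ := KEYx.sid hi hj hu (dgt_mem _ _) hij hne (e.trans (by omega))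
      exact e1.symm
  · have h1 := TD.h_pos (D := D) m
    have inj := Encodable.encode_injective (α := Finset ℕ)
    rcases KEYx.dec' hα h h' with e | ⟨r, u, hr, hu, hne, e⟩
    · have h2 := KEYx.small (D := D) (m := m) (z := 4 ^ Encodable.encode i + 4 ^ Encodable.encode l -
        (4 ^ Encodable.encode k + 4 ^ Encodable.encode j)) (by
          refine lt_of_eq_of_lt (congrArg _ ?_) (e.trans (by omega))
          simp only [TD.p]
          ring)
      exact (KEYx.two (sub_eq_zero.1 h2)).elim (inj.ne hik) (inj.ne hij)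
    rcases hr.eq_or_lt with rfl | hr
    · generalize dgt m ω.2.1 = v at e
      have h2 := sub_eq_zero.1 (KEYx.small (D := D) (m := m) (z := 4 ^ Encodable.encode i +
        4 ^ Encodable.encode l + 4 ^ Encodable.encode v - (4 ^ Encodable.encode j +
          4 ^ Encodable.encode k + 4 ^ Encodable.encode u)) (by
          refine lt_of_eq_of_lt (congrArg _ ?_) (e.trans (by omega))
          simp only [TD.p]
          ring))
      have h3 := ((KEYx.three h2).resolve_left (inj.ne hij)).resolve_left (inj.ne hik)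
      have h4 := ((KEYx.three h2.symm).resolve_left (inj.ne hij.symm)).resolve_left (inj.ne hjl)
      rw [← h3, ← h4] at h2
      exact hkl (inj (pow_right_injective₀ (a := (4 : ℤ)) (by norm_num) (by norm_num)
        (by dsimp only; omega)))
    · have := KEYx.far (D := D) hne ((abs_sub _ _).trans_lt
        (add_lt_add (D.abs_lt_succ hi hj) (D.abs_lt_succ hk hl))) hr
      have := TD.h_pos (D := D) r
      omega
  · by_cases h : ∃ ω ∈ D.K Y m, D.T α t ω ∈ D.K Y m
    · obtain ⟨ω, h, h'⟩ := h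
      obtain ⟨r, u, hr, hu, hne, e⟩ := (KEYx.dec' hα h h').resolve_left ht.not_gt
      refine ⟨r, dgt r ω.2.1, hr, fun ξ g g' => ?_⟩
      obtain ⟨s, w, -, hw, gne, e'⟩ := (KEYx.dec' hα g g').resolve_left ht.not_gt
      obtain ⟨rfl, e1⟩ := KEYx.sid (D := D) hu (dgt_mem _ _) hw (dgt_mem _ _) hne gne (by
        rw [abs_lt] at e e' ⊢
        omega)
      exact e1.symm
    · exact ⟨m, ∅, le_rfl, fun ω g g' => (h ⟨ω, g, g'⟩).elim⟩

end Pool.Agent.P.MP_c1aa6a_an.Mix
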