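import Pool.Agent.P.MP_c1aa6a_an.Mix.Iface

/-! Return masses and averages of the tower. -/

set_option autoImplicit false
open MeasureTheory Set Filter Topology
open scoped ENNReal NNReal symmDiff

namespace Pool.Agent.P.MP_c1aa6a_an.Mix

namespace Cx

theorem part1 {Y : Type} [MeasurableSpace Y] {μ : Measure Y} [IsProbabilityMeasure μ]
    {α : ℕ → Y → Y} (hα : Fam μ α) (m a : ℕ) (B : Set (W Y)) (hB : MeasurableSet B)
    (hBa : B ⊆ Lv _ a) (h : ∀ c ∈ J m, c ≠ ∅ → mT μ (B ∩ X α m c ⁻¹' B) = 0) :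
    (mT μ).real B ≤ a / 2 ^ (m + 1) := by
  have hm : ∀ c, MeasurableSet (X α m c ⁻¹' B) := fun c => (X_mp hα m c).measurable hB
  have h1 : mT μ (⋃ c ∈ J m, X α m c ⁻¹' B) = ∑ c ∈ J m, mT μ (X α m c ⁻¹' B) := by
    refine measure_biUnion_finset₀ (fun c hc c' hc' hne => ?_) fun c _ => (hm c).nullMeasurableSet
    have e : X α m c ⁻¹' B ∩ X α m c' ⁻¹' B = X α m c ⁻¹' (B ∩ X α m (c' ∆ c) ⁻¹' B) := by
      ext ω
      simp only [mem_inter_iff, mem_preimage, X_X hα.2, symmDiff_symmDiff_cancel_right]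
    change mT μ (X α m c ⁻¹' B ∩ X α m c' ⁻¹' B) = 0
    rw [e, (X_mp hα m c).measure_preimage (hB.inter (hm _)).nullMeasurableSet]
    exact h _ (symmDiff_mem_J hc' hc) fun e => hne (symmDiff_eq_bot.1 e).symm
  have h2 : mT μ (⋃ c ∈ J m, X α m c ⁻¹' B) ≤ a := by
    rw [← measure_Lv ((unif (ℕ × ℕ)).prod μ) a]
    exact measure_mono (iUnion₂_subset fun c _ ω hω => hBa (a := X α m c ω) hω)
  rw [h1, Finset.sum_congr rfl fun c _ => (X_mp hα m c).measure_preimage hB.nullMeasurableSet,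
    Finset.sum_const, card_J, nsmul_eq_mul] at h2
  have h3 := ENNReal.toReal_mono (ENNReal.natCast_ne_top a) h2
  rw [ENNReal.toReal_mul] at h3
  rw [le_div_iff₀ (by positivity), mul_comm]
  simpa [measureReal_def] using h3

end Cx

theorem p_C (hKEY : S_KEY) : S_C := by
  intro Y _ μ _ α hα
  refine ⟨Cx.part1 hα, fun D => ?_⟩
  have key : ∀ n m t, n ≤ m → D.h m ≤ |t| →
      cor (mT μ) (D.K Y n) (D.T α) t ≤ D.A n / 2 ^ (m + 1) := by
    intro n m t hnm ht
    obtain ⟨m', j, hm', hj⟩ := (hKEY D Y α hα.2).2.2 m t ht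
    have hK : D.K Y n ⊆ D.K Y m := fun ω hω => lt_of_lt_of_le hω (D.monoA hnm)
    have h1 := Cx.part1 hα m' (D.A n) (D.K Y n ∩ {ω | dgt m' ω.2.1 = j})
      ((measurableSet_Lv _).inter ((measurable_fst.comp measurable_snd) (measurable_dgt m' j)))
      inter_subset_left fun c hc hne => ?_
    · refine le_trans (measureReal_mono (s₂ := D.K Y n ∩ {ω | dgt m' ω.2.1 = j})
        (fun ω hω => ⟨hω.1, hj ω (hK hω.1) (hK hω.2)⟩)
        (measure_ne_top_of_subset inter_subset_left (real_Lv _ _).1)) (h1.trans ?_)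
      gcongr
      norm_num
    · refine measure_mono_null (fun ω hω => ?_) measure_empty
      have e : dgt m' (xr m' c ω.2.1) = j := hω.2.2
      have e' : dgt m' ω.2.1 = j := hω.1.2
      rw [dgt_xr hc, e'] at e
      exact hne (symmDiff_eq_left.1 e)
  refine ⟨key, fun n ε hε => ?_⟩
  obtain ⟨k, hk⟩ := pow_unbounded_of_one_lt (D.A n / ε) (one_lt_two (α := ℝ))
  refine ⟨(D.h (n + k)).toNat, fun t ht => (key n (n + k) t (by omega) ?_).trans ?_⟩
  · exact (Int.self_le_toNat _).trans ht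
  · rw [div_lt_iff₀ hε] at hk
    rw [div_le_iff₀ (by positivity)]
    have : (2 : ℝ) ^ k ≤ 2 ^ (n + k + 1) := pow_le_pow_right₀ one_le_two (by omega)
    nlinarith

namespace CNTx

theorem fib {ι : Type} [DecidableEq ι] (s : Finset ι) (f g : ι × ι → ι) (i : ι) {c : ℝ}
    (hc : 0 ≤ c) (hg : ∀ v ∈ s.offDiag, g v ∈ s)
    (hinj : ∀ v w, f v = f w → g v = g w → v = w) :
    ∑ v ∈ s.offDiag, (if i = f v then c else 0) ≤ s.card * c := by
  rw [← Finset.sum_filter, Finset.sum_const, nsmul_eq_mul]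
  refine mul_le_mul_of_nonneg_right (Nat.cast_le.2 (Finset.card_le_card_of_injOn g
    (fun v hv => hg v (Finset.mem_filter.1 hv).1) fun v hv w hw e => hinj v w ?_ e)) hc
  exact (Finset.mem_filter.1 hv).2.symm.trans (Finset.mem_filter.1 hw).2

end CNTx

theorem p_CNT  : S_CNT := by
  intro D m x a hx hfar hzero
  have ha : 0 ≤ a := (hx 0).1.trans (hx 0).2
  have hq : (0 : ℝ) < 2 ^ (m + 1) := by positivity
  have hb : 0 ≤ a / 2 ^ (m + 1) := by positivity
  have hc : ((J m).card : ℝ) = 2 ^ (m + 1) := by rw [card_J]; push_cast; rfl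
  have hL : D.h m ≤ D.L m := by
    have h1 := D.hL m
    have h2 := TD.h_pos (D := D) m
    omega
  have inner : ∀ u ∈ (J m).offDiag, ∑ v ∈ (J m).offDiag,
      x (D.p m u.1 - D.p m u.2 - (D.p m v.1 - D.p m v.2)) ≤ 3 * a := by
    intro u hu
    obtain ⟨u1, u2, u3⟩ := Finset.mem_offDiag.1 hu
    have pt : ∀ v ∈ (J m).offDiag, x (D.p m u.1 - D.p m u.2 - (D.p m v.1 - D.p m v.2)) ≤
        (if u = v then a else 0) + ((if u.1 = v.1 then a / 2 ^ (m + 1) else 0) +
          (if u.2 = v.2 then a / 2 ^ (m + 1) else 0)) := by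
      intro v hv
      obtain ⟨v1, v2, v3⟩ := Finset.mem_offDiag.1 hv
      by_cases h1 : u.1 = v.1
      · by_cases h2 : u.2 = v.2
        · rw [if_pos (Prod.ext h1 h2), if_pos h1, if_pos h2]
          linarith [(hx (D.p m u.1 - D.p m u.2 - (D.p m v.1 - D.p m v.2))).2]
        · rw [if_neg fun h => h2 (congrArg Prod.snd h), if_pos h1, if_neg h2, zero_add, add_zero]
          refine hfar _ (hL.trans ?_)
          rw [h1, show D.p m v.1 - D.p m u.2 - (D.p m v.1 - D.p m v.2) = D.p m v.2 - D.p m u.2 by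
            ring]
          exact TD.L_le_abs D m (Ne.symm h2)
      · rw [if_neg fun h => h1 (congrArg Prod.fst h), if_neg h1, zero_add, zero_add]
        by_cases h2 : u.2 = v.2
        · rw [if_pos h2]
          refine hfar _ (hL.trans ?_)
          rw [h2, show D.p m u.1 - D.p m v.2 - (D.p m v.1 - D.p m v.2) = D.p m u.1 - D.p m v.1 by
            ring]
          exact TD.L_le_abs D m h1
        · rw [if_neg h2]
          exact (hzero _ u1 _ u2 _ v1 _ v2 u3 v3 h1 h2).le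
    refine (Finset.sum_le_sum pt).trans ?_
    rw [Finset.sum_add_distrib, Finset.sum_add_distrib, Finset.sum_ite_eq, if_pos hu]
    have h1 := CNTx.fib (J m) Prod.fst Prod.snd u.1 hb (fun v hv => (Finset.mem_offDiag.1 hv).2.1)
      fun v w e1 e2 => Prod.ext e1 e2
    have h2 := CNTx.fib (J m) Prod.snd Prod.fst u.2 hb (fun v hv => (Finset.mem_offDiag.1 hv).1)
      fun v w e1 e2 => Prod.ext e2 e1
    rw [hc, mul_div_cancel₀ _ hq.ne'] at h1 h2
    linarith
  refine (Finset.sum_le_card_nsmul _ _ _ inner).trans ?_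
  rw [nsmul_eq_mul, mul_comm, ← hc]
  refine mul_le_mul_of_nonneg_left ?_ (by positivity)
  rw [Finset.offDiag_card, sq]
  exact_mod_cast Nat.sub_le _ _

namespace S2x

theorem card_od (m : ℕ) : (((J m).offDiag.card : ℕ) : ℝ) ≤ (2 ^ (m + 1)) ^ 2 := by
  have : (J m).offDiag.card ≤ (2 ^ (m + 1)) ^ 2 := by
    rw [Finset.offDiag_card, card_J, sq]
    exact Nat.sub_le _ _
  exact_mod_cast this

theorem far (D : TD) {m m' : ℕ} (h : m < m') {u v : Finset ℕ × Finset ℕ}
    (hu : u ∈ (J m).offDiag) (hv : v ∈ (J m').offDiag) :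
    D.h m' ≤ |D.p m u.1 - D.p m u.2 - (D.p m' v.1 - D.p m' v.2)| := by
  rw [Finset.mem_offDiag] at hu hv
  have h1 := D.L_le_abs m' hv.2.2
  have h2 := D.abs_lt_succ hu.1 hu.2.1
  have h3 : D.h (m + 1) ≤ D.h m' := TD.h_mono h
  have h4 := D.hL m'
  have h5 := TD.h_pos (D := D) m'
  have h6 := abs_sub_abs_le_abs_sub (D.p m' v.1 - D.p m' v.2) (D.p m u.1 - D.p m u.2)
  rw [abs_sub_comm (D.p m' v.1 - D.p m' v.2)] at h6
  omega

theorem off {N m m' : ℕ} (hN : 0 < N) (h : m + 2 * N ≤ m') {a : ℝ} (ha : 0 ≤ a)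
    (F : Finset ℕ × Finset ℕ → Finset ℕ × Finset ℕ → ℝ)
    (hF : ∀ u ∈ (J m).offDiag, ∀ v ∈ (J m').offDiag, F u v ≤ a / (2 ^ (m' + 1)) ^ 2) :
    ∑ u ∈ (J m).offDiag, ∑ v ∈ (J m').offDiag,
      1 / (N * 2 ^ (m + 1)) * (1 / (N * 2 ^ (m' + 1))) * F u v ≤ a / N ^ 3 := by
  have hN' : (0 : ℝ) < N := by exact_mod_cast hN
  have h1 : (N : ℝ) * 2 ^ (m + 1) ≤ 2 ^ (m' + 1) := by
    have h2 : N ≤ 2 ^ (2 * N) := (Nat.le_mul_of_pos_left N two_pos).trans Nat.lt_two_pow_self.le
    have h3 : N * 2 ^ (m + 1) ≤ 2 ^ (m' + 1) :=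
      (Nat.mul_le_mul_right _ h2).trans (by
        rw [← pow_add]
        exact Nat.pow_le_pow_right two_pos (by omega))
    exact_mod_cast h3
  have c1 := card_od m
  have c2 := card_od m'
  have hq : (0 : ℝ) < 2 ^ (m + 1) := by positivity
  have hq' : (0 : ℝ) < 2 ^ (m' + 1) := by positivity
  generalize (2 : ℝ) ^ (m + 1) = q at *
  generalize (2 : ℝ) ^ (m' + 1) = q' at *
  calc _ ≤ ∑ u ∈ (J m).offDiag, ∑ v ∈ (J m').offDiag,
        1 / (N * q) * (1 / (N * q')) * (a / q' ^ 2) := by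
        gcongr with u hu v hv
        exact hF u hu v hv
    _ ≤ q ^ 2 * (q' ^ 2 * (1 / (N * q) * (1 / (N * q')) * (a / q' ^ 2))) := by
        simp only [Finset.sum_const, nsmul_eq_mul]
        gcongr
    _ = a / N ^ 3 * (N * q / q') := by field_simp
    _ ≤ a / N ^ 3 := mul_le_of_le_one_right (by positivity) ((div_le_one hq').2 h1)

theorem st_le {N r r' : ℕ} (h : r < r') : TD.st N r + 2 * N ≤ TD.st N r' := by
  unfold TD.st
  rw [← mul_add_one]
  exact Nat.mul_le_mul_left _ (by omega)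

end S2x

open S2x in
theorem p_S2 (hKEY : S_KEY) (hC : S_C) (hCNT : S_CNT) : S_S2 := by
  intro D Y _ μ _ α hα n
  obtain ⟨hK, hA⟩ := real_Lv ((unif (ℕ × ℕ)).prod μ) (D.A n)
  set x : ℤ → ℝ := fun t => cor (mT μ) (D.K Y n) (D.T α) t ^ 2 with hx
  set a : ℝ := (D.A n : ℝ) ^ 2 with ha
  have a0 : 0 ≤ a := sq_nonneg _
  have x1 : ∀ t, 0 ≤ x t ∧ x t ≤ a := fun t =>
    ⟨sq_nonneg _, pow_le_pow_left₀ (cor_nonneg ..) ((cor_le hK _ t).trans hA.le) 2⟩
  have x2 : ∀ m t, n ≤ m → D.h m ≤ |t| → x t ≤ a / (2 ^ (m + 1)) ^ 2 := fun m t h1 h2 => by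
    rw [ha, ← div_pow]
    exact pow_le_pow_left₀ (cor_nonneg ..) (((hC Y μ α hα).2 D).1 n m t h1 h2) 2
  refine squeeze_zero' (g := fun N : ℕ => 4 * a / N) (Eventually.of_forall fun N => ?_) ?_
    (tendsto_const_div_atTop_nhds_zero_nat _)
  · exact Finset.sum_nonneg fun _ _ => Finset.sum_nonneg fun _ _ => by positivity
  filter_upwards [eventually_ge_atTop n, eventually_gt_atTop 0] with N hn hN
  have hN' : (0 : ℝ) < N := by exact_mod_cast hN
  have hs : ∀ r, n ≤ TD.st N r := fun r => by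
    unfold TD.st
    nlinarith
  have key : ∀ r r' : ℕ, ∑ u ∈ (J (TD.st N r)).offDiag, ∑ v ∈ (J (TD.st N r')).offDiag,
      1 / (N * 2 ^ (TD.st N r + 1)) * (1 / (N * 2 ^ (TD.st N r' + 1))) *
        x (D.p (TD.st N r) u.1 - D.p (TD.st N r) u.2 -
          (D.p (TD.st N r') v.1 - D.p (TD.st N r') v.2)) ≤
      (if r = r' then 3 * a / N ^ 2 else 0) + a / N ^ 3 := by
    intro r r'
    rcases lt_trichotomy r r' with h | rfl | h
    · have h1 := st_le (N := N) h
      rw [if_neg h.ne, zero_add]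
      exact off hN h1 a0 _ fun u hu v hv => x2 _ _ (hs _) (far D (by omega) hu hv)
    · have h1 := hCNT D (TD.st N r) x a x1
        (fun t ht => (x2 _ t (hs r) ht).trans (div_le_div_of_nonneg_left a0 (by positivity)
          (le_self_pow₀ (one_le_pow₀ one_le_two) two_ne_zero)))
        fun i hi j hj k hk l hl e1 e2 e3 e4 => by
          have h2 := (hKEY D Y α hα.2).2.1 _ i hi j hj k hk l hl e1 e2 e3 e4
          have h3 : D.K Y n ⊆ D.K Y (TD.st N r) := fun ω hω =>
            lt_of_lt_of_le hω (D.monoA (hs r))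
          have h4 : D.K Y n ∩ D.T α _ ⁻¹' D.K Y n = ∅ :=
            eq_empty_of_forall_notMem fun ω hω => h2 ω (h3 hω.1) (h3 hω.2)
          simp only [hx, cor, h4]
          simp
      simp only [← Finset.mul_sum, if_true]
      refine le_add_of_le_of_nonneg ((mul_le_mul_of_nonneg_left h1 (by positivity)).trans_eq ?_)
        (by positivity)
      field_simp
    · have h1 := st_le (N := N) h
      rw [if_neg h.ne', zero_add, Finset.sum_comm]
      simp only [mul_comm (1 / ((N : ℝ) * 2 ^ (TD.st N r + 1)))]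
      exact off hN h1 a0 _ fun u hu v hv => x2 _ _ (hs _) (by
        rw [abs_sub_comm]
        exact far D (by omega) hu hv)
  calc _ = ∑ r ∈ Finset.range N, ∑ r' ∈ Finset.range N, ∑ u ∈ (J (TD.st N r)).offDiag,
        ∑ v ∈ (J (TD.st N r')).offDiag,
        1 / (N * 2 ^ (TD.st N r + 1)) * (1 / (N * 2 ^ (TD.st N r' + 1))) *
          x (D.p (TD.st N r) u.1 - D.p (TD.st N r) u.2 -
            (D.p (TD.st N r') v.1 - D.p (TD.st N r') v.2)) := by
        simp only [TD.V, Finset.sum_sigma]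
        refine Finset.sum_congr rfl fun r _ => ?_
        rw [Finset.sum_comm]
        refine Finset.sum_congr rfl fun r' _ => Finset.sum_congr rfl fun u _ =>
          Finset.sum_congr rfl fun v _ => ?_
        rw [abs_of_nonneg (by positivity), abs_of_nonneg (by positivity)]
    _ ≤ ∑ r ∈ Finset.range N, ∑ r' ∈ Finset.range N,
        ((if r = r' then 3 * a / N ^ 2 else 0) + a / N ^ 3) :=
        Finset.sum_le_sum fun r _ => Finset.sum_le_sum fun r' _ => key r r'
    _ = ∑ r ∈ Finset.range N, (3 * a / N ^ 2 + N * (a / N ^ 3)) :=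
        Finset.sum_congr rfl fun r hr => by
          rw [Finset.sum_add_distrib, Finset.sum_ite_eq, if_pos hr]
          simp
    _ = 4 * a / N := by
        rw [Finset.sum_const, Finset.card_range, nsmul_eq_mul]
        field_simp
        ring

namespace APXx

variable (Y : Type) [MeasurableSpace Y]

/-- Sets which do not see the late stages. -/
def R : Set (Set (W Y)) :=
  {B | MeasurableSet B ∧ ∃ n, ∀ m, n ≤ m → ∀ c ω, Fl m c ω ∈ B ↔ ω ∈ B}

theorem ring : IsSetRing (R Y) where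
  empty_mem := ⟨MeasurableSet.empty, 0, fun _ _ _ _ => Iff.rfl⟩
  union_mem := by
    rintro s t ⟨s1, n, s2⟩ ⟨t1, k, t2⟩
    exact ⟨s1.union t1, max n k, fun m hm c ω =>
      or_congr (s2 m (le_of_max_le_left hm) c ω) (t2 m (le_of_max_le_right hm) c ω)⟩
  sdiff_mem := by
    rintro s t ⟨s1, n, s2⟩ ⟨t1, k, t2⟩
    exact ⟨s1.diff t1, max n k, fun m hm c ω =>
      and_congr (s2 m (le_of_max_le_left hm) c ω) (t2 m (le_of_max_le_right hm) c ω).not⟩

theorem gen : (inferInstance : MeasurableSpace (W Y)) = MeasurableSpace.generateFrom (R Y) := by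
  refine le_antisymm ?_ (MeasurableSpace.generateFrom_le fun _ h => h.1)
  have h1 : Measurable[MeasurableSpace.generateFrom (R Y)] fun ω : W Y => ω.1 := fun s hs =>
    MeasurableSpace.measurableSet_generateFrom ⟨measurable_fst hs, 0, fun _ _ _ _ => Iff.rfl⟩
  have h3 : Measurable[MeasurableSpace.generateFrom (R Y)] fun ω : W Y => ω.2.2 := fun s hs =>
    MeasurableSpace.measurableSet_generateFrom
      ⟨measurable_snd.snd hs, 0, fun _ _ _ _ => Iff.rfl⟩
  have h2 : ∀ p, Measurable[MeasurableSpace.generateFrom (R Y)] fun ω : W Y => ω.2.1 p :=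
    fun p s hs => MeasurableSpace.measurableSet_generateFrom
      ⟨((measurable_pi_apply p).comp measurable_snd.fst) hs, p.1 + 1, fun m hm c ω => by
        have : (Fl m c ω).2.1 p = ω.2.1 p := if_neg fun h => by omega
        simp only [mem_preimage, this]⟩
  have h4 : Measurable[MeasurableSpace.generateFrom (R Y)] fun ω : W Y => ω.2.1 :=
    @measurable_pi_lambda _ _ _ (MeasurableSpace.generateFrom (R Y)) _ _ h2
  exact fun s hs => (h1.prodMk (h4.prodMk h3)) hs

end APXx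

theorem p_APX  : S_APX := by
  intro Y _ μ _ a ha hlt B hB hfin
  have key : ∀ ε : ℝ≥0∞, 0 < ε → ∃ n B', Cyl a n B' ∧ mT μ (B ∆ B') < ε := by
    intro ε hε
    have h1 : Tendsto (fun n => mT μ (B \ Lv _ (a n))) atTop (𝓝 0) := by
      have := tendsto_measure_iInter_atTop (μ := mT μ) (s := fun n => B \ Lv _ (a n))
        (fun n => (hB.diff (measurableSet_Lv _)).nullMeasurableSet)
        (fun n k h => sdiff_subset_sdiff_right fun ω (hω : ω.1 < a n) => hω.trans_le (ha h))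
        ⟨0, measure_ne_top_of_subset sdiff_subset hfin⟩
      rwa [eq_empty_of_forall_notMem (s := ⋂ n, B \ Lv _ (a n)) fun ω hω =>
        (mem_iInter.1 hω ω.1).2 (hlt _), measure_empty] at this
    obtain ⟨n, hn⟩ := (h1.eventually (gt_mem_nhds (ENNReal.half_pos hε.ne'))).exists
    have : IsFiniteMeasure ((mT μ).restrict (Lv _ (a n))) := ⟨by
      rw [Measure.restrict_apply_univ, measure_Lv]
      exact ENNReal.natCast_lt_top _⟩
    obtain ⟨t, ⟨t1, k, t2⟩, ht⟩ := exists_measure_symmDiff_lt_of_generateFrom_isSetRing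
      (μ := (mT μ).restrict (Lv _ (a n))) (APXx.ring Y)
      ⟨{univ}, countable_singleton _, singleton_subset_iff.2
        ⟨MeasurableSet.univ, 0, fun _ _ _ _ => Iff.rfl⟩, by simp⟩ (APXx.gen Y) hB
      (ENNReal.half_pos hε.ne')
    rw [Measure.restrict_apply (t1.symmDiff hB)] at ht
    refine ⟨max n k, t ∩ Lv _ (a n), ⟨t1.inter (measurableSet_Lv _),
      fun ω hω => lt_of_lt_of_le hω.2 (ha (le_max_left _ _)), fun m hm c ω =>
        and_congr (t2 m (le_of_max_le_right hm) c ω) Iff.rfl⟩, ?_⟩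
    refine lt_of_le_of_lt ((measure_mono (t := (B \ Lv _ (a n)) ∪ (t ∆ B ∩ Lv _ (a n)))
      fun ω hω => ?_).trans (measure_union_le _ _)) ?_
    · simp only [mem_symmDiff, mem_inter_iff, mem_union, Set.mem_sdiff] at hω ⊢
      tauto
    · exact (ENNReal.add_lt_add hn ht).trans_eq (ENNReal.add_halves ε)
  refine ⟨key, fun m c hm => ENNReal.tendsto_nhds_zero.2 fun ε hε => ?_⟩
  obtain ⟨n, B', ⟨b1, -, b3⟩, hB'⟩ := key _ (ENNReal.half_pos hε.ne')
  filter_upwards [hm.eventually_ge_atTop n] with r hr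
  refine ((measure_mono (t := Fl (m r) (c r) ⁻¹' (B ∆ B') ∪ B ∆ B') fun ω hω => ?_).trans
    (measure_union_le _ _)).trans ?_
  · have := b3 _ hr (c r) ω
    simp only [mem_symmDiff, mem_union, mem_preimage] at hω ⊢
    tauto
  · rw [(Fl_mp (μ := μ) (m r) (c r)).measure_preimage (hB.symmDiff b1).nullMeasurableSet]
    exact (add_le_add hB'.le hB'.le).trans_eq (ENNReal.add_halves ε)

namespace S0x

theorem card_col {m : ℕ} {j : Finset ℕ} (hj : j ∈ J m) :
    (((J m).offDiag.filter fun u => u.2 = j).card : ℝ) = 2 ^ (m + 1) - 1 := by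
  have h : ((J m).offDiag.filter fun u => u.2 = j).card = ((J m).erase j).card := by
    refine Finset.card_bij (fun u _ => u.1) (fun u hu => ?_) (fun u hu v hv e => ?_) fun i hi => ?_
    · obtain ⟨h1, h2⟩ := Finset.mem_filter.1 hu
      obtain ⟨h3, -, h4⟩ := Finset.mem_offDiag.1 h1
      exact Finset.mem_erase.2 ⟨h2 ▸ h4, h3⟩
    · exact Prod.ext e ((Finset.mem_filter.1 hu).2.trans (Finset.mem_filter.1 hv).2.symm)
    · obtain ⟨h1, h2⟩ := Finset.mem_erase.1 hi
      exact ⟨(i, j), Finset.mem_filter.2 ⟨Finset.mem_offDiag.2 ⟨h2, hj, h1⟩, rfl⟩, rfl⟩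
  rw [h, Finset.card_erase_of_mem hj, card_J, Nat.cast_sub Nat.one_le_two_pow]
  simp

theorem ind_mul {Z : Type} (B : Set Z) (g g' : Z → Z) (ω : Z) :
    B.indicator (fun _ => (1 : ℝ)) (g ω) * B.indicator (fun _ => (1 : ℝ)) (g' ω) =
      (g ⁻¹' B ∩ g' ⁻¹' B).indicator (fun _ => (1 : ℝ)) ω := by
  by_cases h : g ω ∈ B <;> by_cases h' : g' ω ∈ B <;> simp [indicator, h, h']

end S0x

theorem p_S0 (hTM : S_TM) (hKEY : S_KEY) (hC : S_C) (hCNT : S_CNT) : S_S0 := by
  intro D Y _ μ _ α hF n m B hB hnm f hf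
  have hα : CI α := hF.2
  have hT := hTM.2 D Y μ α hF
  obtain ⟨k1, k2, -⟩ := hKEY D Y α hα
  have hBm : ∀ {r : ℕ} {ω : W Y}, n ≤ r → ω ∈ D.K Y n → ω ∈ D.K Y r := fun hr hω =>
    lt_of_lt_of_le hω (D.monoA hr)
  have hK := real_Lv ((unif (ℕ × ℕ)).prod μ) (D.A n)
  let τ : Finset ℕ × Finset ℕ → ℤ := fun u => D.p m u.1 - D.p m u.2
  let S : Finset ℕ × Finset ℕ → Finset ℕ × Finset ℕ → Set (W Y) := fun u v =>
    D.T α (τ u) ⁻¹' B ∩ D.T α (τ v) ⁻¹' B
  have hS : ∀ u v, MeasurableSet (S u v) := fun u v =>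
    ((hT _).measurable hB.1).inter ((hT _).measurable hB.1)
  have hS1 : ∀ u v, mT μ (S u v) = mT μ (B ∩ D.T α (τ u - τ v) ⁻¹' B) := fun u v => by
    rw [← (hT (τ v)).measure_preimage (hB.1.inter ((hT _).measurable hB.1)).nullMeasurableSet]
    congr 1
    ext ω
    simp only [S, mem_inter_iff, mem_preimage, ← TD.T_add hα, sub_add_cancel, and_comm]
  have hle : ∀ u v, mT μ (S u v) ≤ mT μ (D.K Y n ∩ D.T α (τ u - τ v) ⁻¹' D.K Y n) := fun u v => by
    rw [hS1]
    exact measure_mono (inter_subset_inter hB.2.1 (preimage_mono hB.2.1))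
  have hfin : ∀ t, mT μ (D.K Y n ∩ D.T α t ⁻¹' D.K Y n) ≠ ∞ := fun t =>
    measure_ne_top_of_subset inter_subset_left hK.1
  have hI : ∀ u v, Integrable (fun ω => (1 / 2 ^ (m + 1) : ℝ) ^ 2 *
      (S u v).indicator (fun _ => (1 : ℝ)) ω) (mT μ) := fun u v =>
    ((integrable_indicator_iff (hS u v)).2
      (integrableOn_const (ne_top_of_le_ne_top (hfin _) (hle u v)))).const_mul _
  have hsq : (fun ω => f ω ^ 2) = fun ω => ∑ u ∈ (J m).offDiag, ∑ v ∈ (J m).offDiag,
      (1 / 2 ^ (m + 1) : ℝ) ^ 2 * (S u v).indicator (fun _ => (1 : ℝ)) ω := by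
    funext ω
    rw [hf, sq, Finset.sum_mul_sum]
    refine Finset.sum_congr rfl fun u _ => Finset.sum_congr rfl fun v _ => ?_
    rw [← S0x.ind_mul]
    ring
  refine ⟨?_, ?_, fun ω hω => ?_, fun hm ω hω => ?_⟩
  · rw [hsq]
    exact integrable_finsetSum _ fun u _ => integrable_finsetSum _ fun v _ => hI u v
  · have h1 := hCNT D m (cor (mT μ) (D.K Y n) (D.T α)) (D.A n)
      (fun t => ⟨cor_nonneg _ _ _ _, (cor_le hK.1 _ _).trans hK.2.le⟩)
      (fun t ht => ((hC Y μ α hF).2 D).1 n m t hnm ht)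
      (fun i hi j hj k hk l hl e1 e2 e3 e4 => by
        have e : D.K Y n ∩ D.T α (D.p m i - D.p m j - (D.p m k - D.p m l)) ⁻¹' D.K Y n = ∅ :=
          eq_empty_of_forall_notMem fun ω hω =>
            k2 m i hi j hj k hk l hl e1 e2 e3 e4 ω (hBm hnm hω.1) (hBm hnm hω.2)
        rw [cor, e, measureReal_empty])
    rw [hsq, integral_finsetSum _ fun u _ => integrable_finsetSum _ fun v _ => hI u v]
    calc _ ≤ ∑ u ∈ (J m).offDiag, ∑ v ∈ (J m).offDiag, (1 / 2 ^ (m + 1) : ℝ) ^ 2 *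
          cor (mT μ) (D.K Y n) (D.T α) (τ u - τ v) := by
          refine Finset.sum_le_sum fun u _ => ?_
          rw [integral_finsetSum _ fun v _ => hI u v]
          refine Finset.sum_le_sum fun v _ => ?_
          rw [integral_const_mul, integral_indicator_const _ (hS u v), smul_eq_mul, mul_one]
          exact mul_le_mul_of_nonneg_left (ENNReal.toReal_mono (hfin _) (hle u v)) (sq_nonneg _)
      _ = (1 / 2 ^ (m + 1) : ℝ) ^ 2 * ∑ u ∈ (J m).offDiag, ∑ v ∈ (J m).offDiag,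
          cor (mT μ) (D.K Y n) (D.T α) (τ u - τ v) := by
          simp only [Finset.mul_sum]
      _ ≤ (1 / 2 ^ (m + 1) : ℝ) ^ 2 * (3 * D.A n * (2 ^ (m + 1)) ^ 2) :=
          mul_le_mul_of_nonneg_left h1 (sq_nonneg _)
      _ = 3 * D.A n := by field_simp
  · rw [hf]
    refine Finset.sum_eq_zero fun u hu => ?_
    obtain ⟨h1, h2, -⟩ := Finset.mem_offDiag.1 hu
    rw [indicator_of_notMem fun h => hω ?_, mul_zero]
    have h3 := D.abs_lt_succ h1 h2
    have h4 := D.hL (m + 1)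
    have h5 := TD.h_pos (D := D) (m + 1)
    have h6 := TD.near (n := m + 1) (t := -(D.p m u.1 - D.p m u.2)) hα
      (hBm (hnm.trans m.le_succ) (hB.2.1 h)) (by rw [abs_neg]; omega)
    rwa [TD.T_neg hα] at h6
  · have hj := dgt_mem m ω.2.1
    have h1 : ∀ u ∈ (J m).offDiag, (1 / 2 ^ (m + 1) : ℝ) *
        B.indicator (fun _ => (1 : ℝ)) (D.T α (D.p m u.1 - D.p m u.2) ω) =
        if u.2 = dgt m ω.2.1 then 1 / 2 ^ (m + 1) * B.indicator (fun _ => (1 : ℝ)) ω else 0 := by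
      intro u hu
      obtain ⟨h1, h2, h3⟩ := Finset.mem_offDiag.1 hu
      split_ifs with h
      · have h4 := TD.T_X (D := D) hα (symmDiff_mem_J hj h1) hω
        rw [symmDiff_symmDiff_cancel_left, X_even α hm] at h4
        rw [h, h4]
        have h5 := hB.2.2 m hnm (dgt m ω.2.1 ∆ u.1) ω
        by_cases h6 : ω ∈ B
        · rw [indicator_of_mem h6, indicator_of_mem (h5.2 h6)]
        · rw [indicator_of_notMem h6, indicator_of_notMem fun h7 => h6 (h5.1 h7)]
      · rw [indicator_of_notMem fun h4 =>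
          h (k1 m _ h1 _ h2 h3 ω hω (hBm hnm (hB.2.1 h4))).symm, mul_zero]
    rw [hf]
    simp only []
    rw [Finset.sum_congr rfl h1, ← Finset.sum_filter, Finset.sum_const, nsmul_eq_mul,
      S0x.card_col hj]
    field_simp

namespace S1x

theorem sq_sum_eq {N : ℕ} (f : ℕ → ℝ) (h : ∀ r r', r < r' → f r ≠ 0 → f r' = 0) :
    (∑ r ∈ Finset.range N, f r) ^ 2 = ∑ r ∈ Finset.range N, f r ^ 2 := by
  rw [sq, Finset.sum_mul_sum]
  refine Finset.sum_congr rfl fun r hr => ?_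
  rw [Finset.sum_eq_single r (fun r' _ hne => ?_) (fun h' => absurd hr h'), sq]
  rcases lt_or_gt_of_ne hne with h1 | h1
  · by_cases h2 : f r' = 0
    · rw [h2, mul_zero]
    · rw [h r' r h1 h2, zero_mul]
  · by_cases h2 : f r = 0
    · rw [h2, zero_mul]
    · rw [h r r' h1 h2, mul_zero]

theorem on_B {N : ℕ} (hN : 1 ≤ N) :
    ((1 / N : ℝ) * ∑ r ∈ Finset.range N, (1 - 1 / 2 ^ (TD.st N r + 1)) - 1) ^ 2 ≤ 1 / N ^ 2 := by
  have hN' : (0 : ℝ) < N := by exact_mod_cast hN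
  have h1 : (1 / N : ℝ) * ∑ r ∈ Finset.range N, (1 - 1 / 2 ^ (TD.st N r + 1)) - 1 =
      -((1 / N : ℝ) * ∑ r ∈ Finset.range N, (1 / 2 ^ (TD.st N r + 1))) := by
    rw [Finset.sum_sub_distrib, Finset.sum_const, Finset.card_range, nsmul_eq_mul, mul_one]
    field_simp
    ring
  have h2 : ∀ r ∈ Finset.range N, (1 / 2 ^ (TD.st N r + 1) : ℝ) ≤ 1 / N := fun r _ => by
    refine one_div_le_one_div_of_le hN' ?_
    have h3 : N < 2 ^ (TD.st N r + 1) := by
      refine Nat.lt_two_pow_self.trans_le (Nat.pow_le_pow_right (by norm_num) ?_)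
      unfold TD.st
      nlinarith
    exact_mod_cast h3.le
  have h4 : ∑ r ∈ Finset.range N, (1 / 2 ^ (TD.st N r + 1) : ℝ) ≤ 1 := by
    refine (Finset.sum_le_sum h2).trans ?_
    rw [Finset.sum_const, Finset.card_range, nsmul_eq_mul]
    field_simp
    exact le_rfl
  have h5 : 0 ≤ ∑ r ∈ Finset.range N, (1 / 2 ^ (TD.st N r + 1) : ℝ) :=
    Finset.sum_nonneg fun r _ => by positivity
  rw [h1, neg_sq, mul_pow, div_pow, one_pow]
  exact mul_le_of_le_one_right (by positivity) (by nlinarith)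

theorem st_even (N r : ℕ) : TD.st N r % 2 = 0 := by
  unfold TD.st
  rw [mul_assoc]
  exact Nat.mul_mod_right _ _

theorem le_st {n N : ℕ} (h : n ≤ N) (r : ℕ) : n ≤ TD.st N r := by
  unfold TD.st
  nlinarith

theorem st_lt {N : ℕ} (hN : 1 ≤ N) {r r' : ℕ} (h : r < r') : TD.st N r + 2 ≤ TD.st N r' := by
  unfold TD.st
  nlinarith

end S1x

theorem p_S1 (_hTM : S_TM) (hAPX : S_APX) (hS0 : S_S0) : S_S1 := by
  intro D Y _ μ _ α hα A hA hA' ε hε
  obtain ⟨n, B, hB, hAB⟩ := (hAPX Y μ D.A D.monoA D.ltA A hA hA').1 ε hε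
  have hBfin : mT μ B ≠ ∞ := measure_ne_top_of_subset hB.2.1 (real_Lv _ _).1
  have hBr : (mT μ).real B ≤ D.A n :=
    (measureReal_mono hB.2.1 (real_Lv _ _).1).trans (real_Lv _ _).2.le
  refine ⟨B, hB.1, hBfin, hAB, ?_⟩
  have hlim : Tendsto (fun N : ℕ => (4 * (D.A n : ℝ)) / N) atTop (𝓝 0) :=
    tendsto_const_div_atTop_nhds_zero_nat _
  refine squeeze_zero' (Eventually.of_forall fun N => integral_nonneg fun ω => sq_nonneg _) ?_ hlim
  filter_upwards [eventually_ge_atTop n, eventually_ge_atTop 1] with N hn h1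
  have hN : (0 : ℝ) < N := by exact_mod_cast h1
  have hN1 : (1 : ℝ) ≤ N := by exact_mod_cast h1
  set f : ℕ → W Y → ℝ := fun r ω => ∑ u ∈ (J (TD.st N r)).offDiag, 1 / 2 ^ (TD.st N r + 1) *
      B.indicator (fun _ => (1 : ℝ)) (D.T α (D.p (TD.st N r) u.1 - D.p (TD.st N r) u.2) ω) with hf
  have hS := fun r => hS0 D Y μ α hα n (TD.st N r) B hB (S1x.le_st hn r) (f r) rfl
  have hsum : ∀ ω, ∑ k ∈ D.V.D N, D.V.w N k * B.indicator (fun _ => (1 : ℝ)) (D.T α (D.V.τ N k) ω)
      = (1 / N : ℝ) * ∑ r ∈ Finset.range N, f r ω := fun ω => by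
    refine (Finset.sum_sigma (Finset.range N) (fun r => (J (TD.st N r)).offDiag) _).trans ?_
    rw [Finset.mul_sum]
    refine Finset.sum_congr rfl fun r _ => ?_
    rw [hf, Finset.mul_sum]
    refine Finset.sum_congr rfl fun u _ => ?_
    simp only [TD.V]
    rw [← mul_assoc, one_div_mul_one_div]
  have hind : Integrable (B.indicator fun _ => (1 : ℝ)) (mT μ) :=
    (integrable_indicator_iff hB.1).2 (integrableOn_const hBfin)
  have hsq : Integrable (fun ω => ∑ r ∈ Finset.range N, f r ω ^ 2) (mT μ) :=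
    integrable_finsetSum _ fun r _ => (hS r).1
  have hpt : ∀ ω, ((1 / N : ℝ) * ∑ r ∈ Finset.range N, f r ω -
      B.indicator (fun _ => (1 : ℝ)) ω) ^ 2 ≤ (1 / N ^ 2 : ℝ) *
        (B.indicator (fun _ => (1 : ℝ)) ω + ∑ r ∈ Finset.range N, f r ω ^ 2) := fun ω => by
    have hK : ∀ {a b : ℕ}, a ≤ b → ω ∈ D.K Y a → ω ∈ D.K Y b := fun hab h =>
      lt_of_lt_of_le h (D.monoA hab)
    by_cases hω : ω ∈ B
    · have h2 : ∀ r, f r ω = 1 - 1 / 2 ^ (TD.st N r + 1) := fun r => by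
        rw [(hS r).2.2.2 (S1x.st_even N r) ω (hK (S1x.le_st hn r) (hB.2.1 hω)),
          indicator_of_mem hω, mul_one]
      have h3 : 0 ≤ ∑ r ∈ Finset.range N, f r ω ^ 2 := Finset.sum_nonneg fun r _ => sq_nonneg _
      rw [indicator_of_mem hω, Finset.sum_congr rfl fun r _ => h2 r]
      refine (S1x.on_B h1).trans ?_
      exact le_mul_of_one_le_right (by positivity) (by linarith)
    · have h2 : ∀ r r', r < r' → f r ω ≠ 0 → f r' ω = 0 := fun r r' hr h => by
        have h3 : ω ∈ D.K Y (TD.st N r + 2) := by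
          by_contra h4
          exact h ((hS r).2.2.1 ω h4)
        rw [(hS r').2.2.2 (S1x.st_even N r') ω (hK (S1x.st_lt h1 hr) h3),
          indicator_of_notMem hω, mul_zero]
      rw [indicator_of_notMem hω, sub_zero, zero_add, mul_pow, S1x.sq_sum_eq (fun r => f r ω) h2,
        div_pow, one_pow]
  simp only [hsum]
  refine (integral_mono_of_nonneg (Eventually.of_forall fun ω => sq_nonneg _)
    ((hind.add hsq).const_mul (1 / N ^ 2 : ℝ)) (Eventually.of_forall hpt)).trans ?_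
  have h5 : ∫ ω, ∑ r ∈ Finset.range N, f r ω ^ 2 ∂mT μ ≤ N * (3 * D.A n) := by
    rw [integral_finsetSum _ fun r _ => (hS r).1]
    refine (Finset.sum_le_sum fun r _ => (hS r).2.1).trans ?_
    rw [Finset.sum_const, Finset.card_range, nsmul_eq_mul]
  rw [integral_const_mul]
  simp only [Pi.add_apply]
  rw [integral_add hind hsq, integral_indicator_const _ hB.1, smul_eq_mul, mul_one]
  have h6 : (0 : ℝ) ≤ D.A n := Nat.cast_nonneg _
  have h7 : (mT μ).real B + ∫ ω, ∑ r ∈ Finset.range N, f r ω ^ 2 ∂mT μ ≤ N * (4 * D.A n) := by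
    nlinarith
  refine (mul_le_mul_of_nonneg_left h7 (by positivity)).trans (le_of_eq ?_)
  field_simp

end Pool.Agent.P.MP_c1aa6a_an.Mix
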