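import Pool.Agent.P.MP_c1aa6a_an.Mix.Iface

/-! Agreement of digits, fibre lemma, transfer. -/

set_option autoImplicit false
open MeasureTheory Set Filter Topology
open scoped ENNReal NNReal symmDiff

namespace Pool.Agent.P.MP_c1aa6a_an.Mix

namespace AGRx

variable {Y : Type}

/-- The points where the map changes the digit of stage `m`. -/
def Bad (D : TD) (θ : W Y → W Y) (n m : ℕ) : Set (W Y) :=
  D.K Y n ∩ θ ⁻¹' D.K Y n ∩ {ω | dgt m (θ ω).2.1 = dgt m ω.2.1}ᶜ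

theorem K_mono (D : TD) {n m : ℕ} (h : n ≤ m) {ω : W Y} (hω : ω ∈ D.K Y n) : ω.1 < D.A m :=
  lt_of_lt_of_le hω (D.monoA h)

theorem X_pair (α : ℕ → Y → Y) (j r : ℕ) (ω : W Y) :
    X α (2 * Nat.pair j r + 1) {0} ω = Fl (2 * Nat.pair j r + 1) {0} (fib (α j) ω) := by
  simp [X, Fl, fib, gm_pair]

theorem zero_mem_J (m : ℕ) : ({0} : Finset ℕ) ∈ J m := by simp [J]

variable [MeasurableSpace Y]

theorem meas_Bad (D : TD) {θ : W Y → W Y} (hθ : Measurable θ) (n m : ℕ) :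
    MeasurableSet (Bad D θ n m) := by
  have h : ∀ j, MeasurableSet {ω : W Y | dgt m ω.2.1 = j} := fun j =>
    (measurable_fst.comp measurable_snd) (measurable_dgt m j)
  have e : {ω : W Y | dgt m (θ ω).2.1 = dgt m ω.2.1} =
      ⋃ j, θ ⁻¹' {ω : W Y | dgt m ω.2.1 = j} ∩ {ω : W Y | dgt m ω.2.1 = j} := by
    ext ω; simp [eq_comm]
  refine ((measurableSet_Lv _).inter (hθ (measurableSet_Lv _))).inter (MeasurableSet.compl ?_)
  rw [e]
  exact MeasurableSet.iUnion fun j => (hθ (h j)).inter (h j)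

theorem bad_le (hKEY : S_KEY) (hC : S_C) (D : TD) {μ : Measure Y} [IsProbabilityMeasure μ]
    {α β : ℕ → Y → Y} {θ : W Y → W Y} (hα : Fam μ α) (hβ : Fam μ β) (hθ : Measurable θ)
    (h : ∀ᵐ ω ∂mT μ, ∀ t, θ (D.T α t ω) = D.T β t (θ ω)) {n m : ℕ} (hn : n ≤ m) :
    mT μ (Bad D θ n m) ≤ ENNReal.ofReal (D.A n / 2 ^ (m + 1)) := by
  have hs : Bad D θ n m ⊆ Lv _ (D.A n) := fun ω hω => hω.1.1
  rw [← ofReal_measureReal (measure_ne_top_of_subset hs (real_Lv _ _).1)]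
  refine ENNReal.ofReal_le_ofReal ((hC Y μ α hα).1 m _ _ (meas_Bad D hθ n m) hs fun c hc hc0 => ?_)
  rw [measure_eq_zero_iff_ae_notMem]
  filter_upwards [h] with ω hω
  rintro ⟨⟨⟨h1, h2⟩, h3⟩, ⟨-, h4⟩, -⟩
  refine h3 ((hKEY D Y β hβ.2).1 m _ (symmDiff_mem_J (dgt_mem m ω.2.1) hc) _ (dgt_mem m ω.2.1)
    (fun e => hc0 (symmDiff_eq_left.1 e)) _ (K_mono D hn h2) ?_)
  rw [← hω, TD.T_X hα.2 hc (K_mono D hn h1)]
  exact K_mono D hn h4

theorem flip (hAPX : S_APX) (D : TD) {μ : Measure Y} [IsProbabilityMeasure μ] {B : Set (W Y)}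
    (hB : MeasurableSet B) (hB' : mT μ B ≠ ∞) {m : ℕ → ℕ} (c : Finset ℕ)
    (hm : Tendsto m atTop atTop) :
    Tendsto (fun r => mT μ ((Fl (m r) c ⁻¹' B) ∆ B)) atTop (𝓝 0) := by
  rw [ENNReal.tendsto_nhds_zero]
  intro ε hε
  obtain ⟨n, B', hc, hlt⟩ := (hAPX Y μ D.A D.monoA D.ltA B hB hB').1 (ε / 2)
    (ENNReal.half_pos hε.ne')
  filter_upwards [hm.eventually_ge_atTop n] with r hr
  have hs : (Fl (m r) c ⁻¹' B) ∆ B ⊆ Fl (m r) c ⁻¹' (B ∆ B') ∪ B ∆ B' := fun ω hω => by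
    have := hc.2.2 _ hr c ω
    simp only [mem_symmDiff, mem_preimage, mem_union] at hω ⊢
    tauto
  refine (measure_mono hs).trans ((measure_union_le _ _).trans ?_)
  rw [← ENNReal.add_halves ε]
  exact add_le_add (((Fl_mp _ _).measure_preimage_le _).trans hlt.le) hlt.le

end AGRx

open AGRx in
theorem p_AGR (hKEY : S_KEY) (hC : S_C) (hAPX : S_APX) : S_AGR := by
  intro D Y _ _ μ _ α β θ hα hβ hθ hT j
  have h : ∀ᵐ ω ∂mT μ, ∀ t, θ (D.T α t ω) = D.T β t (θ ω) := ae_all_iff.2 hT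
  refine ae_eq_of_preimage (mT μ) fun A hA hA' => ?_
  rw [← measure_symmDiff_eq_zero_iff]
  set S := ((fun y => θ (fib (α j) y)) ⁻¹' A) ∆ ((fun y => fib (β j) (θ y)) ⁻¹' A) with hS
  have hcov : S ⊆ ⋃ n, S ∩ (D.K Y n ∩ θ ⁻¹' D.K Y n) := fun ω hω =>
    mem_iUnion.2 ⟨max ω.1 (θ ω).1, hω, (le_max_left _ _).trans_lt (D.ltA _),
      (le_max_right _ _).trans_lt (D.ltA _)⟩
  refine measure_mono_null hcov (measure_iUnion_null fun n => ?_)
  have hm : Tendsto (fun r => 2 * Nat.pair j r + 1) atTop atTop :=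
    tendsto_atTop_mono (fun r => by have := Nat.right_le_pair j r; simp only [id]; omega) tendsto_id
  have hB : mT μ (θ ⁻¹' A) ≠ ∞ := by rwa [hθ.measure_preimage hA.nullMeasurableSet]
  have t1 := flip hAPX D (hθ.measurable hA) hB {0} hm
  have t2 := flip hAPX D hA hA' {0} hm
  have t3 : Tendsto (fun r => ENNReal.ofReal ((D.A n : ℝ) / 2 ^ (2 * Nat.pair j r + 1 + 1)))
      atTop (𝓝 0) := by
    rw [← ENNReal.ofReal_zero]
    refine ENNReal.tendsto_ofReal (Tendsto.const_div_atTop ?_ _)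
    exact (tendsto_pow_atTop_atTop_of_one_lt one_lt_two).comp
      ((tendsto_add_atTop_nat 1).comp hm)
  have t4 := (t3.add t1).add t2
  rw [add_zero, add_zero] at t4
  refine nonpos_iff_eq_zero.1 (ge_of_tendsto t4 ?_)
  filter_upwards [hm.eventually_ge_atTop n] with r hr
  set m := 2 * Nat.pair j r + 1 with hmr
  have key : (S ∩ (D.K Y n ∩ θ ⁻¹' D.K Y n) : Set (W Y)) ≤ᵐ[mT μ] (Bad D θ n m ∪
      fib (α j) ⁻¹' ((Fl m {0} ⁻¹' (θ ⁻¹' A)) ∆ (θ ⁻¹' A)) ∪
      (fib (β j) ∘ θ) ⁻¹' ((Fl m {0} ⁻¹' A) ∆ A) : Set (W Y)) := by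
    filter_upwards [h] with ω hω
    rintro ⟨h1, h2, h3⟩
    by_cases hd : dgt m (θ ω).2.1 = dgt m ω.2.1
    · have e : θ (Fl m {0} (fib (α j) ω)) = Fl m {0} (fib (β j) (θ ω)) := by
        rw [hmr, ← X_pair, ← X_pair, ← TD.T_X hα.2 (zero_mem_J _) (K_mono D hr h2),
          ← TD.T_X hβ.2 (zero_mem_J _) (K_mono D hr h3), hω, hd]
      have h4 : ω ∈ fib (α j) ⁻¹' ((Fl m {0} ⁻¹' (θ ⁻¹' A)) ∆ (θ ⁻¹' A)) ∨
          ω ∈ (fib (β j) ∘ θ) ⁻¹' ((Fl m {0} ⁻¹' A) ∆ A) := by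
        simp only [hS, mem_symmDiff, mem_preimage, Function.comp] at h1 ⊢
        rw [e]
        tauto
      exact h4.elim (fun h => Or.inl (Or.inr h)) Or.inr
    · exact Or.inl (Or.inl ⟨⟨h2, h3⟩, hd⟩)
  refine (measure_mono_ae key).trans ((measure_union_le _ _).trans (add_le_add
    ((measure_union_le _ _).trans (add_le_add (bad_le hKEY hC D hα hβ hθ.measurable h hr) ?_)) ?_))
  · exact (fib_mp (hα.1 j)).measure_preimage_le _
  · exact ((fib_mp (hβ.1 j)).comp hθ).measure_preimage_le _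

namespace ISOx

variable {Y : Type} [MeasurableSpace Y] {μ : Measure Y} {α β : ℕ → Y → Y} {g : Y → Y}

theorem itw_gm (h : ∀ j, Itw μ g (α j) (β j)) (m : ℕ) : Itw μ g (gm α m) (gm β m) := by
  unfold gm
  split_ifs
  · exact h _
  · exact EventuallyEq.rfl

theorem itw_G (hα : Fam μ α) (h : ∀ j, Itw μ g (α j) (β j)) (n : ℕ) (d : Dg) :
    Itw μ g (G α n d) (G β n d) := by
  induction n with
  | zero => exact EventuallyEq.rfl
  | succ n ih =>
    filter_upwards [ih, Step2.aec (G_mp hα n d) (itw_gm h n)] with y h1 h2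
    simp only [G]
    split_ifs
    · rw [h2, h1]
    · exact h1

theorem itw_all (hα : Fam μ α) (h : ∀ j, Itw μ g (α j) (β j)) :
    ∀ᵐ y ∂μ, ∀ n d, g (G α n d y) = G β n d (g y) := by
  filter_upwards [ae_all_iff.2 fun n => ae_all_iff.2 fun s : Finset (ℕ × ℕ) =>
    itw_G hα h n fun c => decide (c ∈ s)] with y hy n d
  have e : ∀ c ∈ Tri n, d c = decide (c ∈ (Tri n).filter fun c => d c = true) := fun c hc => by
    simp [hc]
  rw [G_congr α e, G_congr β e]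
  exact hy n _

end ISOx

open ISOx in
theorem p_ISO (hTM : S_TM) : S_ISO := by
  intro D Y _ μ _ α β g hα hβ _ h t
  have hq : Measure.QuasiMeasurePreserving (fun ω : W Y => ω.2.2) (mT μ) μ :=
    Measure.quasiMeasurePreserving_snd.comp Measure.quasiMeasurePreserving_snd
  have h1 := hq.ae (itw_all hα h)
  filter_upwards [h1, (hTM.2 D Y μ α hα t).quasiMeasurePreserving.ae h1] with ω a1 a2
  obtain ⟨n, r1, r2, r3, r4, r5⟩ := TD.T_rel (D := D) hα.2 t ω
  refine (TD.Rel.T_eq hβ.2 (n := n) (ω := fib g ω) (ω' := fib g (D.T α t ω))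
    ⟨r1, r2, r3, r4, ?_⟩).symm
  simp only [fib]
  rw [← a1, ← a2, r5]

namespace FL0x

open ProbabilityTheory

variable {B F ι : Type} [MeasurableSpace B] [MeasurableSpace F] {β : Measure B} {P : Measure F}
  [IsProbabilityMeasure P]

/-- An invariant function on the product depends only on the first coordinate. -/
lemma exists_factor [SigmaFinite β] [StandardBorelSpace B] [Nonempty B] [Countable ι]
    {g : ι → F → F} (he : ErgFam P g) {f : B × F → B} (hf : Measurable f)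
    (hinv : ∀ j, (fun w : B × F => f (w.1, g j w.2)) =ᵐ[β.prod P] f) :
    ∃ θ : B → B, Measurable θ ∧ f =ᵐ[β.prod P] fun w => θ w.1 := by
  have h1 : ∀ᵐ b ∂β, ∀ j, ∀ᵐ y ∂P, f (b, g j y) = f (b, y) :=
    ae_all_iff.mpr fun j => Measure.ae_ae_of_ae_prod (hinv j)
  have h2 : ∀ᵐ b ∂β, ∀ᵐ y ∂P, ∀ᵐ y' ∂P, f (b, y) = f (b, y') := by
    filter_upwards [h1] with b hb
    obtain ⟨c, hc⟩ := exists_eventuallyEq_const_of_forall_separating (l := ae P)
      (f := fun y => f (b, y)) MeasurableSet fun U hU => by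
        have hm : MeasurableSet ((fun y => f (b, y)) ⁻¹' U) :=
          (hf.comp measurable_prodMk_left) hU
        refine (he _ hm fun j => ?_).symm.imp (fun h => h)
          fun h => measure_eq_zero_iff_ae_notMem.mp h
        filter_upwards [hb j] with y hy
        show (f (b, g j y) ∈ U) = (f (b, y) ∈ U)
        rw [hy]
    filter_upwards [hc] with y hy
    filter_upwards [hc] with y' hy'
    exact hy.trans hy'.symm
  have hs : MeasurableSet {x : (B × F) × F | f x.1 = f (x.1.1, x.2)} :=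
    measurableSet_eq_fun (hf.comp measurable_fst)
      (hf.comp ((measurable_fst.comp measurable_fst).prodMk measurable_snd))
  have h3 : ∀ᵐ w ∂(β.prod P), ∀ᵐ y' ∂P, f w = f (w.1, y') :=
    (Measure.ae_prod_iff_ae_ae (FL.measurableSet_ae hs)).mpr h2
  obtain ⟨y₀, hy₀⟩ := ((Measure.ae_ae_comm (p := fun w y' => f w = f (w.1, y')) hs).mp h3).exists
  exact ⟨fun b => f (b, y₀), hf.comp (measurable_id.prodMk measurable_const), hy₀⟩

lemma mp_fibre0 [IsFiniteMeasure β] [StandardBorelSpace F] {Ψ : B × F → F}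
    (h : MeasurePreserving (fun w => (w.1, Ψ w)) (β.prod P) (β.prod P)) :
    ∀ᵐ b ∂β, MeasurePreserving (fun y => Ψ (b, y)) P P := by
  have hΨ : Measurable Ψ := measurable_snd.comp h.measurable
  let κ : Kernel B F := Kernel.map (Kernel.id ×ₖ Kernel.const B P) Ψ
  have hM : IsMarkovKernel κ := Kernel.IsMarkovKernel.map _ hΨ
  have hκ : ∀ b, κ b = P.map (fun y => Ψ (b, y)) := by
    intro b
    rw [Kernel.map_apply _ hΨ, Kernel.prod_apply, Kernel.id_apply, Kernel.const_apply,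
      Measure.dirac_prod, Measure.map_map hΨ measurable_prodMk_left]
    rfl
  have h1 : β ⊗ₘ κ = β ⊗ₘ Kernel.const B P := by
    rw [Measure.compProd_const]
    ext s hs
    rw [Measure.compProd_apply hs, ← h.measure_preimage hs.nullMeasurableSet,
      Measure.prod_apply (h.measurable hs)]
    refine lintegral_congr fun b => ?_
    rw [hκ]
    exact Measure.map_apply (hΨ.comp measurable_prodMk_left) (measurable_prodMk_left hs)
  filter_upwards [Kernel.ae_eq_of_compProd_eq h1] with b hb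
  exact ⟨hΨ.comp measurable_prodMk_left, by rw [← hκ, hb, Kernel.const_apply]⟩

/-- A fibre preserving measure preserving map is measure preserving on almost every fibre. -/
lemma mp_fibre [SigmaFinite β] [StandardBorelSpace F] {Ψ : B × F → F}
    (h : MeasurePreserving (fun w => (w.1, Ψ w)) (β.prod P) (β.prod P)) :
    ∀ᵐ b ∂β, MeasurePreserving (fun y => Ψ (b, y)) P P := by
  refine ae_of_forall_measure_lt_top_ae_restrict _ fun s hs hβ => ?_
  have : IsFiniteMeasure (β.restrict s) := isFiniteMeasure_restrict.2 hβ.ne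
  refine mp_fibre0 ?_
  have h1 := h.restrict_preimage (hs.prod MeasurableSet.univ)
  have h2 : (fun w : B × F => (w.1, Ψ w)) ⁻¹' s ×ˢ univ = s ×ˢ univ := by
    ext w; simp
  rwa [h2, ← Measure.restrict_prod_eq_prod_univ] at h1

/-- One half of the conclusion. -/
lemma half [SigmaFinite β] [StandardBorelSpace F] {Θ Θ' : B × F → B × F}
    (hΘ : MeasurePreserving Θ (β.prod P) (β.prod P))
    (hinv : (fun t => Θ' (Θ t)) =ᵐ[β.prod P] id) {θ θ' : B → B}
    (hθ' : MeasurePreserving θ' β β) (h : (fun w => (Θ w).1) =ᵐ[β.prod P] fun w => θ w.1)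
    (h' : (fun w => (Θ' w).1) =ᵐ[β.prod P] fun w => θ' w.1) :
    ∀ᵐ b ∂β, θ' (θ b) = b ∧ MeasurePreserving (fun y => (Θ (b, y)).2) P P ∧
      ∀ᵐ y ∂P, (Θ' (θ b, (Θ (b, y)).2)).2 = y := by
  have h1 : ∀ᵐ w ∂(β.prod P), θ' (Θ w).1 = w.1 := by
    filter_upwards [hΘ.quasiMeasurePreserving.ae h', hinv] with w h2 h3
    rw [← h2, h3, id]
  have h2 : ∀ᵐ b ∂β, θ' (θ b) = b := by
    apply FL.ae_fst (P := P)
    filter_upwards [h1, h] with w h2 h3
    rw [← h3, h2]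
  have h3 : MeasurePreserving (fun w => (w.1, (Θ w).2)) (β.prod P) (β.prod P) := by
    refine ((hθ'.prod (MeasurePreserving.id P)).comp hΘ).congr
      (measurable_fst.prodMk (measurable_snd.comp hΘ.measurable)) ?_
    filter_upwards [h1] with w hw
    exact Prod.ext hw rfl
  have h4 : ∀ᵐ w ∂(β.prod P), (Θ' (θ w.1, (Θ w).2)).2 = w.2 := by
    filter_upwards [h, hinv] with w h5 h6
    rw [← h5, Prod.mk.eta, h6, id]
  filter_upwards [h2, mp_fibre h3, Measure.ae_ae_of_ae_prod h4] with b h5 h6 h8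
  exact ⟨h5, h6, h8⟩

end FL0x

open FL0x in
theorem p_FL0 : S_FL0 := by
  intro B F ι _ _ _ _ _ β P _ _ g g' Θ Θ' hβ hg hg' he he' hc hΘg
  obtain ⟨hΘ, hΘ', hi, hi'⟩ := hc
  have : NeZero β := ⟨hβ⟩
  have hne : Nonempty B := β.nonempty_of_neZero
  have hG : ∀ j, MeasurePreserving (fun w : B × F => (w.1, g j w.2)) (β.prod P) (β.prod P) :=
    fun j => (MeasurePreserving.id β).prod (hg j)
  have hΘg' : ∀ j, ∀ᵐ w ∂β.prod P, Θ (w.1, g j w.2) = ((Θ w).1, g' j (Θ w).2) := hΘg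
  have hΘ'g : ∀ j, (fun w : B × F => (Θ' (w.1, g' j w.2)).1) =ᵐ[β.prod P] fun w => (Θ' w).1 := by
    intro j
    filter_upwards [hΘ'.quasiMeasurePreserving.ae (hΘg' j), hi',
      ((hG j).comp hΘ').quasiMeasurePreserving.ae hi] with w h1 h2 h3
    simp only [id, Function.comp] at h2 h3
    rw [h1, h2] at h3
    rw [h3]
  obtain ⟨θ, hθm, hθ⟩ := exists_factor he (measurable_fst.comp hΘ.measurable)
    (f := fun w => (Θ w).1) fun j => by
      filter_upwards [hΘg' j] with w hw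
      rw [hw]
  obtain ⟨θ', hθm', hθ'⟩ := exists_factor he' (measurable_fst.comp hΘ'.measurable)
    (f := fun w => (Θ' w).1) hΘ'g
  have m1 := FL.mp_base hΘ hθm hθ
  have m2 := FL.mp_base hΘ' hθm' hθ'
  have a1 := half hΘ hi m2 hθ hθ'
  have a2 := m1.quasiMeasurePreserving.ae (half hΘ' hi' m1 hθ' hθ)
  have a3 : ∀ᵐ b ∂β, ∀ j, ∀ᵐ y ∂P, Θ (b, g j y) = ((Θ (b, y)).1, g' j (Θ (b, y)).2) :=
    ae_all_iff.mpr fun j => Measure.ae_ae_of_ae_prod (hΘg' j)
  obtain ⟨b, ⟨c1, c2, c4⟩, ⟨-, d2, d4⟩, e3⟩ := (a1.and (a2.and a3)).exists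
  refine ⟨fun y => (Θ (b, y)).2, fun y => (Θ' (θ b, y)).2, ⟨c2, d2, c4, ?_⟩, fun j => ?_⟩
  · rw [c1] at d4
    exact d4
  · filter_upwards [e3 j] with y hy
    rw [hy]

namespace POIx

variable {Y Z : Type} [MeasurableSpace Y] [MeasurableSpace Z] {μ : Measure Y} {ν : Measure Z}
  {Φ : Y ≃ᵐ Z} (h : MeasurePreserving Φ μ ν)
include h

theorem za {T : ℤ → Y → Y} (hT : ZA μ T) : ZA ν fun t q => Φ (T t (Φ.symm q)) := by
  refine ⟨fun t => h.comp ((hT.1 t).comp (h.symm Φ)), ?_, fun t u => ?_⟩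
  · filter_upwards [Step2.aec (h.symm Φ) hT.2.1] with q e
    rw [e, id, id, Φ.apply_symm_apply]
  · filter_upwards [Step2.aec (h.symm Φ) (hT.2.2 t u)] with q e
    rw [e, Φ.symm_apply_apply]

theorem cor_eq (K : Set Y) (T : ℤ → Y → Y) (t : ℤ) :
    cor ν (Φ.symm ⁻¹' K) (fun t q => Φ (T t (Φ.symm q))) t = cor μ K T t := by
  rw [cor, cor, measureReal_def, measureReal_def, ← (h.symm Φ).measure_preimage_equiv]
  congr 2
  ext q
  simp

theorem sing1 {T : ℤ → Y → Y} {V : Avg} (hT : Sing1 μ T V) :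
    Sing1 ν (fun t q => Φ (T t (Φ.symm q))) V := by
  intro A hA hA' ε hε
  obtain ⟨B, hB, hB', h1, h2⟩ := hT (Φ ⁻¹' A) (Φ.measurable hA)
    (by rwa [h.measure_preimage_equiv]) ε hε
  refine ⟨Φ.symm ⁻¹' B, Φ.symm.measurable hB, by rwa [(h.symm Φ).measure_preimage_equiv], ?_,
    h2.congr fun N => ?_⟩
  · rw [← h.measure_preimage_equiv]
    convert h1 using 2
    ext y
    simp [Set.mem_symmDiff]
  · rw [← (h.symm Φ).integral_comp']
    refine integral_congr_ae (Eventually.of_forall fun q => ?_)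
    have e : ∀ q, (Φ.symm ⁻¹' B).indicator (fun _ => (1 : ℝ)) q =
        B.indicator (fun _ => (1 : ℝ)) (Φ.symm q) := fun q => rfl
    simp only [e, Φ.symm_apply_apply]

theorem iso {f g : Y → Y} (hi : IsoR μ f g) :
    IsoR ν (fun q => Φ (f (Φ.symm q))) fun q => Φ (g (Φ.symm q)) := by
  obtain ⟨θ, θ', h1, h2⟩ := hi
  have hA := Step2.conj_equiv Φ h
  refine ⟨_, _, Step2.conj_comp (Step2.conj_comp (Step2.conj_symm hA) h1) hA, ?_⟩
  filter_upwards [Step2.aec (h.symm Φ) h2] with q e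
  simp only [Φ.symm_apply_apply, e]

theorem iso_iff {f g : Y → Y} :
    IsoR ν (fun q => Φ (f (Φ.symm q))) (fun q => Φ (g (Φ.symm q))) ↔ IsoR μ f g :=
  ⟨fun hi => by simpa using iso (h.symm Φ) hi, iso h⟩

end POIx

open POIx in
theorem p_POI (hPOQ : S_POQ) : S_POI := by
  intro Z _ _ ζ _ hZ a V X _ T ha ha' hT hm
  have : Infinite Idx := Infinite.of_injective
    (fun c : ℕ => (⟨c, default, default, ∅, ∅, ∅⟩ : Idx)) fun _ _ e => congrArg Idx.c e
  obtain ⟨e0⟩ : Nonempty (ℕ ≃ Idx) := nonempty_equiv_of_countable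
  let e : ℕ ≃ᵐ Idx := ⟨e0, measurable_of_countable _, measurable_of_countable _⟩
  have he : MeasurePreserving e Measure.count Measure.count := ⟨e.measurable, by
    refine Measure.ext_of_singleton fun i => ?_
    rw [e.map_apply, Measure.count_singleton, ← Measure.count_singleton (e.symm i)]
    congr 1
    ext n
    simp only [mem_preimage, mem_singleton_iff]
    exact ⟨fun h => by rw [← h, e.symm_apply_apply], fun h => by rw [h, e.apply_symm_apply]⟩⟩
  have hXi : ¬ Countable Xi := fun hc => by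
    have h1 := Cardinal.mk_le_aleph0_iff.2 hc
    rw [Cardinal.mk_arrow, Cardinal.lift_id, Cardinal.lift_id, Cardinal.mk_bool] at h1
    exact ((Cardinal.cantor _).trans_le h1).not_ge (Cardinal.aleph0_le_mk Crd)
  let ι : Z ≃ᵐ Xi := PolishSpace.measurableEquivOfNotCountable hZ hXi
  have : IsProbabilityMeasure (ζ.map ι) := Measure.isProbabilityMeasure_map ι.measurable.aemeasurable
  have h : MeasurePreserving (e.prodCongr ι) (mW ζ) (mQ (ζ.map ι)) :=
    he.prod (ι.measurable.measurePreserving ζ)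
  refine (hPOQ (ζ.map ι) (fun n => (e.prodCongr ι).symm ⁻¹' Lv Z (a n)) V X
    (fun x t q => e.prodCongr ι (T x t ((e.prodCongr ι).symm q))) ⟨fun n => ⟨?_, ?_⟩, ?_, ?_⟩
    (fun x => ⟨za h (hT x).1, ?_, sing1 h (hT x).2.2.1, ?_⟩) ?_).imp
    fun f hf => ⟨hf.1, hf.2.1, fun x y => (iso_iff h).symm.trans (hf.2.2 x y)⟩
  · exact (e.prodCongr ι).symm.measurable (measurableSet_Lv _)
  · rw [(h.symm _).measure_preimage_equiv]
    exact (real_Lv ζ _).1
  · exact fun n m hnm q hq => lt_of_lt_of_le hq (ha hnm)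
  · intro E
    obtain ⟨S, hS⟩ := First.co_finite E
    exact ⟨S.sup e.symm, fun q hq => (Finset.le_sup (f := e.symm) (hS q hq)).trans_lt (ha' _)⟩
  · simpa only [ZT, cor_eq h] using (hT x).2.1
  · simpa only [Sing2, cor_eq h] using (hT x).2.2.2
  · exact (e.prodCongr ι).measurable.comp (hm.comp
      (measurable_fst.prodMk ((e.prodCongr ι).symm.measurable.comp measurable_snd)))

namespace POQx

open Step2

variable {Y Z : Type} [MeasurableSpace Y] [MeasurableSpace Z] {μ : Measure Y} {ν : Measure Z}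
  {e : Y → Z} {e' : Z → Y}

theorem iter_conj (he : Conj μ ν e e') {T : Y → Y} (hT : MeasurePreserving T μ μ) (n : ℕ) :
    (fun t => e (T (e' t)))^[n] =ᵐ[ν] fun t => e (T^[n] (e' t)) := by
  induction n with
  | zero => exact he.2.2.2.symm
  | succ n ih =>
    filter_upwards [ih, aec ((hT.iterate n).comp he.2.1) he.2.2.1] with t h1 h2
    simp only [id, Function.comp] at h2
    rw [Function.iterate_succ_apply', Function.iterate_succ_apply', h1, h2]

theorem mix_conj (he : Conj μ ν e e') {S : ℤ → Y → Y} (hS : ZA μ S) (hM : MixZ μ S) :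
    MixAll ν fun t => e (S 1 (e' t)) := by
  intro k A hA n hn
  have h := hM k (fun i => e ⁻¹' A i) (fun i => he.1.measurable (hA i)) (fun r i => n r i) hn
  simp only [fun i => he.1.measure_preimage (hA i).nullMeasurableSet] at h
  refine h.congr fun r => ?_
  rw [← he.2.1.measure_preimage (MeasurableSet.iInter fun i =>
    (hS.1 _).measurable (he.1.measurable (hA i))).nullMeasurableSet]
  refine measure_congr ?_
  filter_upwards [ae_all_iff.2 fun i => iter_conj he (hS.1 1) (n r i),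
    ae_all_iff.2 fun i => aec he.2.1 (hS.iter (n r i))] with t h1 h2
  refine propext ?_
  change t ∈ e' ⁻¹' (⋂ i, S (n r i) ⁻¹' (e ⁻¹' A i)) ↔
    t ∈ ⋂ i, (fun t => e (S 1 (e' t)))^[n r i] ⁻¹' A i
  simp only [mem_preimage, mem_iInter, h1, h2]

theorem meas_conj (he : Conj μ ν e e') {T : Y → Y} (hT : MeasurePreserving T μ μ) {A B : Set Z}
    (hA : MeasurableSet A) (hB : MeasurableSet B) :
    ν ((fun t => e (T (e' t))) ⁻¹' A ∩ B) = μ (T ⁻¹' (e ⁻¹' A) ∩ e ⁻¹' B) := by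
  rw [← he.2.1.measure_preimage ((hT.measurable (he.1.measurable hA)).inter
    (he.1.measurable hB)).nullMeasurableSet]
  refine measure_congr ?_
  filter_upwards [he.2.2.2] with t h1
  refine propext ?_
  change t ∈ (fun t => e (T (e' t))) ⁻¹' A ∩ B ↔ t ∈ e' ⁻¹' (T ⁻¹' (e ⁻¹' A) ∩ e ⁻¹' B)
  simp only [mem_preimage, mem_inter_iff, h1, id]

theorem iso_conj (he : Conj μ ν e e') {T T' : Y → Y} (hT : MeasurePreserving T μ μ)
    (hT' : MeasurePreserving T' μ μ) :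
    IsoR μ T T' ↔ IsoR ν (fun t => e (T (e' t))) fun t => e (T' (e' t)) := by
  constructor
  · rintro ⟨Θ, Θ', hΘ, hint⟩
    refine ⟨_, _, conj_comp (conj_comp (conj_symm he) hΘ) he, ?_⟩
    filter_upwards [aec (hT.comp he.2.1) he.2.2.1, aec (hΘ.1.comp he.2.1) he.2.2.1,
      aec he.2.1 hint] with t h5 h6 h7
    simp only [id, Function.comp] at h5 h6 h7 ⊢
    rw [h5, h6, h7]
  · rintro ⟨φ, ψ, hφ, hint⟩
    have hΘ := conj_comp (conj_comp he hφ) (conj_symm he)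
    refine ⟨_, _, hΘ, ?_⟩
    filter_upwards [aec he.1 hint, he.2.2.1, aec (hT'.comp hΘ.1) he.2.2.1] with ω h3 h4 h5
    simp only [id, Function.comp] at h3 h4 h5 ⊢
    rw [h4] at h3
    rw [h3, h5]

theorem itw_symm (he : Conj μ ν e e') {T : Y → Y} {T' : Z → Z} (hT : MeasurePreserving T μ μ)
    (h : Itw μ e T T') : Itw ν e' T' T := by
  filter_upwards [aec he.2.1 h, he.2.2.2, aec (hT.comp he.2.1) he.2.2.1] with t h1 h2 h3
  simp only [id, Function.comp] at h1 h2 h3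
  rw [h2] at h1
  rw [← h1, h3]

end POQx

theorem p_POQ (hMIX : S_MIX) (hMIX2 : S_MIX2) (hMEAS : S_MEAS) (hFC : S_FC) (hBACK : S_BACK) :
    S_POQ := by
  intro ξ _ K V X _ s hK hs hm
  rcases isEmpty_or_nonempty X with hX | ⟨⟨x0⟩⟩
  · exact ⟨fun _ => id, fun x => isEmptyElim x, fun _ _ _ _ => measurable_of_empty _,
      fun x => isEmptyElim x⟩
  obtain ⟨P, hP, hL⟩ := lap_ok ξ
  obtain ⟨I, hI⟩ := chaos_ok approx_ok ξ P hL
  obtain ⟨l1, -, l3, l4, l5⟩ := lift_all ξ P I hI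
  choose S hS using fun x t => l1 (s x t) ((hs x).1.1 t)
  have hZ : ∀ x, ZA P (S x) := fun x => za_lift hI (hs x).1 (hS x)
  have hM : ∀ x, MixZ P (S x) := fun x k A hA n hn =>
    hMIX2 P k (fun r i => S x (n r i)) (fun r i => (hZ x).1 _)
      (fun l => hMIX ξ P I hI K (s x) (S x) hK (hs x).1 (hS x) (hs x).2.1 k l n hn) A hA
  obtain ⟨e, e', he⟩ := transfer_ok Cf P ((hMEAS ξ P I hI).2 _ (hZ x0) (hM x0))
  refine ⟨fun x t => e (S x 1 (e' t)), fun x => ⟨POQx.mix_conj he (hZ x) (hM x), _,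
    Step2.conj_comp (Step2.conj_comp (Step2.conj_symm he) ((hZ x).conj 1)) he⟩,
    fun A B hA hB => ?_, fun x y => ?_⟩
  · simp only [fun x => POQx.meas_conj he ((hZ x).1 1) hA hB]
    exact (hMEAS ξ P I hI).1 X (fun x => s x 1) (fun x => S x 1) hm (fun x => hS x 1) _ _
      (he.1.measurable hA) (he.1.measurable hB)
  rw [← POQx.iso_conj he ((hZ x).1 1) ((hZ y).1 1)]
  constructor
  · rintro ⟨θ, θ', hθ, hint⟩
    obtain ⟨Θ, hΘ⟩ := l1 θ hθ.1
    obtain ⟨Θ', hΘ'⟩ := l1 θ' hθ.2.1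
    exact ⟨Θ, Θ', ⟨hΘ.2.1, hΘ'.2.1, l4 _ _ _ _ (l3 _ _ _ _ hΘ hΘ') l5 hθ.2.2.1,
      l4 _ _ _ _ (l3 _ _ _ _ hΘ' hΘ) l5 hθ.2.2.2⟩,
      l4 _ _ _ _ (l3 _ _ _ _ (hS x 1) hΘ) (l3 _ _ _ _ hΘ (hS y 1)) hint⟩
  · rintro ⟨Θ, Θ', hΘ, hint⟩
    have h1 := (hZ x).itw (hZ y) hΘ.1 hint
    exact hBACK ξ P I hL hI _ _ _ _ Θ Θ' (hS x 1) (hS y 1) hΘ hint
      (hFC ξ P I hI K V (s x) (s y) (S x) (S y) Θ hK (hs x).1 (hs y).1 (hS x) (hS y)
        (hs x).2.2.2 (hs y).2.2.1 hΘ.1 h1)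
      (hFC ξ P I hI K V (s y) (s x) (S y) (S x) Θ' hK (hs y).1 (hs x).1 (hS y) (hS x)
        (hs y).2.2.2 (hs x).2.2.1 hΘ.2.1 fun t => POQx.itw_symm hΘ ((hZ x).1 t) (h1 t))

end Pool.Agent.P.MP_c1aa6a_an.Mix
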