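import Pool.Agent.P.MP_c1aa6a_an.Mix.Iface

/-! Laplace functional, mixing, Borel dependence. -/

set_option autoImplicit false
open MeasureTheory Set Filter Topology
open scoped ENNReal NNReal symmDiff

namespace Pool.Agent.P.MP_c1aa6a_an.Mix

namespace LFx

theorem th_flat {k : ℕ} (L : Fin k → List CO) (ν : Cf) :
    th (List.ofFn L).flatten ν = ∏ i, th (L i) ν := by
  induction k with
  | zero => simp [th, ex]
  | succ k ih =>
    rw [List.ofFn_succ, List.flatten_cons, Fin.prod_univ_succ, ← ih]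
    simp only [th, ex, List.map_append, List.prod_append]

theorem gh_flat {k : ℕ} (L : Fin k → List CO) (q : Q) :
    gh (List.ofFn L).flatten q = ∏ i, gh (L i) q := by
  induction k with
  | zero => simp [gh, gR]
  | succ k ih =>
    rw [List.ofFn_succ, List.flatten_cons, Fin.prod_univ_succ, ← ih]
    simp only [gh, gR, List.map_append, List.prod_append]

theorem measurable_gh (l : List CO) (h : ∀ E : CO, MeasurableSet E.1) : Measurable (gh l) := by
  induction l with
  | nil => exact measurable_const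
  | cons E l ih => exact (Measurable.ite (h E) measurable_const measurable_const).mul ih

theorem prod_bound {k : ℕ} {x : Fin k → ℝ} (h : ∀ i, 0 ≤ x i ∧ x i ≤ 1) :
    0 ≤ ∏ i, x i ∧ ∏ i, x i ≤ 1 :=
  ⟨Finset.prod_nonneg fun i _ => (h i).1, Finset.prod_le_one (fun i _ => (h i).1) fun i _ => (h i).2⟩

end LFx

open LFx in
theorem p_LF : S_LF := by
  intro ξ _ P _ I hI k S s l hS
  obtain ⟨h1, h2, -⟩ := approx_ok ξ
  have hA : ∀ i (E : CO), MeasurableSet (s i ⁻¹' E.1) := fun i E => (hS i).1.measurable (h1 E).1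
  have hmA : ∀ i (E : CO), mQ ξ (s i ⁻¹' E.1) = mQ ξ E.1 := fun i E =>
    (hS i).1.measure_preimage (h1 E).1.nullMeasurableSet
  choose N En hN t1 t2 t3 using fun i (E : CO) =>
    Lift.natLim hI h1 h2 (hA i E) ((hmA i E).trans_ne (h1 E).2)
  have t4 : ∀ i (E : CO), ∀ᵐ ν ∂P, N i E ν = S i ν E := fun i E => by
    filter_upwards [t3 i E, Lift.lift_count hI (hS i) E (h1 E).1 (h1 E).2
      (indicatorConstLp 2 (hA i E) ((hmA i E).trans_ne (h1 E).2) (1 : ℝ))
      indicatorConstLp_coeFn] with ν c1 c2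
    rw [c1, hmA] at c2
    exact_mod_cast (sub_left_injective c2).symm
  set L : ℕ → List CO := fun n => (List.ofFn fun i => (l i).map (En i · n)).flatten with hL
  have a1 : Tendsto (fun n => ∫ ν, th (L n) ν ∂P) atTop (𝓝 (∫ ν, ∏ i, th (l i) (S i ν) ∂P)) := by
    refine tendsto_integral_of_dominated_convergence (fun _ => 1)
      (fun n => (measurable_th _).aestronglyMeasurable) (integrable_const _)
      (fun n => Eventually.of_forall fun ν => ?_) ?_
    · rw [Real.norm_of_nonneg (th_bound _ _).1]; exact (th_bound _ _).2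
    · filter_upwards [ae_all_iff.2 fun i => ae_all_iff.2 (t2 i),
        ae_all_iff.2 fun i => ae_all_iff.2 (t4 i)] with ν hν hν'
      refine tendsto_const_nhds.congr' ?_
      filter_upwards [eventually_all.2 fun i =>
        (eventually_all_finite (List.finite_toSet (l i))).2 fun E _ => hν i E] with n hn
      rw [hL, th_flat]
      exact Finset.prod_congr rfl fun i _ =>
        (Lift.ex_map (l i) _ fun E hE => (hn i E hE).trans (hν' i E)).symm
  have hf : Measurable fun q => ∏ i, gh (l i) (s i q) - 1 :=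
    (Finset.measurable_prod _ fun i _ =>
      (measurable_gh _ fun E => (h1 E).1).comp (hS i).1.measurable).sub_const _
  have hn : ∀ n, Integrable (fun q => gh (L n) q - 1) (mQ ξ) := fun n => hI.intg _
  have a0 : Tendsto (fun n => ∫⁻ q, ‖(gh (L n) q - 1) - (∏ i, gh (l i) (s i q) - 1)‖ₑ ∂mQ ξ)
      atTop (𝓝 0) := by
    have b0 := tendsto_finsetSum Finset.univ fun i _ =>
      Lift.tendsto_bad (l i) (fun n E => (En i E n).1 ∆ (s i ⁻¹' E.1)) (t1 i)
    rw [Finset.sum_const_zero] at b0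
    refine tendsto_of_tendsto_of_tendsto_of_le_of_le tendsto_const_nhds b0 (fun _ => zero_le)
      fun n => le_trans (le_trans (lintegral_mono fun q => ?_) (lintegral_indicator_one_le _))
        (measure_iUnion_fintype_le _ _)
    by_cases hq : q ∈ ⋃ i, {q | ∃ E ∈ l i, q ∈ (En i E n).1 ∆ (s i ⁻¹' E.1)}
    · rw [indicator_of_mem hq, Pi.one_apply, ← ofReal_norm, ENNReal.ofReal_le_one,
        Real.norm_eq_abs, abs_le]
      have b1 := gh_bound (L n) q
      have b2 := prod_bound fun i => gh_bound (l i) (s i q)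
      constructor <;> linarith [b1.1, b1.2, b2.1, b2.2]
    · have b1 : gh (L n) q = ∏ i, gh (l i) (s i q) := by
        rw [hL, gh_flat]
        refine Finset.prod_congr rfl fun i _ => Lift.gR_map (l i) _ fun E hE => ?_
        have : q ∉ (En i E n).1 ∆ (s i ⁻¹' E.1) := fun h => hq (mem_iUnion.2 ⟨i, E, hE, h⟩)
        rw [mem_symmDiff] at this
        simp only [mem_preimage] at this
        tauto
      simp [b1]
  have a3 : Integrable (fun q => ∏ i, gh (l i) (s i q) - 1) (mQ ξ) := by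
    obtain ⟨n, h⟩ := (a0.eventually (gt_mem_nhds ENNReal.zero_lt_top)).exists
    have b1 : Integrable (fun q => (gh (L n) q - 1) - (∏ i, gh (l i) (s i q) - 1)) (mQ ξ) :=
      ⟨(hn n).1.sub hf.aestronglyMeasurable, h⟩
    refine ((hn n).sub b1).congr (Eventually.of_forall fun q => ?_)
    simp only [Pi.sub_apply]
    ring
  have a2 := tendsto_integral_of_L1 _ a3.1 (Eventually.of_forall hn) a0
  refine ⟨a3, tendsto_nhds_unique a1 (((Real.continuous_exp.tendsto _).comp a2).congr fun n => ?_)⟩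
  exact (hI.exex _).symm

namespace MIXx

theorem bonf0 {ι : Type} (s : Finset ι) (a : ι → ℝ) (h : ∀ i, 0 ≤ a i ∧ a i ≤ 1) :
    (0 ≤ 1 - ∏ i ∈ s, a i ∧ 1 - ∏ i ∈ s, a i ≤ ∑ i ∈ s, (1 - a i)) ∧
      |∏ i ∈ s, a i - 1 + ∑ i ∈ s, (1 - a i)| ≤
        (∑ i ∈ s, (1 - a i)) ^ 2 - ∑ i ∈ s, (1 - a i) ^ 2 := by
  classical
  induction s using Finset.induction_on with
  | empty => simp
  | insert x s hx ih =>
    obtain ⟨⟨h1, h2⟩, h3⟩ := ih
    obtain ⟨h4, h5⟩ := h x
    have h6 : 0 ≤ ∏ i ∈ s, a i := Finset.prod_nonneg fun i _ => (h i).1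
    rw [abs_le] at h3
    simp only [Finset.prod_insert hx, Finset.sum_insert hx, abs_le]
    have h7 := mul_nonneg (sub_nonneg.2 h5) h1
    have h8 := mul_le_mul_of_nonneg_left h2 (sub_nonneg.2 h5)
    have h9 := mul_nonneg (sub_nonneg.2 h5) h6
    have h10 := mul_nonneg (sub_nonneg.2 h5) (h1.trans h2)
    refine ⟨⟨by nlinarith, by nlinarith⟩, by nlinarith, by nlinarith⟩

theorem bonf {k : ℕ} (a : Fin k → ℝ) (h : ∀ i, 0 ≤ a i ∧ a i ≤ 1) :
    |∏ i, a i - 1 - ∑ i, (a i - 1)| ≤ ∑ i, ∑ j ∈ Finset.univ.erase i, (1 - a i) * (1 - a j) := by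
  have h1 := (bonf0 Finset.univ a h).2
  have e1 : ∑ i, (a i - 1) = -∑ i, (1 - a i) := by
    rw [← Finset.sum_neg_distrib]; simp
  have e2 : ∑ i, ∑ j ∈ Finset.univ.erase i, (1 - a i) * (1 - a j) =
      (∑ i, (1 - a i)) ^ 2 - ∑ i, (1 - a i) ^ 2 := by
    rw [sq, Finset.sum_mul_sum, ← Finset.sum_sub_distrib]
    refine Finset.sum_congr rfl fun i _ => ?_
    rw [← Finset.add_sum_erase _ _ (Finset.mem_univ i)]
    ring
  rw [e1, e2, sub_neg_eq_add]
  exact h1

theorem cor_eq {Y : Type} [MeasurableSpace Y] {m : Measure Y} {s : ℤ → Y → Y} (hs : ZA m s)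
    {K : Set Y} (hK : MeasurableSet K) (a b : ℤ) :
    m (s a ⁻¹' K ∩ s b ⁻¹' K) = m (K ∩ s (a - b) ⁻¹' K) := by
  rw [← (hs.1 b).measure_preimage (hK.inter ((hs.1 _).measurable hK)).nullMeasurableSet]
  apply measure_congr
  have := hs.2.2 (a - b) b
  rw [sub_add_cancel] at this
  filter_upwards [this] with y hy
  change (s a y ∈ K ∧ s b y ∈ K) = (s b y ∈ K ∧ s (a - b) (s b y) ∈ K)
  rw [hy, and_comm]

end MIXx

open MIXx in
theorem p_MIX (hLF : S_LF) : S_MIX := by
  intro ξ _ P _ I hI K s S hK hs hS hZ k l n hn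
  choose N0 hN0 using fun i => hK.list (l i)
  set N := Finset.univ.sup N0
  have hN : ∀ i, ∀ E ∈ l i, E.1 ⊆ K N := fun i E hE =>
    (hN0 i E hE).trans (hK.2.1 (Finset.le_sup (f := N0) (Finset.mem_univ i)))
  obtain ⟨mK, fK⟩ := hK.1 N
  have ig : ∀ i, Integrable (fun q => gh (l i) q - 1) (mQ ξ) := fun i => hI.intg _
  have ig' : ∀ i t, Integrable (fun q => gh (l i) (s t q) - 1) (mQ ξ) := fun i t =>
    (hs.1 t).integrable_comp_of_integrable (ig i)
  have eg : ∀ i t, ∫ q, (gh (l i) (s t q) - 1) ∂mQ ξ = ∫ q, (gh (l i) q - 1) ∂mQ ξ := fun i t => by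
    have := integral_map (μ := mQ ξ) (hs.1 t).measurable.aemeasurable
      (f := fun q => gh (l i) q - 1) (by rw [(hs.1 t).map_eq]; exact (ig i).aestronglyMeasurable)
    rw [(hs.1 t).map_eq] at this
    exact this.symm
  have e1 : ∏ i, ∫ ν, th (l i) ν ∂P = Real.exp (∑ i, ∫ q, (gh (l i) q - 1) ∂mQ ξ) := by
    rw [Real.exp_sum]
    exact Finset.prod_congr rfl fun i _ => hI.exex _
  have L := fun r => hLF ξ P I hI k (fun i => S (n r i)) (fun i => s (n r i)) l fun i => hS _
  simp only [fun r => (L r).2, e1]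
  refine (Real.continuous_exp.tendsto _).comp ?_
  have mi : ∀ a b, MeasurableSet (s a ⁻¹' K N ∩ s b ⁻¹' K N) := fun a b =>
    ((hs.1 a).measurable mK).inter ((hs.1 b).measurable mK)
  have ii : ∀ a b, Integrable ((s a ⁻¹' K N ∩ s b ⁻¹' K N).indicator fun _ => (1 : ℝ)) (mQ ξ) :=
    fun a b => (integrable_indicator_iff (mi a b)).2 (integrableOn_const (by
      rw [cor_eq hs mK]
      exact measure_ne_top_of_subset inter_subset_left fK))
  have bd : ∀ r, ‖(∫ q, (∏ i, gh (l i) (s (n r i) q) - 1) ∂mQ ξ) -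
      ∑ i, ∫ q, (gh (l i) q - 1) ∂mQ ξ‖ ≤
        ∑ i, ∑ j ∈ Finset.univ.erase i, cor (mQ ξ) (K N) s (n r i - n r j) := by
    intro r
    have e2 : ∑ i, ∑ j ∈ Finset.univ.erase i, cor (mQ ξ) (K N) s (n r i - n r j) =
        ∫ q, ∑ i, ∑ j ∈ Finset.univ.erase i,
          (s (n r i) ⁻¹' K N ∩ s (n r j) ⁻¹' K N).indicator (fun _ => (1 : ℝ)) q ∂mQ ξ := by
      rw [integral_finsetSum _ fun i _ => integrable_finsetSum _ fun j _ => ii _ _]
      refine Finset.sum_congr rfl fun i _ => ?_
      rw [integral_finsetSum _ fun j _ => ii _ _]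
      refine Finset.sum_congr rfl fun j _ => ?_
      rw [integral_indicator_const _ (mi _ _), smul_eq_mul, mul_one, measureReal_def,
        cor_eq hs mK, cor, measureReal_def]
    simp only [← fun i => eg i (n r i)]
    rw [← integral_finsetSum _ fun i _ => ig' i _,
      ← integral_sub (L r).1 (integrable_finsetSum _ fun i _ => ig' i _), e2]
    refine norm_integral_le_of_norm_le
      (integrable_finsetSum _ fun i _ => integrable_finsetSum _ fun j _ => ii _ _)
      (Eventually.of_forall fun q => ?_)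
    refine (bonf _ fun i => gh_bound _ _).trans
      (Finset.sum_le_sum fun i _ => Finset.sum_le_sum fun j _ => ?_)
    by_cases hq : q ∈ s (n r i) ⁻¹' K N ∩ s (n r j) ⁻¹' K N
    · rw [indicator_of_mem hq]
      have h1 := gh_bound (l i) (s (n r i) q)
      have h2 := gh_bound (l j) (s (n r j) q)
      exact mul_le_one₀ (by linarith) (by linarith) (by linarith)
    · rw [indicator_of_notMem hq]
      rcases not_and_or.1 hq with h | h
      · rw [gh_eq_one (hN i) h]; simp
      · rw [gh_eq_one (hN j) h]; simp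
  rw [tendsto_iff_norm_sub_tendsto_zero]
  refine squeeze_zero (fun r => norm_nonneg _) bd ?_
  have z : (0 : ℝ) = ∑ i : Fin k, ∑ _j ∈ Finset.univ.erase i, (0 : ℝ) := by simp
  rw [z]
  refine tendsto_finsetSum _ fun i _ => tendsto_finsetSum _ fun j hj => ?_
  rw [Metric.tendsto_nhds]
  intro ε hε
  obtain ⟨M, hM⟩ := hZ N (ε / 2) (half_pos hε)
  filter_upwards [(hn i j (Finset.ne_of_mem_erase hj).symm).eventually_ge_atTop M] with r hr
  rw [dist_zero_right, Real.norm_of_nonneg (cor_nonneg _ _ _ _)]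
  linarith [hM _ hr]

namespace MIX2x

/-- Measurable with values in the unit interval. -/
def Gd (F : Cf → ℝ) : Prop := Measurable F ∧ ∀ ν, 0 ≤ F ν ∧ F ν ≤ 1

theorem Gd.mem {F : Cf → ℝ} (h : Gd F) (P : Measure Cf) [IsProbabilityMeasure P] :
    MemLp F 2 P :=
  MemLp.of_bound h.1.aestronglyMeasurable 1 (Eventually.of_forall fun ν => by
    rw [Real.norm_of_nonneg (h.2 ν).1]; exact (h.2 ν).2)

theorem Gd.inner {F : Cf → ℝ} (h : Gd F) (P : Measure Cf) [IsProbabilityMeasure P] (Z : L2 P) :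
    inner ℝ ((h.mem P).toLp F : L2 P) Z = ∫ ν, Z ν * F ν ∂P := by
  rw [L2.inner_def]
  refine integral_congr_ae ?_
  filter_upwards [(h.mem P).coeFn_toLp] with ν hν
  rw [hν, RCLike.inner_apply, conj_trivial]

theorem Gd.norm {F : Cf → ℝ} (h : Gd F) (P : Measure Cf) [IsProbabilityMeasure P] :
    ‖((h.mem P).toLp F : L2 P)‖ ≤ 1 := by
  have h1 : ∀ᵐ ν ∂P, ‖((h.mem P).toLp F : L2 P) ν‖ ≤ 1 := by
    filter_upwards [(h.mem P).coeFn_toLp] with ν hν
    rw [hν, Real.norm_of_nonneg (h.2 ν).1]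
    exact (h.2 ν).2
  have h2 := Lp.norm_le_of_ae_bound zero_le_one h1
  simpa [measureUnivNNReal] using h2

theorem step (P : Measure Cf) [IsProbabilityMeasure P] (T : ℕ → Cf → Cf)
    (hT : ∀ r, MeasurePreserving (T r) P P) (w : ℕ → Cf → ℝ) (hw : ∀ r, Gd (w r)) (c : ℝ)
    (hl : ∀ l : List CO, Tendsto (fun r => ∫ ν, th l (T r ν) * w r ν ∂P) atTop
      (𝓝 ((∫ ν, th l ν ∂P) * c)))
    (F : Cf → ℝ) (hF : Gd F) :
    Tendsto (fun r => ∫ ν, F (T r ν) * w r ν ∂P) atTop (𝓝 ((∫ ν, F ν ∂P) * c)) := by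
  have g1 : Gd fun _ => (1 : ℝ) := ⟨measurable_const, fun _ => ⟨zero_le_one, le_rfl⟩⟩
  let φ : ℕ → L2 P →L[ℝ] ℝ := fun r => (innerSL ℝ (((hw r).mem P).toLp (w r) : L2 P)).comp
    (Lp.compMeasurePreservingₗᵢ ℝ (T r) (hT r)).toContinuousLinearMap
  let ψ : L2 P →L[ℝ] ℝ := c • innerSL ℝ ((g1.mem P).toLp _ : L2 P)
  have hφ : ∀ r (Z : L2 P) (G : Cf → ℝ), Z =ᵐ[P] G → φ r Z = ∫ ν, G (T r ν) * w r ν ∂P := by
    intro r Z G hG
    have := (hw r).inner P (Lp.compMeasurePreservingₗᵢ ℝ (T r) (hT r) Z)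
    refine this.trans (integral_congr_ae ?_)
    filter_upwards [Lp.coeFn_compMeasurePreserving Z (hT r),
      (hT r).quasiMeasurePreserving.ae hG] with ν h1 h2
    rw [← h2]
    exact congrArg (· * w r ν) h1
  have hψ : ∀ (Z : L2 P) (G : Cf → ℝ), Z =ᵐ[P] G → ψ Z = (∫ ν, G ν ∂P) * c := by
    intro Z G hG
    have := g1.inner P Z
    have e : ψ Z = c * inner ℝ ((g1.mem P).toLp _ : L2 P) Z := rfl
    rw [e, this, mul_comm]
    congr 1
    refine integral_congr_ae ?_
    filter_upwards [hG] with ν hν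
    rw [hν, mul_one]
  have hlip : ∀ r, LipschitzWith 1 (φ r) := by
    intro r
    refine ContinuousLinearMap.lipschitzWith_of_opNorm_le ?_
    refine ContinuousLinearMap.opNorm_le_bound _ (by simp) fun Z => ?_
    have h1 := norm_inner_le_norm (𝕜 := ℝ) (((hw r).mem P).toLp (w r) : L2 P)
      (Lp.compMeasurePreservingₗᵢ ℝ (T r) (hT r) Z)
    rw [LinearIsometry.norm_map] at h1
    exact h1.trans (mul_le_mul_of_nonneg_right ((hw r).norm P) (norm_nonneg _))
  have hcl : IsClosed {Z : L2 P | Tendsto (fun r => φ r Z) atTop (𝓝 (ψ Z))} :=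
    (LipschitzWith.uniformEquicontinuous (fun r => ⇑(φ r)) 1
      hlip).equicontinuous.isClosed_setOfPred_tendsto ψ.continuous
  have key := tot P (fun Z => Tendsto (fun r => φ r Z) atTop (𝓝 (ψ Z))) hcl
    (by simp only [map_zero]; exact tendsto_const_nhds)
    (fun Z Z' h h' => by simp only [map_add]; exact h.add h')
    (fun a Z h => by simp only [map_smul]; exact h.const_smul a)
    (fun l Z h => by
      simp only [hφ _ Z _ h, hψ Z _ h]
      exact hl l)
    ((hF.mem P).toLp F)
  simpa only [hφ _ _ _ (hF.mem P).coeFn_toLp, hψ _ _ (hF.mem P).coeFn_toLp] using key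

theorem all (P : Measure Cf) [IsProbabilityMeasure P] (k : ℕ) (S : ℕ → Fin k → Cf → Cf)
    (hS : ∀ r i, MeasurePreserving (S r i) P P)
    (hl : ∀ l : Fin k → List CO,
      Tendsto (fun r => ∫ ν, ∏ i, th (l i) (S r i ν) ∂P) atTop (𝓝 (∏ i, ∫ ν, th (l i) ν ∂P)))
    (s : Finset (Fin k)) : ∀ F : Fin k → Cf → ℝ, (∀ i, Gd (F i)) →
      (∀ i, i ∉ s → ∃ l, F i = th l) →
      Tendsto (fun r => ∫ ν, ∏ i, F i (S r i ν) ∂P) atTop (𝓝 (∏ i, ∫ ν, F i ν ∂P)) := by
  classical
  induction s using Finset.induction_on with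
  | empty =>
    intro F _ h
    choose l e using fun i => h i (Finset.notMem_empty i)
    simpa only [e] using hl l
  | insert j s hj ih =>
    intro F hF h
    have e1 : ∀ (G : Fin k → Cf → ℝ) r ν, ∏ i, G i (S r i ν) =
        G j (S r j ν) * ∏ i ∈ Finset.univ.erase j, G i (S r i ν) := fun G r ν =>
      (Finset.mul_prod_erase _ (fun i => G i (S r i ν)) (Finset.mem_univ j)).symm
    have e2 : ∀ G : Fin k → Cf → ℝ, ∏ i, ∫ ν, G i ν ∂P =
        (∫ ν, G j ν ∂P) * ∏ i ∈ Finset.univ.erase j, ∫ ν, G i ν ∂P := fun G =>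
      (Finset.mul_prod_erase _ (fun i => ∫ ν, G i ν ∂P) (Finset.mem_univ j)).symm
    simp only [e1 F, e2 F]
    refine step P (fun r => S r j) (fun r => hS r j)
      (fun r ν => ∏ i ∈ Finset.univ.erase j, F i (S r i ν)) (fun r => ⟨?_, fun ν => ⟨?_, ?_⟩⟩) _
      (fun l => ?_) (F j) (hF j)
    · exact Finset.measurable_prod _ fun i _ => (hF i).1.comp (hS r i).measurable
    · exact Finset.prod_nonneg fun i _ => ((hF i).2 _).1
    · exact Finset.prod_le_one (fun i _ => ((hF i).2 _).1) fun i _ => ((hF i).2 _).2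
    · have hu : ∀ i ∈ Finset.univ.erase j, Function.update F j (th l) i = F i := fun i hi =>
        Function.update_of_ne (Finset.ne_of_mem_erase hi) _ _
      have := ih (Function.update F j (th l)) (fun i => by
        by_cases e : i = j
        · rw [e, Function.update_self]
          exact ⟨measurable_th l, th_bound l⟩
        · rw [Function.update_of_ne e]
          exact hF i) (fun i hi => by
        by_cases e : i = j
        · rw [e, Function.update_self]
          exact ⟨l, rfl⟩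
        · rw [Function.update_of_ne e]
          exact h i (by simp [e, hi]))
      simp only [e1 (Function.update F j (th l)), e2 (Function.update F j (th l)),
        Function.update_self] at this
      have e3 : ∀ r ν, ∏ i ∈ Finset.univ.erase j, Function.update F j (th l) i (S r i ν) =
          ∏ i ∈ Finset.univ.erase j, F i (S r i ν) := fun r ν =>
        Finset.prod_congr rfl fun i hi => by rw [hu i hi]
      have e4 : ∏ i ∈ Finset.univ.erase j, ∫ ν, Function.update F j (th l) i ν ∂P =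
          ∏ i ∈ Finset.univ.erase j, ∫ ν, F i ν ∂P :=
        Finset.prod_congr rfl fun i hi => by rw [hu i hi]
      simpa only [e3, e4] using this

end MIX2x

theorem p_MIX2 : S_MIX2 := by
  intro P _ k S hS hl A hA
  have key := MIX2x.all P k S hS hl Finset.univ (fun i => (A i).indicator fun _ => (1 : ℝ))
    (fun i => ⟨measurable_const.indicator (hA i), fun ν => by
      by_cases h : ν ∈ A i <;> simp [h]⟩) (fun i hi => absurd (Finset.mem_univ i) hi)
  have hm : ∀ r, MeasurableSet (⋂ i, S r i ⁻¹' A i) := fun r =>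
    MeasurableSet.iInter fun i => (hS r i).measurable (hA i)
  have e1 : ∀ r, ∫ ν, ∏ i, (A i).indicator (fun _ => (1 : ℝ)) (S r i ν) ∂P =
      (P (⋂ i, S r i ⁻¹' A i)).toReal := by
    intro r
    have : (fun ν => ∏ i, (A i).indicator (fun _ => (1 : ℝ)) (S r i ν)) =
        (⋂ i, S r i ⁻¹' A i).indicator fun _ => (1 : ℝ) := by
      funext ν
      by_cases h : ν ∈ ⋂ i, S r i ⁻¹' A i
      · rw [indicator_of_mem h]
        exact Finset.prod_eq_one fun i _ =>
          indicator_of_mem (show S r i ν ∈ A i from mem_iInter.1 h i) _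
      · rw [indicator_of_notMem h]
        obtain ⟨i, hi⟩ := not_forall.1 (mt mem_iInter.2 h)
        exact Finset.prod_eq_zero (Finset.mem_univ i)
          (indicator_of_notMem (show S r i ν ∉ A i from hi) _)
    rw [this, integral_indicator_const _ (hm r), smul_eq_mul, mul_one, measureReal_def]
  have e2 : ∏ i, ∫ ν, (A i).indicator (fun _ => (1 : ℝ)) ν ∂P = (∏ i, P (A i)).toReal := by
    rw [ENNReal.toReal_prod]
    refine Finset.prod_congr rfl fun i _ => ?_
    rw [integral_indicator_const _ (hA i), smul_eq_mul, mul_one, measureReal_def]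
  simp only [e1, e2] at key
  exact (ENNReal.tendsto_toReal_iff (fun r => measure_ne_top _ _)
    (ENNReal.prod_ne_top fun i _ => measure_ne_top _ _)).1 key

namespace MEASx

theorem mtot {P : Measure Cf} [IsProbabilityMeasure P] {X : Type} [MeasurableSpace X]
    (T : X → L2 P →L[ℝ] ℝ) (h : ∀ l (F : L2 P), F =ᵐ[P] th l → Measurable fun x => T x F)
    (F : L2 P) : Measurable fun x => T x F := by
  refine tot P (fun F => Measurable fun x => T x F) (IsSeqClosed.isClosed fun u G hu hG => ?_)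
    (by simp) (fun F G h1 h2 => ?_) (fun c F h1 => ?_) h F
  · exact measurable_of_tendsto_metrizable hu (tendsto_pi_nhds.2 fun x =>
      ((T x).continuous.tendsto G).comp hG)
  · simp only [map_add]
    exact h1.add h2
  · simp only [map_smul]
    exact h1.const_smul c

theorem inn {P : Measure Cf} {S : Cf → Cf} (hS : MeasurePreserving S P P) {F G : L2 P}
    {f g : Cf → ℝ} (hf : F =ᵐ[P] f) (hg : G =ᵐ[P] g) :
    inner ℝ G (Lp.compMeasurePreservingₗᵢ ℝ S hS F) = ∫ ν, f (S ν) * g ν ∂P := by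
  rw [L2.inner_def]
  refine integral_congr_ae ?_
  filter_upwards [hg, Lp.coeFn_compMeasurePreserving F hS, hS.quasiMeasurePreserving.ae hf]
    with ν e1 e2 e3
  rw [RCLike.inner_apply, conj_trivial, e1, ← e3]
  exact congrArg (· * g ν) e2

theorem atom {Y : Type} [MeasurableSpace Y] [MeasurableSingletonClass Y] {P : Measure Y}
    [IsProbabilityMeasure P] {S : ℤ → Y → Y} (h : ZA P S) (hm : MixZ P S) (ν : Y)
    (h0 : P {ν} ≠ 0) : P {ν} = 1 := by
  have h1 := hm 2 (fun _ => {ν}) (fun _ => measurableSet_singleton ν) (fun r => ![r, 0]) (by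
    have a : Tendsto (fun r : ℕ => |(r : ℤ)|) atTop atTop := by
      simpa only [Nat.abs_cast] using tendsto_natCast_atTop_atTop
    intro i j hij
    fin_cases i <;> fin_cases j <;> simp_all)
  have h2 : ∀ r : ℕ, P (⋂ i, S (![(r : ℤ), 0] i) ⁻¹' {ν}) ∈ ({0, P {ν}} : Set ℝ≥0∞) := fun r => by
    have e : P (⋂ i, S (![(r : ℤ), 0] i) ⁻¹' {ν}) = P (S r ⁻¹' {ν} ∩ {ν}) := by
      refine measure_congr ?_
      filter_upwards [h.2.1] with y hy
      apply propext
      change y ∈ ⋂ i, S (![(r : ℤ), 0] i) ⁻¹' {ν} ↔ y ∈ S r ⁻¹' {ν} ∩ {ν}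
      simp [Fin.forall_fin_two, hy]
    rw [e]
    by_cases hr : ν ∈ S r ⁻¹' {ν}
    · rw [inter_eq_self_of_subset_right (singleton_subset_iff.2 hr)]
      exact Or.inr rfl
    · rw [inter_singleton_eq_empty.2 hr, measure_empty]
      exact Or.inl rfl
  have h3 := (toFinite _).isClosed.mem_of_tendsto h1 (Eventually.of_forall h2)
  rw [Fin.prod_univ_two] at h3
  rcases h3 with h3 | h3
  · exact absurd h3 (mul_ne_zero h0 h0)
  · exact (ENNReal.mul_eq_left h0 (measure_ne_top _ _)).1 h3

end MEASx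

open MEASx in
theorem p_MEAS (hLF : S_LF) : S_MEAS := by
  intro ξ _ P _ I hI
  refine ⟨fun X _ s S hs hS A B hA hB => ?_, fun S h hm ν => ?_⟩
  · let U := fun x => (Lp.compMeasurePreservingₗᵢ (E := ℝ) (p := 2) ℝ (S x)
      (hS x).2.1).toContinuousLinearMap
    have hg : ∀ l, Measurable (gh l) := fun l =>
      Chaos.gR_meas (fun E => ((approx_ok ξ).1 E).1) _
    have key : ∀ F G : L2 P, Measurable fun x => inner ℝ G (U x F) := fun F G => by
      refine mtot (fun x => (innerSL ℝ G).comp (U x)) (fun l F hF => ?_) F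
      have := mtot (fun x => innerSL ℝ (U x F)) (fun l' G hG => ?_) G
      · simpa only [innerSL_apply_apply, ContinuousLinearMap.comp_apply, real_inner_comm] using this
      have e : (fun x => innerSL ℝ (U x F) G) = fun x =>
          Real.exp (∫ q, (gh l (s x q) * gh l' q - 1) ∂mQ ξ) := funext fun x => by
        rw [innerSL_apply_apply, real_inner_comm, ← (lf2 hLF hI (hS x) l l').2]
        exact inn (hS x).2.1 hF hG
      rw [e]
      exact (StronglyMeasurable.integral_prod_right'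
        (f := fun p : X × Q => gh l (s p.1 p.2) * gh l' p.2 - 1) ((((hg l).comp hs).mul
          ((hg l').comp measurable_snd)).sub_const 1).stronglyMeasurable).measurable.exp
    have e : (fun x => P (S x ⁻¹' A ∩ B)) = fun x => ENNReal.ofReal (inner ℝ
        (indicatorConstLp 2 hB (measure_ne_top P B) (1 : ℝ))
        (U x (indicatorConstLp 2 hA (measure_ne_top P A) (1 : ℝ)))) := funext fun x => by
      rw [← ofReal_measureReal, ← integral_indicator_one (((hS x).2.1.measurable hA).inter hB)]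
      refine congrArg _ (Eq.trans (integral_congr_ae (.of_forall fun ν => ?_))
        (inn (hS x).2.1 indicatorConstLp_coeFn indicatorConstLp_coeFn).symm)
      by_cases h1 : S x ν ∈ A <;> by_cases h2 : ν ∈ B <;> simp [indicator, h1, h2]
    rw [e]
    exact (key _ _).ennreal_ofReal
  · by_contra h0
    have h1 := atom h hm ν h0
    let i : Idx := ⟨default, default, default, default, default, default⟩
    let E : CO := ⟨_, Approx.piece_compact i, Approx.piece_open i⟩
    have h2 := hI.exex [(E, 0)]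
    have h3 : ∀ᵐ y ∂P, y = ν := (mem_ae_iff_prob_eq_one (measurableSet_singleton ν)).2 h1
    have h4 : ∫ y, ex [(E, 0)] y ∂P = (0 : ℝ) ^ ν E := by
      rw [integral_congr_ae (g := fun _ => (0 : ℝ) ^ ν E) (h3.mono fun y hy => by simp [ex, hy])]
      simp
    have h5 : ∫ q, (gR [(E, 0)] q - 1) ∂mQ ξ = -1 := by
      have hE := ((approx_ok ξ).1 E).1
      rw [integral_congr_ae (g := E.1.indicator fun _ => (-1 : ℝ)) (.of_forall fun q => by
        by_cases hq : q ∈ E.1 <;> simp [gR, hq]), integral_indicator_const _ hE]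
      have : mQ ξ E.1 = 1 := by
        change mQ ξ ({i} ×ˢ univ) = 1
        rw [mQ, Measure.prod_prod]
        simp
      simp [measureReal_def, this]
    rw [h4, h5] at h2
    rcases Nat.eq_zero_or_pos (ν E) with h6 | h6
    · rw [h6, pow_zero, eq_comm, Real.exp_eq_one_iff] at h2
      norm_num at h2
    · rw [zero_pow h6.ne'] at h2
      exact (Real.exp_pos _).ne h2

end Pool.Agent.P.MP_c1aa6a_an.Mix
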