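import Pool.Agent.P.MP_c1aa6a_an.Mix.Iface

/-! The first chaos is canonical; point realisation. -/

set_option autoImplicit false
open MeasureTheory Set Filter Topology
open scoped ENNReal NNReal symmDiff

namespace Pool.Agent.P.MP_c1aa6a_an.Mix

namespace HCx

open scoped RealInnerProductSpace

theorem inner_eq {Y : Type} [MeasurableSpace Y] {μ : Measure Y} (F G : L2 μ) {f g : Y → ℝ}
    (hf : F =ᵐ[μ] f) (hg : G =ᵐ[μ] g) : ⟪F, G⟫ = ∫ y, f y * g y ∂μ := by
  rw [L2.inner_def]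
  refine integral_congr_ae ?_
  filter_upwards [hf, hg] with y h1 h2
  rw [h1, h2, RCLike.inner_apply, conj_trivial, mul_comm]

theorem exp_bound {x B : ℝ} (h : |x| ≤ B) : |Real.exp x - 1 - x| ≤ Real.exp B * x ^ 2 := by
  have h1 := Complex.norm_exp_sub_sum_le_norm_mul_exp (x : ℂ) 2
  have h2 : Complex.exp x - ∑ m ∈ Finset.range 2, (x : ℂ) ^ m / (m.factorial : ℂ) =
      ((Real.exp x - 1 - x : ℝ) : ℂ) := by
    simp [Finset.sum_range_succ]
    ring
  rw [h2, Complex.norm_real, Complex.norm_real, Real.norm_eq_abs, Real.norm_eq_abs, sq_abs,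
    mul_comm] at h1
  exact h1.trans (mul_le_mul_of_nonneg_right (Real.exp_le_exp.2 h) (sq_nonneg x))

end HCx

open HCx in
open scoped RealInnerProductSpace in
theorem p_HC (hLF : S_LF) : S_HC := by
  intro ξ _ P _ I hI s S hs hS l K hK hKf hl
  have hZ := za_lift hI hs hS
  set L := l.map fun E => (E, (1 / 2 : ℝ)) with hL
  set G : L2 (mQ ξ) := (hI.memg L).toLp _ with hG
  have hGc : G =ᵐ[mQ ξ] fun q => gh l q - 1 := (hI.memg L).coeFn_toLp
  set e : L2 P := (hI.mem L).toLp _ with he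
  have hec : e =ᵐ[P] th l := (hI.mem L).coeFn_toLp
  set o : L2 P := (memLp_const (1 : ℝ)).toLp _ with ho
  have hoc : o =ᵐ[P] fun _ => (1 : ℝ) := (memLp_const (1 : ℝ)).coeFn_toLp
  set c := Real.exp (∫ q, (gh l q - 1) ∂mQ ξ) with hc
  have io : ∀ F, ⟪I F, o⟫ = 0 := fun F => by
    rw [inner_eq _ _ EventuallyEq.rfl hoc]
    have := hI.form F []
    simpa only [Chaos.ex_nil, Chaos.gR_nil, sub_self, mul_zero, integral_zero] using this
  have ie : ∀ F, ⟪I F, e⟫ = c * ⟪F, G⟫ := fun F => by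
    rw [inner_eq _ _ EventuallyEq.rfl hec, inner_eq _ _ EventuallyEq.rfl hGc]
    exact hI.form F L
  have eo : ⟪e, o⟫ = c := by
    rw [inner_eq _ _ hec hoc]
    simp only [mul_one]
    exact hI.exex L
  have oo : ⟪o, o⟫ = 1 := by
    rw [inner_eq _ _ hoc hoc]
    simp
  set H : L2 P := e - c • o - c • I G with hH
  have iH : ∀ F, ⟪I F, H⟫ = 0 := fun F => by
    rw [hH, inner_sub_right, inner_sub_right, inner_smul_right, inner_smul_right, ie, io,
      I.inner_map_map]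
    ring
  have oH : ⟪o, H⟫ = 0 := by
    rw [hH, inner_sub_right, inner_sub_right, inner_smul_right, inner_smul_right, oo,
      real_inner_comm, eo, real_inner_comm, io]
    ring
  refine ⟨H, c • G, c, c ^ 2 * Real.exp ((mQ ξ).real K), by positivity, ?_, fun F => ?_,
    fun t => ?_⟩
  · rw [map_smul]
    filter_upwards [Lp.coeFn_sub (e - c • o) (c • I G), Lp.coeFn_sub e (c • o),
      Lp.coeFn_smul c o, hec, hoc] with ν a1 a2 a3 a4 a5
    rw [hH, a1, Pi.sub_apply, a2, Pi.sub_apply, a3, Pi.smul_apply, a4, a5, smul_eq_mul, mul_one]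
  · rw [← inner_eq _ _ EventuallyEq.rfl EventuallyEq.rfl, iH]
  · set U := Lp.compMeasurePreservingₗᵢ (p := 2) (E := ℝ) ℝ (S t) (hS t).2.1 with hU
    have hUc : ∀ Z : L2 P, U Z =ᵐ[P] fun ν => Z (S t ν) := fun Z =>
      Lp.coeFn_compMeasurePreserving Z (hS t).2.1
    have hV : ∀ (u : ℤ) (F : L2 (mQ ξ)), Lp.compMeasurePreserving (s u) (hs.1 u) F =ᵐ[mQ ξ]
        fun q => F (s u q) := fun u F => Lp.coeFn_compMeasurePreserving F (hs.1 u)
    have UI : ∀ F F' : L2 (mQ ξ), (F' =ᵐ[mQ ξ] fun q => F (s t q)) → U (I F) = I F' :=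
      fun F F' h => Lp.ext ((hUc _).trans ((hS t).2.2 F F' h))
    have Uo : U o = o := Lp.ext ((hUc _).trans ((Step2.aec (hS t).2.1 hoc).trans hoc.symm))
    set G₁ := Lp.compMeasurePreserving (s t) (hs.1 t) G with hG₁
    set G₂ := Lp.compMeasurePreserving (s (-t)) (hs.1 (-t)) G with hG₂
    have hG₁c : G₁ =ᵐ[mQ ξ] fun q => gh l (s t q) - 1 := (hV t G).trans (Step2.aec (hs.1 t) hGc)
    have hG₂c : G =ᵐ[mQ ξ] fun q => G₂ (s t q) := by
      filter_upwards [Step2.aec (hs.1 t) (hV (-t) G), hs.cancel t] with q a1 a2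
      rw [a1, a2, id]
    set x := ⟪G₁, G⟫ with hx
    have x2 : ⟪G₂, G⟫ = x := by
      have h1 := U.inner_map_map (I G₂) (I G)
      rw [UI G₂ G hG₂c, UI G G₁ (hV t G), I.inner_map_map, I.inner_map_map] at h1
      rw [← h1, real_inner_comm]
    have xi : x = ∫ q, (gh l (s t q) - 1) * (gh l q - 1) ∂mQ ξ := inner_eq _ _ hG₁c hGc
    have i0 : Integrable (fun q => gh l q - 1) (mQ ξ) := hI.intg L
    have i1 : Integrable (fun q => gh l (s t q) - 1) (mQ ξ) :=
      (hs.1 t).integrable_comp_of_integrable i0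
    have i2 : ∫ q, (gh l (s t q) - 1) ∂mQ ξ = ∫ q, (gh l q - 1) ∂mQ ξ := by
      have b1 := i0.1
      rw [← (hs.1 t).map_eq] at b1
      rw [← integral_map (hs.1 t).measurable.aemeasurable b1, (hs.1 t).map_eq]
    obtain ⟨i3, i4⟩ := lf2 hLF hI (hS t) l l
    have ee : ⟪U e, e⟫ = c ^ 2 * Real.exp x := by
      rw [inner_eq _ _ ((hUc e).trans (Step2.aec (hS t).2.1 hec)) hec, i4, xi]
      have : (fun q => (gh l (s t q) - 1) * (gh l q - 1)) = fun q =>
          (gh l (s t q) * gh l q - 1) - (gh l (s t q) - 1) - (gh l q - 1) := by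
        funext q; ring
      have i5 : Integrable (fun q => (gh l (s t q) * gh l q - 1) - (gh l (s t q) - 1)) (mQ ξ) :=
        i3.sub i1
      rw [this, integral_sub i5 i0, integral_sub i3 i1, i2, hc, sq, ← Real.exp_add,
        ← Real.exp_add]
      congr 1
      ring
    have e1 : ⟪U e, o⟫ = c := by rw [← eo, ← U.inner_map_map e o, Uo]
    have e2 : ⟪U e, I G⟫ = c * x := by
      rw [← UI G₂ G hG₂c, U.inner_map_map, real_inner_comm, ie, x2]
    have key : ⟪U H, H⟫ = c ^ 2 * (Real.exp x - 1 - x) := by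
      have : U H = U e - c • o - c • I G₁ := by
        rw [hH, map_sub, map_sub, map_smul, map_smul, Uo, UI G G₁ (hV t G)]
      rw [this, inner_sub_left, inner_sub_left, real_inner_smul_left, real_inner_smul_left, oH, iH,
        hH, inner_sub_right, inner_sub_right, inner_smul_right, inner_smul_right, ee, e1, e2]
      ring
    have hm : MeasurableSet (K ∩ s t ⁻¹' K) := hK.inter ((hs.1 t).measurable hK)
    have xb : |x| ≤ cor (mQ ξ) K s t := by
      rw [xi, cor, ← integral_indicator_one hm]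
      refine (abs_integral_le_integral_abs).trans (integral_mono_of_nonneg
        (Eventually.of_forall fun q => abs_nonneg _) ((integrable_indicator_iff hm).2
          (integrableOn_const (measure_ne_top_of_subset inter_subset_left hKf)))
        (Eventually.of_forall fun q => ?_))
      by_cases h1 : q ∈ K ∩ s t ⁻¹' K
      · have b1 := gh_bound l q
        have b2 := gh_bound l (s t q)
        simp only [indicator_of_mem h1, Pi.one_apply, abs_mul]
        exact mul_le_one₀ (abs_le.2 ⟨by linarith, by linarith⟩) (abs_nonneg _)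
          (abs_le.2 ⟨by linarith, by linarith⟩)
      · simp only [indicator_of_notMem h1]
        rcases not_and_or.1 h1 with h | h
        · simp [gh_eq_one hl h]
        · simp [gh_eq_one hl h]
    rw [← inner_eq _ _ (hUc H) EventuallyEq.rfl, key, abs_mul, abs_of_nonneg (sq_nonneg c),
      mul_assoc]
    refine mul_le_mul_of_nonneg_left ((exp_bound (xb.trans (cor_le hKf s t))).trans
      (mul_le_mul_of_nonneg_left ?_ (Real.exp_pos _).le)) (sq_nonneg c)
    rw [← sq_abs]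
    exact pow_le_pow_left₀ (abs_nonneg _) xb 2

namespace FCx

section
variable {Y Z : Type} [MeasurableSpace Y] [MeasurableSpace Z] {μ : Measure Y} {ν : Measure Z}

/-- Composition with a measure preserving map. -/
noncomputable def cp {f : Y → Z} (hf : MeasurePreserving f μ ν) : L2 ν →ₗᵢ[ℝ] L2 μ :=
  Lp.compMeasurePreservingₗᵢ ℝ f hf

theorem cp_ae {f : Y → Z} (hf : MeasurePreserving f μ ν) (F : L2 ν) :
    cp hf F =ᵐ[μ] fun y => F (f y) := Lp.coeFn_compMeasurePreserving F hf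

theorem inner_eq (F G : L2 μ) : inner ℝ F G = ∫ y, F y * G y ∂μ := by
  simp only [L2.inner_def, RCLike.inner_apply, conj_trivial, mul_comm]

theorem cp_itw {θ : Y → Z} {f : Y → Y} {g : Z → Z} (hθ : MeasurePreserving θ μ ν)
    (hf : MeasurePreserving f μ μ) (hg : MeasurePreserving g ν ν) (h : Itw μ θ f g) (G : L2 ν) :
    cp hf (cp hθ G) = cp hθ (cp hg G) := by
  refine Lp.ext ?_
  filter_upwards [cp_ae hf (cp hθ G), Step2.aec hf (cp_ae hθ G), cp_ae hθ (cp hg G),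
    Step2.aec hθ (cp_ae hg G), h] with y e1 e2 e3 e4 e5
  rw [e1, e2, e3, e4, e5]

variable {S : ℤ → Y → Y} (h : ZA μ S)

theorem cp_cp (t u : ℤ) (H : L2 μ) : cp (h.1 u) (cp (h.1 t) H) = cp (h.1 (t + u)) H := by
  refine Lp.ext ?_
  filter_upwards [cp_ae (h.1 u) (cp (h.1 t) H), Step2.aec (h.1 u) (cp_ae (h.1 t) H),
    cp_ae (h.1 (t + u)) H, h.2.2 t u] with y e1 e2 e3 e4
  rw [e1, e2, e3, e4]

theorem cp_adj (t : ℤ) (G H : L2 μ) :
    inner ℝ (cp (h.1 t) G) H = inner ℝ G (cp (h.1 (-t)) H) := by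
  have e : cp (h.1 t) (cp (h.1 (-t)) H) = H := by
    rw [cp_cp h]
    refine Lp.ext ?_
    filter_upwards [cp_ae (h.1 (-t + t)) H, h.2.1] with y e1 e2
    rw [e1, neg_add_cancel, e2, id]
  rw [← (cp (h.1 t)).inner_map_map G, e]

theorem orth (V : Avg) {G H : L2 μ} {C : ℝ} {x : ℤ → ℝ}
    (h1 : Tendsto (fun N => ∑ k ∈ V.D N, V.w N k • cp (h.1 (V.τ N k)) G) atTop (𝓝 G))
    (h2 : ∀ t, |∫ y, H (S t y) * H y ∂μ| ≤ C * x t)
    (h3 : Tendsto (fun N => ∑ k ∈ V.D N, ∑ k' ∈ V.D N,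
      |V.w N k| * |V.w N k'| * x (V.τ N k - V.τ N k')) atTop (𝓝 0)) : inner ℝ G H = 0 := by
  have h4 : Tendsto (fun N => ∑ k ∈ V.D N, V.w N k • cp (h.1 (-V.τ N k)) H) atTop (𝓝 0) := by
    have h5 := (h3.const_mul C).sqrt
    rw [mul_zero, Real.sqrt_zero] at h5
    refine squeeze_zero_norm (fun N => Real.le_sqrt_of_sq_le ?_) h5
    rw [← real_inner_self_eq_norm_sq, inner_sum, Finset.mul_sum]
    refine Finset.sum_le_sum fun k _ => ?_
    rw [sum_inner, Finset.mul_sum]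
    refine Finset.sum_le_sum fun k' _ => (le_abs_self _).trans ?_
    rw [real_inner_smul_left, real_inner_smul_right, ← cp_adj h, cp_cp h, neg_add_eq_sub, inner_eq,
      integral_congr_ae ((cp_ae _ H).fun_mul (EventuallyEq.refl _ H)), abs_mul, abs_mul]
    have := mul_le_mul_of_nonneg_left (h2 (V.τ N k - V.τ N k'))
      (mul_nonneg (abs_nonneg (V.w N k)) (abs_nonneg (V.w N k')))
    linarith
  have h5 := (tendsto_const_nhds (x := G)).inner (𝕜 := ℝ) h4
  rw [inner_zero_right] at h5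
  refine tendsto_nhds_unique (h1.inner tendsto_const_nhds) (h5.congr fun N => ?_)
  simp only [inner_sum, sum_inner, real_inner_smul_left, real_inner_smul_right, cp_adj h]

theorem avg_tendsto (V : Avg) {B : Set Y} (hB : MeasurableSet B) (hB' : μ B ≠ ∞)
    (h1 : Tendsto (fun N => ∫ ω, (∑ k ∈ V.D N, V.w N k *
      B.indicator (fun _ => (1 : ℝ)) (S (V.τ N k) ω) - B.indicator (fun _ => (1 : ℝ)) ω) ^ 2 ∂μ)
      atTop (𝓝 0)) :
    Tendsto (fun N => ∑ k ∈ V.D N, V.w N k • cp (h.1 (V.τ N k)) (indicatorConstLp 2 hB hB' 1))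
      atTop (𝓝 (indicatorConstLp 2 hB hB' 1)) := by
  rw [tendsto_iff_norm_sub_tendsto_zero, ← Real.sqrt_zero]
  refine h1.sqrt.congr fun N => ?_
  rw [Real.sqrt_eq_iff_eq_sq (integral_nonneg fun _ => sq_nonneg _) (norm_nonneg _),
    ← real_inner_self_eq_norm_sq, inner_eq]
  refine integral_congr_ae ?_
  have hF := indicatorConstLp_coeFn (p := 2) (hs := hB) (hμs := hB') (c := (1 : ℝ))
  generalize indicatorConstLp 2 hB hB' (1 : ℝ) = F at *
  filter_upwards [Lp.coeFn_sub (∑ k ∈ V.D N, V.w N k • cp (h.1 (V.τ N k)) F) F,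
    Lp.coeFn_finsetSum (V.D N) fun k => V.w N k • cp (h.1 (V.τ N k)) F, hF,
    (V.D N).eventually_all.2 fun k _ => Lp.coeFn_smul (V.w N k) (cp (h.1 (V.τ N k)) F),
    (V.D N).eventually_all.2 fun k _ => (cp_ae (h.1 (V.τ N k)) F).trans (Step2.aec (h.1 _) hF)]
    with y e1 e2 e3 e4 e5
  rw [e1, Pi.sub_apply, e2, e3, Finset.sum_apply, sq, Finset.sum_congr rfl fun k hk =>
    (show _ = (V.w N k • cp (h.1 (V.τ N k)) F : L2 μ) y by
      rw [e4 k hk, Pi.smul_apply, e5 k hk, smul_eq_mul])]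

end

end FCx

open FCx in
theorem p_FC (hHC : S_HC) : S_FC := by
  intro ξ _ P _ I hI K V s s' S S' Θ hK hs hs' hL hL' h2 h1 hΘ hw
  have hS := za_lift hI hs hL
  let R : Submodule ℝ (L2 P) := LinearMap.range I.toLinearMap
  have cR : IsClosed (R : Set (L2 P)) := I.isometry.isClosedEmbedding.isClosed_range
  have : CompleteSpace R := cR.completeSpace_coe
  let M : Submodule ℝ (L2 (mQ ξ)) := R.comap ((cp hΘ).comp I).toLinearMap
  have cM : IsClosed (M : Set (L2 (mQ ξ))) := cR.preimage ((cp hΘ).comp I).continuous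
  have one : ∀ (c : ℝ) F, inner ℝ (I F) (Lp.const 2 P c) = 0 := fun c F => by
    have := hI.form F []
    simp only [ex, gR, List.map_nil, List.prod_nil, mul_one, sub_self, mul_zero, integral_zero]
      at this
    rw [inner_eq, integral_congr_ae ((EventuallyEq.refl _ (I F)).fun_mul (Lp.coeFn_const 2 P c))]
    simp only [Function.const_apply]
    rw [integral_mul_const, this, zero_mul]
  have lift : ∀ t F, cp (hL' t).2.1 (I F) = I (cp (hs'.1 t) F) := fun t F =>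
    Lp.ext ((cp_ae _ _).trans ((hL' t).2.2 F _ (cp_ae _ F)))
  have key : ∀ F : L2 (mQ ξ), Tendsto (fun N => ∑ k ∈ V.D N, V.w N k • cp (hs'.1 (V.τ N k)) F)
      atTop (𝓝 F) → F ∈ M := fun F hF => by
    obtain ⟨_, ⟨F', rfl⟩, z, hz, e⟩ := R.exists_add_mem_mem_orthogonal (cp hΘ (I F))
    refine ⟨F', ?_⟩
    suffices z = 0 by rw [this, add_zero] at e; exact e.symm
    refine uniq_ok.2 P z fun l => ?_
    obtain ⟨n, hn⟩ := hK.list l
    obtain ⟨H, F₀, c, C, -, a1, a2, a3⟩ := hHC ξ P I hI s S hs hL l (K n) (hK.1 n).1 (hK.1 n).2 hn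
    have b1 : inner ℝ (cp hΘ (I F)) H = 0 := by
      refine orth hS V ((((cp hΘ).comp I).continuous.tendsto F).comp hF |>.congr fun N => ?_) a3
        (h2 n)
      simp only [Function.comp_apply, map_sum, map_smul, LinearIsometry.coe_comp, ← lift,
        cp_itw hΘ (hS.1 _) (hL' _).2.1 (hw _)]
    have b2 : inner ℝ (cp hΘ (I F)) (Lp.const 2 P c) = 0 := by
      have : cp hΘ (Lp.const 2 P c) = Lp.const 2 P c :=
        Lp.ext ((cp_ae _ _).trans ((Step2.aec hΘ (Lp.coeFn_const 2 P c)).trans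
          (Lp.coeFn_const 2 P c).symm))
      rw [← this, (cp hΘ).inner_map_map, one]
    have b3 : inner ℝ z (I F₀) = 0 := (Submodule.mem_orthogonal' _ _).1 hz _ ⟨F₀, rfl⟩
    rw [e, inner_add_left] at b1 b2
    change inner ℝ (I F') _ + _ = _ at b1 b2
    rw [inner_eq, a2, zero_add] at b1
    rw [one, zero_add] at b2
    have b4 : inner ℝ z (H + Lp.const 2 P c + I F₀) = 0 := by
      rw [inner_add_right, inner_add_right, b1, b2, b3, add_zero, add_zero]
    rw [← b4, inner_eq]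
    refine integral_congr_ae ?_
    filter_upwards [Lp.coeFn_add (H + Lp.const 2 P c) (I F₀), Lp.coeFn_add H (Lp.const 2 P c),
      Lp.coeFn_const 2 P c, a1] with ν e1 e2 e3 e4
    rw [e1, Pi.add_apply, e2, Pi.add_apply, e3, e4, Function.const_apply, th]
    ring
  have all : ∀ F, F ∈ M := by
    refine Lp.induction (by simp) _ (fun c A hA hA' => ?_) (fun f g _ _ _ => M.add_mem) cM
    choose B b1 b2 b3 b4 using fun n : ℕ =>
      h1 A hA hA'.ne (n : ℝ≥0∞)⁻¹ (ENNReal.inv_pos.2 (ENNReal.natCast_ne_top n))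
    have e : indicatorConstLp 2 hA hA'.ne c = c • indicatorConstLp 2 hA hA'.ne (1 : ℝ) := by
      refine Lp.ext ?_
      filter_upwards [indicatorConstLp_coeFn (p := 2) (hs := hA) (hμs := hA'.ne) (c := c),
        indicatorConstLp_coeFn (p := 2) (hs := hA) (hμs := hA'.ne) (c := (1 : ℝ)),
        Lp.coeFn_smul c (indicatorConstLp 2 hA hA'.ne (1 : ℝ))] with q e1 e2 e3
      rw [e1, e3, Pi.smul_apply, e2]
      by_cases hq : q ∈ A <;> simp [hq]
    rw [Lp.simpleFunc.coe_indicatorConst, e]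
    refine M.smul_mem c (cM.mem_of_tendsto (tendsto_indicatorConstLp_set (ht := b1) (hμt := b2)
      (by simp) (tendsto_of_tendsto_of_tendsto_of_le_of_le tendsto_const_nhds
        ENNReal.tendsto_inv_nat_nhds_zero (fun _ => zero_le) fun n => ?_))
      (Eventually.of_forall fun n => key _ (avg_tendsto hs' V (b1 n) (b2 n) (b4 n))))
    rw [symmDiff_comm]
    exact (b3 n).le
  intro F
  obtain ⟨F', e⟩ := all F
  exact ⟨F', (cp_ae hΘ (I F)).symm.trans (by
    change I F' = cp hΘ (I F) at e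
    rw [e])⟩

namespace PTx

/-- The hypotheses on the correspondence. -/
structure OK (m : Measure Q) (Corr : Set Q → Set Q → Prop) : Prop where
  l : ∀ A, MeasurableSet A → m A ≠ ∞ → ∃ B, Corr A B
  r : ∀ B, MeasurableSet B → m B ≠ ∞ → ∃ A, Corr A B
  ms : ∀ A B, Corr A B → MeasurableSet A ∧ MeasurableSet B ∧ m A ≠ ∞ ∧ m B ≠ ∞
  int : ∀ A B A' B', Corr A B → Corr A' B' → m (A ∩ A') = m (B ∩ B')

variable {m : Measure Q} {Corr : Set Q → Set Q → Prop}

theorem OK.star (h : OK m Corr) {ι : Type} [Countable ι] {A B : ι → Set Q}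
    (hAB : ∀ n, Corr (A n) (B n)) {A0 B0 : Set Q} (h0 : Corr A0 B0) (hs : A0 ⊆ ⋃ n, A n) :
    ∀ᵐ q ∂m, q ∈ B0 → ∃ n, q ∈ B n := by
  have hR : MeasurableSet (B0 \ ⋃ n, B n) :=
    (h.ms _ _ h0).2.1.diff (MeasurableSet.iUnion fun n => (h.ms _ _ (hAB n)).2.1)
  obtain ⟨A', hA'⟩ := h.r _ hR (measure_ne_top_of_subset sdiff_subset (h.ms _ _ h0).2.2.2)
  have h1 : ∀ n, m (A' ∩ A n) = 0 := fun n => by
    rw [h.int _ _ _ _ hA' (hAB n)]
    have : (B0 \ ⋃ n, B n) ∩ B n = ∅ :=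
      eq_empty_of_forall_notMem fun q hq => hq.1.2 (mem_iUnion.2 ⟨n, hq.2⟩)
    rw [this, measure_empty]
  have h2 : m (A' ∩ A0) = 0 := by
    refine measure_mono_null (inter_subset_inter_right _ hs) ?_
    rw [inter_iUnion]
    exact measure_iUnion_null h1
  rw [h.int _ _ _ _ hA' h0, inter_eq_left.2 sdiff_subset] at h2
  filter_upwards [measure_eq_zero_iff_ae_notMem.1 h2] with q hq hq0
  by_contra hc
  exact hq ⟨hq0, fun hu => hc (mem_iUnion.1 hu)⟩

theorem OK.mono (h : OK m Corr) {A B A' B' : Set Q} (h0 : Corr A B) (h1 : Corr A' B')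
    (hs : A ⊆ A') : ∀ᵐ q ∂m, q ∈ B → q ∈ B' := by
  filter_upwards [h.star (ι := Unit) (A := fun _ => A') (B := fun _ => B') (fun _ => h1) h0
    (hs.trans (subset_iUnion (fun _ : Unit => A') ()))] with q hq hB
  exact (hq hB).elim fun _ h => h

theorem OK.disj (h : OK m Corr) {A B A' B' : Set Q} (h0 : Corr A B) (h1 : Corr A' B')
    (hs : A ∩ A' = ∅) : ∀ᵐ q ∂m, q ∈ B → q ∉ B' := by
  have := h.int _ _ _ _ h0 h1
  rw [hs, measure_empty] at this
  filter_upwards [measure_eq_zero_iff_ae_notMem.1 this.symm] with q hq hB hB'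
  exact hq ⟨hB, hB'⟩

/-- A piece over the index `i`. -/
def pc (i : Idx) (V : Set Xi) : Set Q := {q | q.1 = i ∧ q.2 ∈ V}

theorem piece (h : OK m Corr) (hf : ∀ i V, m (pc i V) ≠ ∞) (i : Idx) {B : Set Q}
    (hB : Corr (pc i univ) B) :
    ∃ φ : Q → Xi, Measurable φ ∧ ∀ V, MeasurableSet V → ∀ B', Corr (pc i V) B' →
      ∀ᵐ q ∂m, q ∈ B' ↔ q ∈ B ∧ φ q ∈ V := by
  classical
  have ex : ∀ V, MeasurableSet V → ∃ B', Corr (pc i V) B' := fun V hV =>
    h.l _ (Dec1.meas_prod i V hV) (hf i V)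
  have hk : ∀ k : Crd, MeasurableSet ((fun z : Xi => z k) ⁻¹' {true}) := fun k =>
    measurable_pi_apply k MeasurableSet.of_discrete
  choose Bk hBk using fun k => ex _ (hk k)
  let φ : Q → Xi := fun q k => decide (q ∈ Bk k)
  have hφ : Measurable φ := measurable_pi_lambda _ fun k => measurable_to_bool (by
    have : (fun q => φ q k) ⁻¹' {true} = Bk k := by ext q; simp [φ]
    rw [this]
    exact (h.ms _ _ (hBk k)).2.1)
  refine ⟨φ, hφ, fun V hV => ?_⟩
  let M : MeasurableSpace Xi :=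
    { MeasurableSet' := fun V => MeasurableSet V ∧ ∀ B', Corr (pc i V) B' →
        ∀ᵐ q ∂m, q ∈ B' ↔ q ∈ B ∧ φ q ∈ V
      measurableSet_empty := ⟨MeasurableSet.empty, fun B' hB' => by
        filter_upwards [h.disj hB' hB' (by ext q; simp [pc])] with q hq
        exact ⟨fun a => absurd a (hq a), fun a => a.2.elim⟩⟩
      measurableSet_compl := fun V hV => ⟨hV.1.compl, fun B' hB' => by
        obtain ⟨B'', hB''⟩ := ex V hV.1
        filter_upwards [hV.2 _ hB'', h.mono hB' hB (fun q hq => ⟨hq.1, trivial⟩),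
          h.disj hB' hB'' (eq_empty_of_forall_notMem fun q hq => hq.1.2 hq.2.2),
          h.star (ι := Bool) (A := fun b => cond b (pc i V) (pc i Vᶜ))
            (B := fun b => cond b B'' B') (by rintro (_ | _); exacts [hB', hB'']) hB
            (fun q hq => by
              by_cases hv : q.2 ∈ V
              · exact mem_iUnion.2 ⟨true, hq.1, hv⟩
              · exact mem_iUnion.2 ⟨false, hq.1, hv⟩)] with q e1 e2 e3 e4
        refine ⟨fun a => ⟨e2 a, fun b => e3 a (e1.2 ⟨e2 a, b⟩)⟩, fun a => ?_⟩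
        obtain ⟨_ | _, hb⟩ := e4 a.1
        · exact hb
        · exact absurd (e1.1 hb).2 a.2⟩
      measurableSet_iUnion := fun V hV => ⟨MeasurableSet.iUnion fun n => (hV n).1, fun B' hB' => by
        choose C hC using fun n => ex _ (hV n).1
        filter_upwards [ae_all_iff.2 fun n => (hV n).2 _ (hC n),
          ae_all_iff.2 fun n => h.mono (hC n) hB' (fun q hq => ⟨hq.1, mem_iUnion.2 ⟨n, hq.2⟩⟩),
          h.star hC hB' (fun q hq => (mem_iUnion.1 hq.2).elim fun n hn =>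
            mem_iUnion.2 ⟨n, hq.1, hn⟩)] with q e1 e2 e3
        refine ⟨fun a => ?_, fun a => ?_⟩
        · obtain ⟨n, hn⟩ := e3 a
          exact ⟨((e1 n).1 hn).1, mem_iUnion.2 ⟨n, ((e1 n).1 hn).2⟩⟩
        · obtain ⟨n, hn⟩ := mem_iUnion.1 a.2
          exact e2 n ((e1 n).2 ⟨a.1, hn⟩)⟩ }
  have key : @Measurable Xi Xi M MeasurableSpace.pi id := by
    refine @measurable_pi_lambda Xi Crd (fun _ => Bool) M _ id fun k => ?_
    refine @measurable_to_bool Xi M _ ⟨hk k, fun B' hB' => ?_⟩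
    filter_upwards [h.mono hB' (hBk k) Subset.rfl, h.mono (hBk k) hB' Subset.rfl,
      h.mono hB' hB (fun q hq => ⟨hq.1, trivial⟩)] with q e1 e2 e3
    exact ⟨fun a => ⟨e3 a, decide_eq_true (e1 a)⟩, fun a => e2 (of_decide_eq_true a.2)⟩
  exact (key hV).2

end PTx

open PTx in
theorem p_PT : S_PT := by
  intro ξ _ Corr h1 h2 h3 h4
  have h : OK (mQ ξ) Corr := ⟨h1, h2, h3, h4⟩
  have hf : ∀ i V, mQ ξ (pc i V) ≠ ∞ := fun i V => by
    rw [pc, Dec1.mQ_prod]
    exact measure_ne_top _ _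
  have hm : ∀ i V, MeasurableSet V → MeasurableSet (pc i V) := Dec1.meas_prod
  choose B hB using fun i => h1 _ (hm i _ MeasurableSet.univ) (hf i univ)
  choose φ hφ hφ' using fun i => piece h hf i (hB i)
  have : Nonempty Idx := ⟨⟨0, (0, true), (0, true), ∅, ∅, ∅⟩⟩
  obtain ⟨θ, hθ, hθ'⟩ := exists_measurable_piecewise (fun i => B i \ ⋃ j, ⋃ _ : j ≠ i, B j)
    (fun i => (h3 _ _ (hB i)).2.1.diff (MeasurableSet.iUnion fun j =>
      MeasurableSet.iUnion fun _ => (h3 _ _ (hB j)).2.1))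
    (fun i q => ((i, φ i q) : Q)) (fun i => measurable_const.prodMk (hφ i))
    (fun i j hij q hq => absurd (mem_iUnion₂.2 ⟨j, hij.symm, hq.2.1⟩) hq.1.2)
  have cov : ∀ᵐ q ∂mQ ξ, ∃ i, q ∈ B i := by
    choose A hA using fun i => h2 _ (hm i _ MeasurableSet.univ) (hf i univ)
    filter_upwards [ae_all_iff.2 fun i => h.star hB (hA i)
      (fun q _ => mem_iUnion.2 ⟨q.1, rfl, trivial⟩)] with q hq
    exact hq q.1 ⟨rfl, trivial⟩
  have dj : ∀ᵐ q ∂mQ ξ, ∀ i j, j ≠ i → q ∈ B i → q ∉ B j := by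
    refine ae_all_iff.2 fun i => ae_all_iff.2 fun j => ?_
    by_cases hij : j = i
    · exact Eventually.of_forall fun _ a => absurd hij a
    · filter_upwards [h.disj (hB i) (hB j)
        (eq_empty_of_forall_notMem fun q hq => hij (hq.2.1.symm.trans hq.1.1))] with q hq _
      exact hq
  have main : ∀ A C, Corr A C → θ ⁻¹' A =ᵐ[mQ ξ] C := by
    intro A C hC
    have hV : ∀ i, MeasurableSet (Prod.mk i ⁻¹' A) := fun i => measurable_prodMk_left (h3 _ _ hC).1
    choose D hD using fun i => h1 _ (hm i _ (hV i)) (hf i _)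
    filter_upwards [cov, dj, ae_all_iff.2 fun i => hφ' i _ (hV i) _ (hD i),
      ae_all_iff.2 fun i => h.mono (hD i) hC (by rintro ⟨a, b⟩ ⟨rfl, hq⟩; exact hq),
      h.star hD hC (fun q hq => mem_iUnion.2 ⟨q.1, rfl, hq⟩)] with q e1 e2 e3 e4 e5
    obtain ⟨i, hi⟩ := e1
    have e6 : θ q = (i, φ i q) := hθ' i ⟨hi, fun hu => by
      obtain ⟨j, hj, hq⟩ := mem_iUnion₂.1 hu
      exact e2 i j hj hi hq⟩
    refine propext ⟨fun a => e4 i ((e3 i).2 ⟨hi, ?_⟩), fun a => ?_⟩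
    · change θ q ∈ A at a
      rwa [e6] at a
    · obtain ⟨j, hj⟩ := e5 a
      obtain rfl : j = i := by
        by_contra hne
        exact e2 i j hne hi ((e3 j).1 hj).1
      change θ q ∈ A
      rw [e6]
      exact ((e3 j).1 hj).2
  refine ⟨θ, ⟨hθ, ?_⟩, main⟩
  refine Measure.ext_of_iUnion_eq_univ (iUnion_spanningSets (mQ ξ)) fun n => ?_
  ext A hA
  have hA' := hA.inter (measurableSet_spanningSets (mQ ξ) n)
  obtain ⟨C, hC⟩ := h1 _ hA'
    (measure_ne_top_of_subset inter_subset_right (measure_spanningSets_lt_top (mQ ξ) n).ne)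
  have := h4 _ _ _ _ hC hC
  rw [inter_self, inter_self] at this
  rw [Measure.restrict_apply hA, Measure.restrict_apply hA, Measure.map_apply hθ hA',
    measure_congr (main _ _ hC), this]

namespace BACKx

open CorrAux

variable {ξ : Measure Xi} {P : Measure Cf} {I : L2 (mQ ξ) →ₗᵢ[ℝ] L2 P} {Θ : Cf → Cf}

lemma cor_comp (hh : MeasurePreserving Θ P P) {s s' : Q → Q} {S S' : Cf → Cf} (hs : Lifts I S s)
    (hs' : Lifts I S' s') (hi : Itw P Θ S S') {A B : Set Q} (h : Cor I Θ A B) :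
    Cor I Θ (s' ⁻¹' A) (s ⁻¹' B) := by
  obtain ⟨⟨a1, a2, a3, a4⟩, F, F', t1, s1, s2⟩ := h
  have k1 := Lp.coeFn_compMeasurePreserving F hs'.1
  have k2 := Lp.coeFn_compMeasurePreserving F' hs.1
  refine ⟨⟨hs'.1.measurable a1, hs.1.measurable a2, ?_, ?_⟩, _, _, ?_, s1.comp hs'.1 k1,
    s2.comp hs.1 k2⟩
  · rwa [hs'.1.measure_preimage a1.nullMeasurableSet]
  · rwa [hs.1.measure_preimage a2.nullMeasurableSet]
  · have b1 := hs'.2.2 F _ k1
    have b2 := hs.2.2 F' _ k2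
    unfold Tr at *
    filter_upwards [hh.quasiMeasurePreserving.ae b1, b2, hi,
      hs.2.1.quasiMeasurePreserving.ae t1] with ν b1 b2 b3 b4
    rw [← b1, ← b3, b4, b2]

lemma cor_inter [IsProbabilityMeasure ξ] [IsProbabilityMeasure P] (hL : Lap ξ P)
    (hI : IsChaos ξ P I) (hh : MeasurePreserving Θ P P) {A B A' B' : Set Q} (h : Cor I Θ A B)
    (h' : Cor I Θ A' B') : mQ ξ (A ∩ A') = mQ ξ (B ∩ B') := by
  obtain ⟨⟨a1, a2, a3, a4⟩, F, F', t1, s1, s2⟩ := h
  obtain ⟨⟨b1, b2, b3, b4⟩, G, G', t2, s3, s4⟩ := h'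
  have hc := char_ok approx_ok
  have e1 := real_eq hc hL hI hh t1 a1 a2 s1 s2
  have e2 := real_eq hc hL hI hh t2 b1 b2 s3 s4
  have e3 := tr_cos hc hL hI hh (tr_add hh t1 t2) Real.pi
  rw [integral_two a1 b1 s1 s3, integral_two a2 b2 s2 s4, real_symmDiff a1 b1 a3 b3,
    real_symmDiff a2 b2 a4 b4] at e3
  exact (ENNReal.toReal_eq_toReal_iff' (measure_ne_top_of_subset inter_subset_left a3)
    (measure_ne_top_of_subset inter_subset_left a4)).1
    (show (mQ ξ).real (A ∩ A') = (mQ ξ).real (B ∩ B') by linarith)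

end BACKx

open BACKx CorrAux in
theorem p_BACK (hPT : S_PT) : S_BACK := by
  intro ξ _ P _ I hL hI s s' S S' Θ Θ' hs hs' hC hi f1 g1
  have hc := char_ok approx_ok
  have c1 (A : Set Q) (hA : MeasurableSet A) (hfin : mQ ξ A ≠ ∞) : ∃ B, Cor I Θ A B := by
    obtain ⟨F', hF'⟩ := f1 (indicatorConstLp 2 hA hfin (1 : ℝ))
    obtain ⟨B, b1, b2, b3⟩ := exists_sup F' (tr_tri hc hL hI hC.1 hF' (sup_ind hA hfin).tri)
    exact ⟨B, ⟨hA, b1, hfin, b2⟩, _, _, hF', sup_ind hA hfin, b3⟩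
  have c2 (B : Set Q) (hB : MeasurableSet B) (hfin : mQ ξ B ≠ ∞) : ∃ A, Cor I Θ A B := by
    obtain ⟨F', hF'⟩ := g1 (indicatorConstLp 2 hB hfin (1 : ℝ))
    obtain ⟨A, b1, b2, b3⟩ := exists_sup F' (tr_tri hc hL hI hC.2.1 hF' (sup_ind hB hfin).tri)
    exact ⟨A, ⟨b1, hB, b2, hfin⟩, _, _, tr_symm hC hF', b3, sup_ind hB hfin⟩
  obtain ⟨θ, m1, h1⟩ := hPT ξ (Cor I Θ) c1 c2 (fun _ _ h => h.1)
    fun _ _ _ _ => cor_inter hL hI hC.1
  obtain ⟨θ', m2, h2⟩ := hPT ξ (fun B A => Cor I Θ A B) c2 c1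
    (fun _ _ h => ⟨h.1.2.1, h.1.1, h.1.2.2.2, h.1.2.2.1⟩)
    fun _ _ _ _ h h' => (cor_inter hL hI hC.1 h h').symm
  refine ⟨θ, θ', ⟨m1, m2, ae_eq_of_preimage (mQ ξ) fun B hB hf => ?_,
    ae_eq_of_preimage (mQ ξ) fun A hA hf => ?_⟩, ae_eq_of_preimage (mQ ξ) fun A hA hf => ?_⟩
  · obtain ⟨A, h⟩ := c2 B hB hf
    exact (m1.quasiMeasurePreserving.preimage_ae_eq (h2 _ _ h)).trans (h1 _ _ h)
  · obtain ⟨B, h⟩ := c1 A hA hf
    exact (m2.quasiMeasurePreserving.preimage_ae_eq (h1 _ _ h)).trans (h2 _ _ h)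
  · obtain ⟨B, h⟩ := c1 A hA hf
    exact (hs.1.quasiMeasurePreserving.preimage_ae_eq (h1 _ _ h)).trans
      (h1 _ _ (cor_comp hC.1 hs hs' hi h)).symm

end Pool.Agent.P.MP_c1aa6a_an.Mix
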