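import Pool.Agent.P.MP_c1aa6a_an.All

/-! Definitions and basic lemmas for the mixing version: actions of the integers, averaging data,
and the infinite rank one tower with lacunary spacers. -/

set_option autoImplicit false
open MeasureTheory Set Filter Topology
open scoped ENNReal NNReal symmDiff

namespace Pool.Agent.P.MP_c1aa6a_an.Mix

/-! ## Generic notions -/

section generic
variable {Y Z : Type} [MeasurableSpace Y] [MeasurableSpace Z]

/-- Measure preserving action of the integers, almost everywhere. -/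
def ZA (μ : Measure Y) (S : ℤ → Y → Y) : Prop :=
  (∀ t, MeasurePreserving (S t) μ μ) ∧ S 0 =ᵐ[μ] id ∧
    ∀ t u, S (t + u) =ᵐ[μ] fun y => S t (S u y)

/-- `θ` intertwines `f` and `g`. -/
def Itw (μ : Measure Y) (θ : Y → Z) (f : Y → Y) (g : Z → Z) : Prop :=
  (fun y => θ (f y)) =ᵐ[μ] fun y => g (θ y)

/-- Measure isomorphism. -/
def IsoR (μ : Measure Y) (f g : Y → Y) : Prop := ∃ θ θ', Conj μ μ θ θ' ∧ Itw μ θ f g

/-- Mixing of all orders for a map. -/
def MixAll (μ : Measure Y) (f : Y → Y) : Prop :=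
  ∀ (k : ℕ) (A : Fin k → Set Y), (∀ i, MeasurableSet (A i)) → ∀ n : ℕ → Fin k → ℕ,
    (∀ i j, i ≠ j → Tendsto (fun r => |(n r i : ℤ) - n r j|) atTop atTop) →
    Tendsto (fun r => μ (⋂ i, f^[n r i] ⁻¹' A i)) atTop (𝓝 (∏ i, μ (A i)))

/-- Mixing of all orders for an action of the integers. -/
def MixZ (μ : Measure Y) (S : ℤ → Y → Y) : Prop :=
  ∀ (k : ℕ) (A : Fin k → Set Y), (∀ i, MeasurableSet (A i)) → ∀ n : ℕ → Fin k → ℤ,
    (∀ i j, i ≠ j → Tendsto (fun r => |n r i - n r j|) atTop atTop) →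
    Tendsto (fun r => μ (⋂ i, S (n r i) ⁻¹' A i)) atTop (𝓝 (∏ i, μ (A i)))

/-- Return mass of `K` at time `t`. -/
noncomputable def cor (m : Measure Y) (K : Set Y) (T : ℤ → Y → Y) (t : ℤ) : ℝ :=
  m.real (K ∩ T t ⁻¹' K)

/-- Zero type along the exhaustion `K`. -/
def ZT (m : Measure Y) (K : ℕ → Set Y) (T : ℤ → Y → Y) : Prop :=
  ∀ n, ∀ ε : ℝ, 0 < ε → ∃ N : ℕ, ∀ t : ℤ, (N : ℤ) ≤ |t| → cor m (K n) T t ≤ ε

/-- Averaging data: finite sets of weighted times. -/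
structure Avg where
  κ : Type
  D : ℕ → Finset κ
  w : ℕ → κ → ℝ
  τ : ℕ → κ → ℤ

/-- The averages fix a dense family of indicators in the limit. -/
def Sing1 (m : Measure Y) (T : ℤ → Y → Y) (V : Avg) : Prop :=
  ∀ A, MeasurableSet A → m A ≠ ∞ → ∀ ε : ℝ≥0∞, 0 < ε → ∃ A', MeasurableSet A' ∧ m A' ≠ ∞ ∧
    m (A ∆ A') < ε ∧ Tendsto (fun N => ∫ ω, (∑ k ∈ V.D N, V.w N k *
      A'.indicator (fun _ => (1 : ℝ)) (T (V.τ N k) ω) - A'.indicator (fun _ => (1 : ℝ)) ω) ^ 2 ∂m)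
      atTop (𝓝 0)

/-- The averages kill squared correlations. -/
def Sing2 (m : Measure Y) (K : ℕ → Set Y) (T : ℤ → Y → Y) (V : Avg) : Prop :=
  ∀ n, Tendsto (fun N => ∑ k ∈ V.D N, ∑ k' ∈ V.D N,
    |V.w N k| * |V.w N k'| * cor m (K n) T (V.τ N k - V.τ N k') ^ 2) atTop (𝓝 0)

theorem ZA.cancel {μ : Measure Y} {S : ℤ → Y → Y} (h : ZA μ S) (t : ℤ) :
    (fun y => S (-t) (S t y)) =ᵐ[μ] id := by
  have := h.2.2 (-t) t
  rw [neg_add_cancel] at this
  exact this.symm.trans h.2.1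

theorem ZA.conj {μ : Measure Y} {S : ℤ → Y → Y} (h : ZA μ S) (t : ℤ) :
    Conj μ μ (S t) (S (-t)) :=
  ⟨h.1 t, h.1 (-t), h.cancel t, by simpa only [neg_neg] using h.cancel (-t)⟩

theorem ZA.iter {μ : Measure Y} {S : ℤ → Y → Y} (h : ZA μ S) (n : ℕ) :
    (S 1)^[n] =ᵐ[μ] S n := by
  induction n with
  | zero => exact h.2.1.symm
  | succ n ih =>
    rw [Function.iterate_succ', Nat.cast_succ, add_comm]
    filter_upwards [ih, h.2.2 1 n] with y h1 h2
    rw [h2, Function.comp_apply, h1]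

theorem ZA.itw {μ : Measure Y} {ν : Measure Z} {S : ℤ → Y → Y} {S' : ℤ → Z → Z} (h : ZA μ S)
    (h' : ZA ν S') {θ : Y → Z} (hθ : MeasurePreserving θ μ ν) (h1 : Itw μ θ (S 1) (S' 1))
    (t : ℤ) : Itw μ θ (S t) (S' t) := by
  have add : ∀ a b, Itw μ θ (S a) (S' a) → Itw μ θ (S b) (S' b) →
      Itw μ θ (S (a + b)) (S' (a + b)) := fun a b ha hb => by
    filter_upwards [h.2.2 a b, Step2.aec hθ (h'.2.2 a b), Step2.aec (h.1 b) ha, hb]
      with y e1 e2 e3 e4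
    rw [e1, e2, e3, e4]
  have neg : Itw μ θ (S (-1)) (S' (-1)) := by
    filter_upwards [Step2.aec (h.1 (-1)) h1, (h.conj 1).2.2.2,
      Step2.aec (hθ.comp (h.1 (-1))) (h'.cancel 1)] with y e1 e2 e3
    simp only [id, Function.comp] at e1 e2 e3
    rw [← e3, ← e1, e2]
  induction t using Int.induction_on with
  | zero =>
    filter_upwards [h.2.1, Step2.aec hθ h'.2.1] with y e1 e2
    rw [e1, e2, id, id]
  | succ n ih => exact add _ _ ih h1
  | pred n ih => exact add _ _ ih neg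

/-- Maps with the same preimages of sets of finite measure agree. -/
theorem ae_eq_of_preimage [StandardBorelSpace Z] {μ : Measure Y} (ν : Measure Z) [SigmaFinite ν]
    {f g : Y → Z} (h : ∀ A, MeasurableSet A → ν A ≠ ∞ → f ⁻¹' A =ᵐ[μ] g ⁻¹' A) : f =ᵐ[μ] g := by
  obtain ⟨C, hC, hs⟩ := exists_seq_separating Z MeasurableSet.univ (t := univ)
  have h1 := ae_all_iff.2 fun k => ae_all_iff.2 fun n => h (spanningSets ν k ∩ C n)
    ((measurableSet_spanningSets ν k).inter (hC n))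
    (measure_ne_top_of_subset inter_subset_left (measure_spanningSets_lt_top ν k).ne)
  have h2 := ae_all_iff.2 fun k =>
    h _ (measurableSet_spanningSets ν k) (measure_spanningSets_lt_top ν k).ne
  filter_upwards [h1, h2] with y e1 e2
  have k1 := mem_spanningSetsIndex ν (f y)
  have k2 : g y ∈ spanningSets ν (spanningSetsIndex ν (f y)) := (e2 _).mp k1
  exact hs _ trivial _ trivial fun n =>
    ⟨fun hn => ((e1 _ n).mp ⟨k1, hn⟩).2, fun hn => ((e1 _ n).mpr ⟨k2, hn⟩).2⟩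

end generic

/-- Lebesgue measure on the unit interval. -/
noncomputable abbrev mI : Measure ℝ := volume.restrict (Icc (0 : ℝ) 1)

/-- A measurable family of mixing maps whose isomorphism relation is `E`. -/
def Out (X : Type) [MeasurableSpace X] (E : X → X → Prop) : Prop :=
  ∃ f : X → ℝ → ℝ, (∀ x, MixAll mI (f x) ∧ ∃ g, Conj mI mI (f x) g) ∧
    (∀ A B, MeasurableSet A → MeasurableSet B → Measurable fun x => mI (f x ⁻¹' A ∩ B)) ∧
    ∀ x y, E x y ↔ IsoR mI (f x) (f y)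

/-! ## Poisson side -/

/-- Test functions on configurations. -/
noncomputable def th (l : List CO) : Cf → ℝ := ex (l.map fun E => (E, 1 / 2))

/-- The corresponding functions on the intensity space. -/
noncomputable def gh (l : List CO) : Q → ℝ := gR (l.map fun E => (E, 1 / 2))

/-- Exhaustion of the intensity space by sets of finite measure. -/
def Exh (ξ : Measure Xi) (K : ℕ → Set Q) : Prop :=
  (∀ n, MeasurableSet (K n) ∧ mQ ξ (K n) ≠ ∞) ∧ Monotone K ∧ ∀ E : CO, ∃ n, E.1 ⊆ K n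

theorem Exh.list {ξ : Measure Xi} {K : ℕ → Set Q} (h : Exh ξ K) (l : List CO) :
    ∃ n, ∀ E ∈ l, E.1 ⊆ K n := by
  induction l with
  | nil => exact ⟨0, by simp⟩
  | cons E l ih =>
    obtain ⟨n, hn⟩ := ih
    obtain ⟨k, hk⟩ := h.2.2 E
    refine ⟨max n k, fun E' hE' => ?_⟩
    rcases List.mem_cons.1 hE' with rfl | hE'
    · exact hk.trans (h.2.1 (le_max_right _ _))
    · exact (hn _ hE').trans (h.2.1 (le_max_left _ _))

theorem th_bound (l : List CO) (ν : Cf) : 0 ≤ th l ν ∧ th l ν ≤ 1 := Lift.ex_bound l ν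

theorem gh_bound (l : List CO) (q : Q) : 0 ≤ gh l q ∧ gh l q ≤ 1 := Lift.gR_bound l q

theorem measurable_th (l : List CO) : Measurable (th l) := Lift.measurable_ex _

theorem gh_eq_one {l : List CO} {K : Set Q} (h : ∀ E ∈ l, E.1 ⊆ K) {q : Q} (hq : q ∉ K) :
    gh l q = 1 := by
  induction l with
  | nil => rfl
  | cons E l ih =>
    have h1 : q ∉ E.1 := fun h' => hq (h E List.mem_cons_self h')
    have h2 := ih fun E' hE' => h E' (List.mem_cons_of_mem _ hE')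
    simp only [gh, gR, List.map_cons, List.prod_cons, if_neg h1, one_mul] at h2 ⊢
    exact h2

/-! ## The tower -/

/-- Digits: stage and bit. -/
abbrev Dg := ℕ × ℕ → Bool

/-- The space of the skew product. -/
abbrev W (Y : Type) := ℕ × (Dg × Y)

/-- Counting measure times a probability measure. -/
noncomputable def mW {Z : Type} [MeasurableSpace Z] (ζ : Measure Z) : Measure (ℕ × Z) :=
  (Measure.count : Measure ℕ).prod ζ

instance {Z : Type} [MeasurableSpace Z] (ζ : Measure Z) [SigmaFinite ζ] : SigmaFinite (mW ζ) := by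
  unfold mW; infer_instance

noncomputable abbrev mT {Y : Type} [MeasurableSpace Y] (μ : Measure Y) : Measure (W Y) :=
  mW ((unif (ℕ × ℕ)).prod μ)

/-- The first `a` unit pieces. -/
def Lv (Z : Type) (a : ℕ) : Set (ℕ × Z) := {ω | ω.1 < a}

theorem measurableSet_Lv {Z : Type} [MeasurableSpace Z] (a : ℕ) : MeasurableSet (Lv Z a) :=
  measurable_fst (MeasurableSet.of_discrete (s := {i : ℕ | i < a}))

theorem measure_Lv {Z : Type} [MeasurableSpace Z] (ζ : Measure Z) [IsProbabilityMeasure ζ]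
    (a : ℕ) : mW ζ (Lv Z a) = a := by
  have : Lv Z a = (Finset.range a : Set ℕ) ×ˢ univ := by ext; simp [Lv]
  rw [this, mW, Measure.prod_prod, Measure.count_apply_finset]
  simp

/-- The bits used below stage `n`. -/
def Tri (n : ℕ) : Finset (ℕ × ℕ) :=
  (Finset.range n ×ˢ Finset.range n).filter fun c => c.2 ≤ c.1

theorem mem_Tri {n : ℕ} {c : ℕ × ℕ} : c ∈ Tri n ↔ c.1 < n ∧ c.2 ≤ c.1 := by
  simp only [Tri, Finset.mem_filter, Finset.mem_product, Finset.mem_range]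
  omega

/-- The digits of stage `m`. -/
def J (m : ℕ) : Finset (Finset ℕ) := (Finset.range (m + 1)).powerset

theorem card_J (m : ℕ) : (J m).card = 2 ^ (m + 1) := by simp [J]

theorem symmDiff_mem_J {m : ℕ} {i j : Finset ℕ} (hi : i ∈ J m) (hj : j ∈ J m) : i ∆ j ∈ J m := by
  simp only [J, Finset.mem_powerset] at *
  exact Finset.symmDiff_subset_union.trans (Finset.union_subset hi hj)

/-- The digit of stage `m`. -/
def dgt (m : ℕ) (d : Dg) : Finset ℕ := (Finset.range (m + 1)).filter fun i => d (m, i) = true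

theorem mem_dgt {m i : ℕ} {d : Dg} : i ∈ dgt m d ↔ i ≤ m ∧ d (m, i) = true := by
  simp [dgt]

theorem dgt_mem (m : ℕ) (d : Dg) : dgt m d ∈ J m :=
  Finset.mem_powerset.2 (Finset.filter_subset _ _)

theorem dgt_eq_iff {m : ℕ} {d d' : Dg} :
    dgt m d = dgt m d' ↔ ∀ i ≤ m, d (m, i) = d' (m, i) := by
  simp only [Finset.ext_iff, mem_dgt]
  refine ⟨fun h i hi => ?_, fun h i => and_congr_right fun hi => by rw [h i hi]⟩
  have := h i
  simp only [hi, true_and] at this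
  exact Bool.eq_iff_iff.2 this

theorem measurable_dgt (m : ℕ) (j : Finset ℕ) : MeasurableSet {d : Dg | dgt m d = j} := by
  have : {d : Dg | dgt m d = j} = ⋂ i, {d : Dg | (i ≤ m ∧ d (m, i) = true) ↔ i ∈ j} := by
    ext d; simp [Finset.ext_iff, mem_dgt]
  rw [this]
  refine MeasurableSet.iInter fun i => ?_
  have h : Measurable fun d : Dg => d (m, i) := measurable_pi_apply _
  exact h (MeasurableSet.of_discrete (s := {b : Bool | (i ≤ m ∧ b = true) ↔ i ∈ j}))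

/-- Flip the bits `c` of stage `m`. -/
def xr (m : ℕ) (c : Finset ℕ) (d : Dg) : Dg :=
  fun p => if p.1 = m ∧ p.2 ∈ c then !d p else d p

theorem dgt_xr {m : ℕ} {c : Finset ℕ} (hc : c ∈ J m) (d : Dg) :
    dgt m (xr m c d) = dgt m d ∆ c := by
  ext i
  have h : i ∈ c → i ≤ m := fun hi =>
    Nat.lt_succ_iff.1 (Finset.mem_range.1 (Finset.mem_powerset.1 hc hi))
  simp only [mem_dgt, xr, Finset.mem_symmDiff, true_and]
  by_cases hi : i ∈ c
  · simp [hi, h hi]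
  · simp [hi]

theorem xr_xr (m : ℕ) (c c' : Finset ℕ) (d : Dg) : xr m c (xr m c' d) = xr m (c ∆ c') d := by
  funext p
  by_cases h1 : p.1 = m <;> by_cases h2 : p.2 ∈ c <;> by_cases h3 : p.2 ∈ c' <;>
    simp [xr, Finset.mem_symmDiff, h1, h2, h3]

/-- The data of the tower. -/
structure TD where
  A : ℕ → ℕ
  h : ℕ → ℤ
  L : ℕ → ℤ
  pos : ℕ → ℕ → Dg → ℤ
  ltA : ∀ n, n < A n
  monoA : Monotone A
  lth : ∀ n : ℕ, (n : ℤ) < h n
  hL : ∀ n, 4 * h n ≤ L n
  room : ∀ n, ∀ s ∈ J n, L n * 4 ^ Encodable.encode s + h n + L n ≤ h (n + 1)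
  dep : ∀ n a d d', (∀ c ∈ Tri n, d c = d' c) → pos n a d = pos n a d'
  inj : ∀ n a d a' d', a < A n → a' < A n → pos n a d = pos n a' d' →
    a = a' ∧ ∀ c ∈ Tri n, d c = d' c
  bd : ∀ n a d, a < A n → 0 ≤ pos n a d ∧ pos n a d < h n
  surj : ∀ n k, 0 ≤ k → k < h n → ∃ b : ℕ × Dg, b.1 < A n ∧ pos n b.1 b.2 = k
  step : ∀ n a d, a < A n → pos (n + 1) a d = L n * 4 ^ Encodable.encode (dgt n d) + pos n a d

variable {Y : Type}

/-- The label of stage `m`: the identity at even stages. -/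
def gm (α : ℕ → Y → Y) (m : ℕ) : Y → Y := if m % 2 = 1 then α (Nat.unpair (m / 2)).1 else id

/-- The label of a word. -/
def G (α : ℕ → Y → Y) : ℕ → Dg → Y → Y
  | 0, _ => id
  | n + 1, d => fun y => if d (n, 0) = true then gm α n (G α n d y) else G α n d y

/-- Commuting involutions. -/
def CI (α : ℕ → Y → Y) : Prop :=
  (∀ j, Function.Involutive (α j)) ∧ ∀ i j, Function.Commute (α i) (α j)

theorem gm_even (α : ℕ → Y → Y) {m : ℕ} (hm : m % 2 = 0) : gm α m = id := by simp [gm, hm]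

theorem gm_pair (α : ℕ → Y → Y) (j r : ℕ) : gm α (2 * Nat.pair j r + 1) = α j := by
  have h1 : (2 * Nat.pair j r + 1) % 2 = 1 := by omega
  have h2 : (2 * Nat.pair j r + 1) / 2 = Nat.pair j r := by omega
  simp [gm, h1, h2]

theorem gm_gm {α : ℕ → Y → Y} (hα : CI α) (m : ℕ) (y : Y) : gm α m (gm α m y) = y := by
  unfold gm
  split_ifs
  · exact hα.1 _ y
  · rfl

theorem gm_comm {α : ℕ → Y → Y} (hα : CI α) (m n : ℕ) (y : Y) :
    gm α m (gm α n y) = gm α n (gm α m y) := by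
  unfold gm
  split_ifs
  · exact hα.2 _ _ y
  all_goals rfl

theorem G_gm {α : ℕ → Y → Y} (hα : CI α) (m n : ℕ) (d : Dg) (y : Y) :
    G α n d (gm α m y) = gm α m (G α n d y) := by
  induction n with
  | zero => rfl
  | succ n ih =>
    simp only [G, ih]
    split_ifs
    · exact gm_comm hα _ _ _
    · rfl

theorem G_G {α : ℕ → Y → Y} (hα : CI α) (n : ℕ) (d : Dg) (y : Y) : G α n d (G α n d y) = y := by
  induction n with
  | zero => rfl
  | succ n ih =>
    simp only [G]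
    split_ifs
    · rw [G_gm hα, gm_gm hα, ih]
    · exact ih

theorem G_congr (α : ℕ → Y → Y) {n : ℕ} {d d' : Dg} (h : ∀ c ∈ Tri n, d c = d' c) :
    G α n d = G α n d' := by
  induction n with
  | zero => rfl
  | succ n ih =>
    funext y
    simp only [G, h (n, 0) (mem_Tri.2 ⟨Nat.lt_succ_self n, Nat.zero_le n⟩),
      ih fun c hc => h c (mem_Tri.2 ⟨Nat.lt_succ_of_lt (mem_Tri.1 hc).1, (mem_Tri.1 hc).2⟩)]

theorem gm_mp [MeasurableSpace Y] {μ : Measure Y} {α : ℕ → Y → Y} (hα : Fam μ α) (m : ℕ) :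
    MeasurePreserving (gm α m) μ μ := by
  unfold gm
  split_ifs
  · exact hα.1 _
  · exact MeasurePreserving.id μ

theorem G_mp [MeasurableSpace Y] {μ : Measure Y} {α : ℕ → Y → Y} (hα : Fam μ α) (n : ℕ)
    (d : Dg) : MeasurePreserving (G α n d) μ μ := by
  induction n with
  | zero => exact MeasurePreserving.id μ
  | succ n ih =>
    by_cases h : d (n, 0) = true
    · simp only [G, h, if_true]
      exact (gm_mp hα n).comp ih
    · simp only [G, h]
      exact ih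

/-- Change of the digit of stage `m` inside the column. -/
def X (α : ℕ → Y → Y) (m : ℕ) (c : Finset ℕ) (ω : W Y) : W Y :=
  (ω.1, xr m c ω.2.1, if 0 ∈ c then gm α m ω.2.2 else ω.2.2)

/-- Pure flip of bits. -/
def Fl (m : ℕ) (c : Finset ℕ) (ω : W Y) : W Y := (ω.1, xr m c ω.2.1, ω.2.2)

/-- A map of the fibre. -/
def fib (g : Y → Y) (ω : W Y) : W Y := (ω.1, ω.2.1, g ω.2.2)

theorem X_even (α : ℕ → Y → Y) {m : ℕ} (hm : m % 2 = 0) (c : Finset ℕ) : X α m c = Fl m c := by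
  funext ω
  simp [X, Fl, gm_even α hm]

theorem X_X {α : ℕ → Y → Y} (hα : CI α) (m : ℕ) (c c' : Finset ℕ) (ω : W Y) :
    X α m c (X α m c' ω) = X α m (c ∆ c') ω := by
  by_cases h1 : 0 ∈ c <;> by_cases h2 : 0 ∈ c' <;>
    simp [X, xr_xr, Finset.mem_symmDiff, h1, h2, gm_gm hα]

/-- Sets that live in the first `a n` pieces and do not see the bits of the stages `≥ n`. -/
def Cyl [MeasurableSpace Y] (a : ℕ → ℕ) (n : ℕ) (B : Set (W Y)) : Prop :=
  MeasurableSet B ∧ B ⊆ Lv _ (a n) ∧ ∀ m, n ≤ m → ∀ c ω, Fl m c ω ∈ B ↔ ω ∈ B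

namespace TD

variable (D : TD)

/-- The position of the column with digit `s` of stage `m`. -/
def p (m : ℕ) (s : Finset ℕ) : ℤ := D.L m * 4 ^ Encodable.encode s

/-- The `n`-th tower. -/
def K (Y : Type) (n : ℕ) : Set (W Y) := Lv _ (D.A n)

/-- `ω'` is `t` steps above `ω` in the `n`-th tower. -/
def Rel (α : ℕ → Y → Y) (n : ℕ) (t : ℤ) (ω ω' : W Y) : Prop :=
  ω.1 < D.A n ∧ ω'.1 < D.A n ∧ (∀ c, c ∉ Tri n → ω'.2.1 c = ω.2.1 c) ∧
    D.pos n ω'.1 ω'.2.1 = D.pos n ω.1 ω.2.1 + t ∧ G α n ω'.2.1 ω'.2.2 = G α n ω.2.1 ω.2.2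

open Classical in
/-- The level at height `k`. -/
noncomputable def inv (n : ℕ) (k : ℤ) : ℕ × Dg :=
  if h : 0 ≤ k ∧ k < D.h n then Classical.choose (D.surj n k h.1 h.2) else (0, fun _ => false)

/-- Move `t` steps inside the `n`-th tower. -/
noncomputable def mv (α : ℕ → Y → Y) (n : ℕ) (t : ℤ) (ω : W Y) : W Y :=
  ((D.inv n (D.pos n ω.1 ω.2.1 + t)).1,
    fun c => if c ∈ Tri n then (D.inv n (D.pos n ω.1 ω.2.1 + t)).2 c else ω.2.1 c,
    G α n (D.inv n (D.pos n ω.1 ω.2.1 + t)).2 (G α n ω.2.1 ω.2.2))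

/-- The skew product action. -/
noncomputable def T (α : ℕ → Y → Y) (t : ℤ) (ω : W Y) : W Y :=
  D.mv α (ω.1 + t.natAbs + 1) t ω

/-- The stages used by the `N`-th average. -/
def st (N r : ℕ) : ℕ := 2 * N * (r + 1)

/-- The averaging data of the tower. -/
noncomputable def V : Avg where
  κ := Σ _ : ℕ, Finset ℕ × Finset ℕ
  D N := (Finset.range N).sigma fun r => (J (st N r)).offDiag
  w N k := 1 / (N * 2 ^ (st N k.1 + 1))
  τ N k := D.p (st N k.1) k.2.1 - D.p (st N k.1) k.2.2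

variable {D} {α : ℕ → Y → Y}

theorem h_pos (n : ℕ) : 0 < D.h n := (Int.natCast_nonneg n).trans_lt (D.lth n)

theorem L_le_p (m : ℕ) (s : Finset ℕ) : D.L m ≤ D.p m s := by
  have h1 := D.hL m
  have h2 := h_pos (D := D) m
  exact le_mul_of_one_le_right (by omega) (one_le_pow₀ (by norm_num))

theorem p_room {m : ℕ} {s : Finset ℕ} (hs : s ∈ J m) : D.p m s + D.h m + D.L m ≤ D.h (m + 1) :=
  D.room m s hs

theorem h_mono : Monotone D.h := monotone_nat_of_le_succ fun n => by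
  have h1 := p_room (D := D) (dgt_mem n fun _ => false)
  have h2 := L_le_p (D := D) n (dgt n fun _ => false)
  have h3 := D.hL n
  have h4 := h_pos (D := D) n
  omega

theorem Rel.succ {n : ℕ} {t : ℤ} {ω ω' : W Y} (h : D.Rel α n t ω ω') :
    D.Rel α (n + 1) t ω ω' := by
  obtain ⟨h1, h2, h3, h4, h5⟩ := h
  have hn : ∀ i, ω'.2.1 (n, i) = ω.2.1 (n, i) := fun i => h3 _ fun hc => by
    simpa using (mem_Tri.1 hc).1
  refine ⟨h1.trans_le (D.monoA n.le_succ), h2.trans_le (D.monoA n.le_succ), fun c hc =>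
    h3 c fun hc' => hc (mem_Tri.2 ⟨Nat.lt_succ_of_lt (mem_Tri.1 hc').1, (mem_Tri.1 hc').2⟩),
    ?_, ?_⟩
  · rw [D.step _ _ _ h1, D.step _ _ _ h2, h4, dgt_eq_iff.2 fun i _ => hn i, add_assoc]
  · simp only [G, hn, h5]

theorem Rel.mono {n m : ℕ} {t : ℤ} {ω ω' : W Y} (h : D.Rel α n t ω ω') (hm : n ≤ m) :
    D.Rel α m t ω ω' := by
  induction hm with
  | refl => exact h
  | step _ ih => exact ih.succ

theorem Rel.refl (α : ℕ → Y → Y) {n : ℕ} {ω : W Y} (h : ω.1 < D.A n) : D.Rel α n 0 ω ω :=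
  ⟨h, h, fun _ _ => rfl, (add_zero _).symm, rfl⟩

theorem Rel.symm {n : ℕ} {t : ℤ} {ω ω' : W Y} (h : D.Rel α n t ω ω') :
    D.Rel α n (-t) ω' ω :=
  ⟨h.2.1, h.1, fun c hc => (h.2.2.1 c hc).symm, by rw [h.2.2.2.1]; ring, h.2.2.2.2.symm⟩

theorem Rel.trans {n : ℕ} {t u : ℤ} {ω ω' ω'' : W Y} (h : D.Rel α n u ω ω')
    (h' : D.Rel α n t ω' ω'') : D.Rel α n (t + u) ω ω'' :=
  ⟨h.1, h'.2.1, fun c hc => (h'.2.2.1 c hc).trans (h.2.2.1 c hc),
    by rw [h'.2.2.2.1, h.2.2.2.1]; ring, h'.2.2.2.2.trans h.2.2.2.2⟩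

theorem Rel.unique (hα : CI α) {n m : ℕ} {t : ℤ} {ω ω' ω'' : W Y} (h : D.Rel α n t ω ω')
    (h' : D.Rel α m t ω ω'') : ω' = ω'' := by
  obtain ⟨-, a2, a3, a4, a5⟩ := h.mono (le_max_left n m)
  obtain ⟨-, b2, b3, b4, b5⟩ := h'.mono (le_max_right n m)
  obtain ⟨c1, c2⟩ := D.inj _ _ _ _ _ a2 b2 (a4.trans b4.symm)
  have c3 : ω'.2.1 = ω''.2.1 := funext fun c => by
    by_cases hc : c ∈ Tri (max n m)
    · exact c2 c hc
    · rw [a3 c hc, b3 c hc]
  refine Prod.ext c1 (Prod.ext c3 ?_)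
  rw [← G_G hα (max n m) ω'.2.1 ω'.2.2, a5, ← b5, c3, G_G hα]

theorem Rel.abs_lt_h {n : ℕ} {t : ℤ} {ω ω' : W Y} (h : D.Rel α n t ω ω') : |t| < D.h n := by
  have h1 := D.bd n _ ω.2.1 h.1
  have h2 := D.bd n _ ω'.2.1 h.2.1
  have h3 := h.2.2.2.1
  rw [abs_lt]
  omega

theorem mv_rel (hα : CI α) {n : ℕ} {t : ℤ} {ω : W Y} (h : ω.1 < D.A n)
    (h0 : 0 ≤ D.pos n ω.1 ω.2.1 + t) (h1 : D.pos n ω.1 ω.2.1 + t < D.h n) :
    D.Rel α n t ω (D.mv α n t ω) := by
  have hs : (D.inv n (D.pos n ω.1 ω.2.1 + t)).1 < D.A n ∧ D.pos n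
      (D.inv n (D.pos n ω.1 ω.2.1 + t)).1 (D.inv n (D.pos n ω.1 ω.2.1 + t)).2 =
        D.pos n ω.1 ω.2.1 + t := by
    rw [inv, dif_pos ⟨h0, h1⟩]
    exact Classical.choose_spec (D.surj n _ h0 h1)
  have he : ∀ c ∈ Tri n, (D.mv α n t ω).2.1 c = (D.inv n (D.pos n ω.1 ω.2.1 + t)).2 c :=
    fun c hc => if_pos hc
  exact ⟨h, hs.1, fun c hc => if_neg hc, (D.dep _ _ _ _ he).trans hs.2,
    by rw [G_congr α he]; exact G_G hα _ _ _⟩

theorem mv_rel_succ (hα : CI α) {n : ℕ} {t : ℤ} {ω : W Y} (h : ω.1 < D.A n) (ht : |t| ≤ D.L n) :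
    D.Rel α (n + 1) t ω (D.mv α (n + 1) t ω) := by
  have h1 := D.step n _ ω.2.1 h
  have h2 := D.bd n _ ω.2.1 h
  have h3 := L_le_p (D := D) n (dgt n ω.2.1)
  have h4 := p_room (D := D) (dgt_mem n ω.2.1)
  rw [abs_le] at ht
  rw [p] at h3 h4
  exact mv_rel hα (h.trans_le (D.monoA n.le_succ)) (by omega) (by omega)

theorem T_rel (hα : CI α) (t : ℤ) (ω : W Y) : ∃ n, D.Rel α n t ω (D.T α t ω) := by
  refine ⟨_, mv_rel_succ hα ((Nat.le_add_right _ _).trans_lt (D.ltA _)) ?_⟩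
  have h1 := D.lth (ω.1 + t.natAbs)
  have h2 := D.hL (ω.1 + t.natAbs)
  rw [Int.abs_eq_natAbs]
  omega

theorem Rel.T_eq (hα : CI α) {n : ℕ} {t : ℤ} {ω ω' : W Y} (h : D.Rel α n t ω ω') :
    D.T α t ω = ω' := (T_rel hα t ω).elim fun _ h' => h'.unique hα h

theorem T_zero (hα : CI α) (ω : W Y) : D.T α 0 ω = ω := (Rel.refl α (D.ltA _)).T_eq hα

theorem T_add (hα : CI α) (t u : ℤ) (ω : W Y) : D.T α (t + u) ω = D.T α t (D.T α u ω) := by
  obtain ⟨n, h⟩ := T_rel (D := D) hα u ω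
  obtain ⟨m, h'⟩ := T_rel (D := D) hα t (D.T α u ω)
  exact ((h.mono (le_max_left n m)).trans (h'.mono (le_max_right n m))).T_eq hα

theorem T_neg (hα : CI α) (t : ℤ) (ω : W Y) : D.T α (-t) (D.T α t ω) = ω := by
  rw [← T_add hα, neg_add_cancel, T_zero hα]

/-- Points close to the `n`-th tower lie in the next tower. -/
theorem near (hα : CI α) {n : ℕ} {t : ℤ} {ω : W Y} (h : ω.1 < D.A n) (ht : |t| ≤ D.L n) :
    (D.T α t ω).1 < D.A (n + 1) := by
  rw [(mv_rel_succ hα h ht).T_eq hα]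
  exact (mv_rel_succ hα h ht).2.1

theorem X_rel (hα : CI α) {m : ℕ} {c : Finset ℕ} (hc : c ∈ J m) {ω : W Y} (h : ω.1 < D.A m) :
    D.Rel α (m + 1) (D.p m (dgt m ω.2.1 ∆ c) - D.p m (dgt m ω.2.1)) ω (X α m c ω) := by
  have he : ∀ e ∈ Tri m, xr m c ω.2.1 e = ω.2.1 e := fun e he =>
    if_neg fun h' => (mem_Tri.1 he).1.ne h'.1
  have h' := h.trans_le (D.monoA m.le_succ)
  refine ⟨h', h', fun e he' => if_neg fun h'' => he' (mem_Tri.2 ⟨by omega, ?_⟩), ?_, ?_⟩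
  · have := Finset.mem_range.1 (Finset.mem_powerset.1 hc h''.2)
    omega
  · simp only [X]
    rw [D.step _ _ _ h, D.step _ _ _ h, dgt_xr hc, D.dep _ _ _ _ he, p, p]
    ring
  · by_cases h0 : 0 ∈ c <;> cases hd : ω.2.1 (m, 0) <;>
      simp [X, G, xr, h0, hd, G_congr α he, G_gm hα, gm_gm hα]

/-- Inside the `m`-th tower a change of digit is a power of the action. -/
theorem T_X (hα : CI α) {m : ℕ} {c : Finset ℕ} (hc : c ∈ J m) {ω : W Y} (h : ω.1 < D.A m) :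
    D.T α (D.p m (dgt m ω.2.1 ∆ c) - D.p m (dgt m ω.2.1)) ω = X α m c ω :=
  (X_rel hα hc h).T_eq hα

theorem za [MeasurableSpace Y] {μ : Measure Y} (hα : CI α)
    (h : ∀ t, MeasurePreserving (D.T α t) (mT μ) (mT μ)) : ZA (mT μ) (D.T α) :=
  ⟨h, Eventually.of_forall (T_zero hα), fun t u => Eventually.of_forall (T_add hα t u)⟩

end TD

end Pool.Agent.P.MP_c1aa6a_an.Mix
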