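import Pool.Agent.P.MP_c1aa6a_an.Mix.Defs

/-! Shared lemmas and the intermediate statements of the mixing version. -/

set_option autoImplicit false
open MeasureTheory Set Filter Topology
open scoped ENNReal NNReal symmDiff

namespace Pool.Agent.P.MP_c1aa6a_an.Mix

/-! ## Shared lemmas -/

theorem cor_nonneg {Y : Type} [MeasurableSpace Y] (m : Measure Y) (K : Set Y) (T : ℤ → Y → Y)
    (t : ℤ) : 0 ≤ cor m K T t := measureReal_nonneg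

theorem cor_le {Y : Type} [MeasurableSpace Y] {m : Measure Y} {K : Set Y} (hK : m K ≠ ∞)
    (T : ℤ → Y → Y) (t : ℤ) : cor m K T t ≤ m.real K := measureReal_mono inter_subset_left hK

theorem real_Lv {Z : Type} [MeasurableSpace Z] (ζ : Measure Z) [IsProbabilityMeasure ζ]
    (a : ℕ) : mW ζ (Lv Z a) ≠ ∞ ∧ (mW ζ).real (Lv Z a) = a := by
  rw [measureReal_def, measure_Lv]
  simp

theorem xor_mp {ι : Type} (e : ι → Bool) :
    MeasurePreserving (fun (d : ι → Bool) c => xor (d c) (e c)) (unif ι) (unif ι) := by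
  have hm : ∀ c, Measurable fun x : Bool => xor x (e c) := fun _ => measurable_of_countable _
  refine ⟨measurable_pi_lambda _ fun c => (hm c).comp (measurable_pi_apply c), ?_⟩
  unfold unif
  rw [Measure.infinitePi_map_pi _ (f := fun c x => xor x (e c)) hm]
  congr 1
  funext c
  exact Maps.bern_xor _

theorem xr_mp (m : ℕ) (c : Finset ℕ) :
    MeasurePreserving (xr m c) (unif (ℕ × ℕ)) (unif (ℕ × ℕ)) := by
  have : xr m c = fun d p => xor (d p) (decide (p.1 = m ∧ p.2 ∈ c)) := by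
    funext d p
    by_cases h : p.1 = m ∧ p.2 ∈ c
    · rw [xr, if_pos h, decide_eq_true h, Bool.xor_true]
    · rw [xr, if_neg h, decide_eq_false h, Bool.xor_false]
  rw [this]
  exact xor_mp _

section tower
variable {Y : Type} [MeasurableSpace Y] {μ : Measure Y} [IsProbabilityMeasure μ]

theorem prod_mp {u : Dg → Dg} {g : Y → Y} (hu : MeasurePreserving u (unif _) (unif _))
    (hg : MeasurePreserving g μ μ) :
    MeasurePreserving (fun ω : W Y => (ω.1, u ω.2.1, g ω.2.2)) (mT μ) (mT μ) :=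
  (MeasurePreserving.id _).prod (hu.prod hg)

theorem X_mp {α : ℕ → Y → Y} (hα : Fam μ α) (m : ℕ) (c : Finset ℕ) :
    MeasurePreserving (X α m c) (mT μ) (mT μ) := by
  by_cases h : 0 ∈ c
  · have : X α m c = fun ω : W Y => (ω.1, xr m c ω.2.1, gm α m ω.2.2) := by
      funext ω; rw [X, if_pos h]
    rw [this]
    exact prod_mp (xr_mp m c) (gm_mp hα m)
  · have : X α m c = fun ω : W Y => (ω.1, xr m c ω.2.1, id ω.2.2) := by
      funext ω; rw [X, if_neg h, id]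
    rw [this]
    exact prod_mp (xr_mp m c) (MeasurePreserving.id μ)

theorem Fl_mp (m : ℕ) (c : Finset ℕ) : MeasurePreserving (Fl m c : W Y → W Y) (mT μ) (mT μ) :=
  prod_mp (xr_mp m c) (MeasurePreserving.id μ)

theorem fib_mp {g : Y → Y} (hg : MeasurePreserving g μ μ) :
    MeasurePreserving (fib g) (mT μ) (mT μ) :=
  prod_mp (MeasurePreserving.id _) hg

end tower

theorem TD.L_le_abs (D : TD) (m : ℕ) {i j : Finset ℕ} (h : i ≠ j) :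
    D.L m ≤ |D.p m i - D.p m j| := by
  have h1 := D.hL m
  have h2 := TD.h_pos (D := D) m
  have h3 : (4 : ℤ) ^ Encodable.encode i - 4 ^ Encodable.encode j ≠ 0 := fun e =>
    h (Encodable.encode_injective (pow_right_injective₀ (by norm_num) (by norm_num)
      (sub_eq_zero.1 e)))
  rw [TD.p, TD.p, ← mul_sub, abs_mul, abs_of_nonneg (by omega)]
  exact le_mul_of_one_le_right (by omega) (Int.one_le_abs h3)

theorem TD.abs_lt_succ (D : TD) {m : ℕ} {i j : Finset ℕ} (hi : i ∈ J m) (hj : j ∈ J m) :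
    |D.p m i - D.p m j| < D.h (m + 1) := by
  have h1 := TD.p_room (D := D) hi
  have h2 := TD.p_room (D := D) hj
  have h3 := TD.L_le_p (D := D) m i
  have h4 := TD.L_le_p (D := D) m j
  have h5 := D.hL m
  have h6 := TD.h_pos (D := D) m
  rw [abs_lt]
  omega

/-- The test functions are total. -/
theorem tot (P : Measure Cf) [IsProbabilityMeasure P] (p : L2 P → Prop)
    (hc : IsClosed {F | p F}) (h0 : p 0) (ha : ∀ F G, p F → p G → p (F + G))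
    (hs : ∀ (c : ℝ) F, p F → p (c • F))
    (hl : ∀ (l : List CO) (F : L2 P), F =ᵐ[P] th l → p F) (F : L2 P) : p F := by
  let M : Submodule ℝ (L2 P) :=
    { carrier := {F | p F}, add_mem' := fun h h' => ha _ _ h h', zero_mem' := h0,
      smul_mem' := hs }
  have : CompleteSpace M := hc.completeSpace_coe
  have h1 : Mᗮ = ⊥ := by
    rw [Submodule.eq_bot_iff]
    refine fun f hf => uniq_ok.2 P f fun l => ?_
    have hm : MemLp (th l) 2 P := MemLp.of_bound (measurable_th l).aestronglyMeasurable 1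
      (Eventually.of_forall fun ν => by
        rw [Real.norm_of_nonneg (th_bound l ν).1]; exact (th_bound l ν).2)
    have h2 := (Submodule.mem_orthogonal' _ _).1 hf (hm.toLp _) (hl l _ hm.coeFn_toLp)
    rw [L2.inner_def] at h2
    rw [← h2]
    refine integral_congr_ae ?_
    filter_upwards [hm.coeFn_toLp] with ν hν
    rw [hν, RCLike.inner_apply, conj_trivial, mul_comm]
    rfl
  rw [Submodule.orthogonal_eq_bot_iff] at h1
  exact (h1 ▸ Submodule.mem_top : F ∈ M)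

theorem za_lift {ξ : Measure Xi} [IsProbabilityMeasure ξ] {P : Measure Cf} [IsProbabilityMeasure P]
    {I : L2 (mQ ξ) →ₗᵢ[ℝ] L2 P} (hI : IsChaos ξ P I) {s : ℤ → Q → Q} {S : ℤ → Cf → Cf}
    (hs : ZA (mQ ξ) s) (h : ∀ t, Lifts I (S t) (s t)) : ZA P S := by
  obtain ⟨-, -, h3, h4, h5⟩ := lift_all ξ P I hI
  exact ⟨fun t => (h t).2.1, h4 _ _ _ _ (h 0) h5 hs.2.1,
    fun t u => h4 _ _ _ _ (h (t + u)) (h3 _ _ _ _ (h u) (h t)) (hs.2.2 t u)⟩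

/-! ## Poisson side -/

-- deps:
def S_LF : Prop :=
  ∀ (ξ : Measure Xi) [IsProbabilityMeasure ξ] (P : Measure Cf) [IsProbabilityMeasure P]
    (I : L2 (mQ ξ) →ₗᵢ[ℝ] L2 P), IsChaos ξ P I →
    ∀ (k : ℕ) (S : Fin k → Cf → Cf) (s : Fin k → Q → Q) (l : Fin k → List CO),
      (∀ i, Lifts I (S i) (s i)) →
      Integrable (fun q => ∏ i, gh (l i) (s i q) - 1) (mQ ξ) ∧
        ∫ ν, ∏ i, th (l i) (S i ν) ∂P = Real.exp (∫ q, (∏ i, gh (l i) (s i q) - 1) ∂mQ ξ)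

theorem lf2 (h : S_LF) {ξ : Measure Xi} [IsProbabilityMeasure ξ] {P : Measure Cf}
    [IsProbabilityMeasure P] {I : L2 (mQ ξ) →ₗᵢ[ℝ] L2 P} (hI : IsChaos ξ P I) {S : Cf → Cf}
    {s : Q → Q} (hs : Lifts I S s) (l l' : List CO) :
    Integrable (fun q => gh l (s q) * gh l' q - 1) (mQ ξ) ∧
      ∫ ν, th l (S ν) * th l' ν ∂P = Real.exp (∫ q, (gh l (s q) * gh l' q - 1) ∂mQ ξ) := by
  have := h ξ P I hI 2 ![S, id] ![s, id] ![l, l']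
    (Fin.forall_fin_two.2 ⟨hs, (lift_all ξ P I hI).2.2.2.2⟩)
  simpa only [Fin.prod_univ_two, Matrix.cons_val_zero, Matrix.cons_val_one, Matrix.cons_val_fin_one,
    id] using this

-- deps: LF
def S_MIX : Prop :=
  ∀ (ξ : Measure Xi) [IsProbabilityMeasure ξ] (P : Measure Cf) [IsProbabilityMeasure P]
    (I : L2 (mQ ξ) →ₗᵢ[ℝ] L2 P), IsChaos ξ P I →
    ∀ (K : ℕ → Set Q) (s : ℤ → Q → Q) (S : ℤ → Cf → Cf), Exh ξ K → ZA (mQ ξ) s →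
      (∀ t, Lifts I (S t) (s t)) → ZT (mQ ξ) K s →
      ∀ (k : ℕ) (l : Fin k → List CO) (n : ℕ → Fin k → ℤ),
        (∀ i j, i ≠ j → Tendsto (fun r => |n r i - n r j|) atTop atTop) →
        Tendsto (fun r => ∫ ν, ∏ i, th (l i) (S (n r i) ν) ∂P) atTop (𝓝 (∏ i, ∫ ν, th (l i) ν ∂P))

-- deps:
def S_MIX2 : Prop :=
  ∀ (P : Measure Cf) [IsProbabilityMeasure P] (k : ℕ) (S : ℕ → Fin k → Cf → Cf),
    (∀ r i, MeasurePreserving (S r i) P P) →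
    (∀ l : Fin k → List CO,
      Tendsto (fun r => ∫ ν, ∏ i, th (l i) (S r i ν) ∂P) atTop (𝓝 (∏ i, ∫ ν, th (l i) ν ∂P))) →
    ∀ A : Fin k → Set Cf, (∀ i, MeasurableSet (A i)) →
      Tendsto (fun r => P (⋂ i, S r i ⁻¹' A i)) atTop (𝓝 (∏ i, P (A i)))

-- deps: LF
def S_MEAS : Prop :=
  ∀ (ξ : Measure Xi) [IsProbabilityMeasure ξ] (P : Measure Cf) [IsProbabilityMeasure P]
    (I : L2 (mQ ξ) →ₗᵢ[ℝ] L2 P), IsChaos ξ P I →
    (∀ (X : Type) [MeasurableSpace X] (s : X → Q → Q) (S : X → Cf → Cf),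
      Measurable (fun p : X × Q => s p.1 p.2) → (∀ x, Lifts I (S x) (s x)) →
      ∀ A B, MeasurableSet A → MeasurableSet B → Measurable fun x => P (S x ⁻¹' A ∩ B)) ∧
    ∀ S : ℤ → Cf → Cf, ZA P S → MixZ P S → ∀ ν, P {ν} = 0

-- deps: LF
def S_HC : Prop :=
  ∀ (ξ : Measure Xi) [IsProbabilityMeasure ξ] (P : Measure Cf) [IsProbabilityMeasure P]
    (I : L2 (mQ ξ) →ₗᵢ[ℝ] L2 P), IsChaos ξ P I →
    ∀ (s : ℤ → Q → Q) (S : ℤ → Cf → Cf), ZA (mQ ξ) s → (∀ t, Lifts I (S t) (s t)) →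
    ∀ (l : List CO) (K : Set Q), MeasurableSet K → mQ ξ K ≠ ∞ → (∀ E ∈ l, E.1 ⊆ K) →
      ∃ (H : L2 P) (F₀ : L2 (mQ ξ)) (c C : ℝ), 0 ≤ C ∧
        (H =ᵐ[P] fun ν => th l ν - c - I F₀ ν) ∧ (∀ F, ∫ ν, I F ν * H ν ∂P = 0) ∧
        ∀ t, |∫ ν, H (S t ν) * H ν ∂P| ≤ C * cor (mQ ξ) K s t ^ 2

-- deps: HC
def S_FC : Prop :=
  ∀ (ξ : Measure Xi) [IsProbabilityMeasure ξ] (P : Measure Cf) [IsProbabilityMeasure P]
    (I : L2 (mQ ξ) →ₗᵢ[ℝ] L2 P), IsChaos ξ P I →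
    ∀ (K : ℕ → Set Q) (V : Avg) (s s' : ℤ → Q → Q) (S S' : ℤ → Cf → Cf) (Θ : Cf → Cf),
      Exh ξ K → ZA (mQ ξ) s → ZA (mQ ξ) s' → (∀ t, Lifts I (S t) (s t)) →
      (∀ t, Lifts I (S' t) (s' t)) → Sing2 (mQ ξ) K s V → Sing1 (mQ ξ) s' V →
      MeasurePreserving Θ P P → (∀ t, Itw P Θ (S t) (S' t)) → ∀ F, ∃ F', Tr I Θ F F'

-- deps:
def S_PT : Prop :=
  ∀ (ξ : Measure Xi) [IsProbabilityMeasure ξ] (Corr : Set Q → Set Q → Prop),
    (∀ A, MeasurableSet A → mQ ξ A ≠ ∞ → ∃ B, Corr A B) →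
    (∀ B, MeasurableSet B → mQ ξ B ≠ ∞ → ∃ A, Corr A B) →
    (∀ A B, Corr A B → MeasurableSet A ∧ MeasurableSet B ∧ mQ ξ A ≠ ∞ ∧ mQ ξ B ≠ ∞) →
    (∀ A B A' B', Corr A B → Corr A' B' → mQ ξ (A ∩ A') = mQ ξ (B ∩ B')) →
    ∃ θ : Q → Q, MeasurePreserving θ (mQ ξ) (mQ ξ) ∧ ∀ A B, Corr A B → θ ⁻¹' A =ᵐ[mQ ξ] B

-- deps: PT
def S_BACK : Prop :=
  ∀ (ξ : Measure Xi) [IsProbabilityMeasure ξ] (P : Measure Cf) [IsProbabilityMeasure P]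
    (I : L2 (mQ ξ) →ₗᵢ[ℝ] L2 P), Lap ξ P → IsChaos ξ P I →
    ∀ (s s' : Q → Q) (S S' Θ Θ' : Cf → Cf), Lifts I S s → Lifts I S' s' → Conj P P Θ Θ' →
      Itw P Θ S S' → (∀ F, ∃ F', Tr I Θ F F') → (∀ F, ∃ F', Tr I Θ' F F') → IsoR (mQ ξ) s s'

-- deps: MIX MIX2 MEAS FC BACK
def S_POQ : Prop :=
  ∀ (ξ : Measure Xi) [IsProbabilityMeasure ξ] (K : ℕ → Set Q) (V : Avg) (X : Type)
    [MeasurableSpace X] (s : X → ℤ → Q → Q), Exh ξ K →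
    (∀ x, ZA (mQ ξ) (s x) ∧ ZT (mQ ξ) K (s x) ∧ Sing1 (mQ ξ) (s x) V ∧ Sing2 (mQ ξ) K (s x) V) →
    Measurable (fun p : X × Q => s p.1 1 p.2) →
    Out X fun x y => IsoR (mQ ξ) (s x 1) (s y 1)

-- deps: POQ
def S_POI : Prop :=
  ∀ (Z : Type) [MeasurableSpace Z] [StandardBorelSpace Z] (ζ : Measure Z) [IsProbabilityMeasure ζ],
    ¬ Countable Z → ∀ (a : ℕ → ℕ) (V : Avg) (X : Type) [MeasurableSpace X]
    (T : X → ℤ → ℕ × Z → ℕ × Z), Monotone a → (∀ n, n < a n) →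
    (∀ x, ZA (mW ζ) (T x) ∧ ZT (mW ζ) (fun n => Lv Z (a n)) (T x) ∧ Sing1 (mW ζ) (T x) V ∧
      Sing2 (mW ζ) (fun n => Lv Z (a n)) (T x) V) →
    Measurable (fun p : X × (ℕ × Z) => T p.1 1 p.2) →
    Out X fun x y => IsoR (mW ζ) (T x 1) (T y 1)

/-! ## Tower side -/

-- deps:
def S_TD : Prop := Nonempty TD

-- deps:
def S_TM : Prop :=
  (∀ (D : TD) (X Y : Type) [MeasurableSpace X] [MeasurableSpace Y] (α : X → ℕ → Y → Y),
    (∀ j, Measurable fun p : X × Y => α p.1 j p.2) →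
    ∀ t, Measurable fun p : X × W Y => D.T (α p.1) t p.2) ∧
  ∀ (D : TD) (Y : Type) [MeasurableSpace Y] (μ : Measure Y) [IsProbabilityMeasure μ]
    (α : ℕ → Y → Y), Fam μ α → ∀ t, MeasurePreserving (D.T α t) (mT μ) (mT μ)

-- deps:
def S_KEY : Prop :=
  ∀ (D : TD) (Y : Type) (α : ℕ → Y → Y), CI α →
    (∀ m, ∀ i ∈ J m, ∀ j ∈ J m, i ≠ j → ∀ ω ∈ D.K Y m,
      D.T α (D.p m i - D.p m j) ω ∈ D.K Y m → dgt m ω.2.1 = j) ∧
    (∀ m, ∀ i ∈ J m, ∀ j ∈ J m, ∀ k ∈ J m, ∀ l ∈ J m, i ≠ j → k ≠ l → i ≠ k → j ≠ l →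
      ∀ ω ∈ D.K Y m, D.T α (D.p m i - D.p m j - (D.p m k - D.p m l)) ω ∉ D.K Y m) ∧
    ∀ m t, D.h m ≤ |t| → ∃ m' j, m ≤ m' ∧
      ∀ ω ∈ D.K Y m, D.T α t ω ∈ D.K Y m → dgt m' ω.2.1 = j

-- deps: KEY
def S_C : Prop :=
  ∀ (Y : Type) [MeasurableSpace Y] (μ : Measure Y) [IsProbabilityMeasure μ]
    (α : ℕ → Y → Y), Fam μ α →
    (∀ (m a : ℕ) (B : Set (W Y)), MeasurableSet B → B ⊆ Lv _ a →
      (∀ c ∈ J m, c ≠ ∅ → mT μ (B ∩ X α m c ⁻¹' B) = 0) → (mT μ).real B ≤ a / 2 ^ (m + 1)) ∧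
    ∀ D : TD, (∀ n m t, n ≤ m → D.h m ≤ |t| →
      cor (mT μ) (D.K Y n) (D.T α) t ≤ D.A n / 2 ^ (m + 1)) ∧ ZT (mT μ) (D.K Y) (D.T α)

-- deps:
def S_CNT : Prop :=
  ∀ (D : TD) (m : ℕ) (x : ℤ → ℝ) (a : ℝ), (∀ t, 0 ≤ x t ∧ x t ≤ a) →
    (∀ t, D.h m ≤ |t| → x t ≤ a / 2 ^ (m + 1)) →
    (∀ i ∈ J m, ∀ j ∈ J m, ∀ k ∈ J m, ∀ l ∈ J m, i ≠ j → k ≠ l → i ≠ k → j ≠ l →
      x (D.p m i - D.p m j - (D.p m k - D.p m l)) = 0) →
    ∑ u ∈ (J m).offDiag, ∑ v ∈ (J m).offDiag,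
      x (D.p m u.1 - D.p m u.2 - (D.p m v.1 - D.p m v.2)) ≤ 3 * a * (2 ^ (m + 1)) ^ 2

-- deps: KEY C CNT
def S_S2 : Prop :=
  ∀ (D : TD) (Y : Type) [MeasurableSpace Y] (μ : Measure Y) [IsProbabilityMeasure μ]
    (α : ℕ → Y → Y), Fam μ α → Sing2 (mT μ) (D.K Y) (D.T α) D.V

-- deps:
def S_APX : Prop :=
  ∀ (Y : Type) [MeasurableSpace Y] (μ : Measure Y) [IsProbabilityMeasure μ] (a : ℕ → ℕ),
    Monotone a → (∀ n, n < a n) → ∀ B : Set (W Y), MeasurableSet B → mT μ B ≠ ∞ →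
    (∀ ε : ℝ≥0∞, 0 < ε → ∃ n B', Cyl a n B' ∧ mT μ (B ∆ B') < ε) ∧
    ∀ (m : ℕ → ℕ) (c : ℕ → Finset ℕ), Tendsto m atTop atTop →
      Tendsto (fun r => mT μ (Fl (m r) (c r) ⁻¹' B ∆ B)) atTop (𝓝 0)

-- deps: TM KEY C CNT
def S_S0 : Prop :=
  ∀ (D : TD) (Y : Type) [MeasurableSpace Y] (μ : Measure Y) [IsProbabilityMeasure μ]
    (α : ℕ → Y → Y), Fam μ α → ∀ (n m : ℕ) (B : Set (W Y)), Cyl D.A n B → n ≤ m →
    ∀ f : W Y → ℝ, (f = fun ω => ∑ u ∈ (J m).offDiag, 1 / 2 ^ (m + 1) *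
      B.indicator (fun _ => (1 : ℝ)) (D.T α (D.p m u.1 - D.p m u.2) ω)) →
    Integrable (fun ω => f ω ^ 2) (mT μ) ∧ ∫ ω, f ω ^ 2 ∂mT μ ≤ 3 * D.A n ∧
      (∀ ω, ω ∉ D.K Y (m + 2) → f ω = 0) ∧
      (m % 2 = 0 → ∀ ω ∈ D.K Y m,
        f ω = (1 - 1 / 2 ^ (m + 1)) * B.indicator (fun _ => (1 : ℝ)) ω)

-- deps: TM APX S0
def S_S1 : Prop :=
  ∀ (D : TD) (Y : Type) [MeasurableSpace Y] (μ : Measure Y) [IsProbabilityMeasure μ]
    (α : ℕ → Y → Y), Fam μ α → Sing1 (mT μ) (D.T α) D.V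

-- deps: KEY C APX
def S_AGR : Prop :=
  ∀ (D : TD) (Y : Type) [MeasurableSpace Y] [StandardBorelSpace Y] (μ : Measure Y)
    [IsProbabilityMeasure μ] (α β : ℕ → Y → Y) (θ : W Y → W Y), Fam μ α → Fam μ β →
    MeasurePreserving θ (mT μ) (mT μ) → (∀ t, Itw (mT μ) θ (D.T α t) (D.T β t)) →
    ∀ j, Itw (mT μ) θ (fib (α j)) (fib (β j))

-- deps: TM
def S_ISO : Prop :=
  ∀ (D : TD) (Y : Type) [MeasurableSpace Y] (μ : Measure Y) [IsProbabilityMeasure μ]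
    (α β : ℕ → Y → Y) (g : Y → Y), Fam μ α → Fam μ β → MeasurePreserving g μ μ →
    (∀ j, Itw μ g (α j) (β j)) → ∀ t, Itw (mT μ) (fib g) (D.T α t) (D.T β t)

-- deps:
def S_FL0 : Prop :=
  ∀ (B Y ι : Type) [MeasurableSpace B] [StandardBorelSpace B] [MeasurableSpace Y]
    [StandardBorelSpace Y] [Countable ι] (β : Measure B) (μ : Measure Y) [SigmaFinite β]
    [IsProbabilityMeasure μ] (g g' : ι → Y → Y) (Θ Θ' : B × Y → B × Y), β ≠ 0 →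
    (∀ j, MeasurePreserving (g j) μ μ) → (∀ j, MeasurePreserving (g' j) μ μ) →
    ErgFam μ g → ErgFam μ g' → Conj (β.prod μ) (β.prod μ) Θ Θ' →
    (∀ j, Itw (β.prod μ) Θ (Prod.map id (g j)) (Prod.map id (g' j))) →
    ∃ h h', Conj μ μ h h' ∧ ∀ j, Itw μ h (g j) (g' j)

-- deps: POI TD TM C S1 S2 AGR ISO FL0
def S_RED : Prop :=
  ∀ (Y : Type) [MeasurableSpace Y] [StandardBorelSpace Y] (μ : Measure Y) [IsProbabilityMeasure μ]
    (X : Type) [MeasurableSpace X] (α : X → ℕ → Y → Y),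
    (∀ j, Measurable fun p : X × Y => α p.1 j p.2) → (∀ x, Fam μ (α x) ∧ ErgFam μ (α x)) →
    Out X fun x y => ∃ h h', Conj μ μ h h' ∧ ∀ j, Itw μ h (α x j) (α y j)

end Pool.Agent.P.MP_c1aa6a_an.Mix
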