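import Pool.Agent.P.MP_c1aa6a_an.Mix.B1
import Pool.Agent.P.MP_c1aa6a_an.Mix.B2
import Pool.Agent.P.MP_c1aa6a_an.Mix.B3
import Pool.Agent.P.MP_c1aa6a_an.Mix.B4
import Pool.Agent.P.MP_c1aa6a_an.Mix.B5

/-! The reduction from families of commuting involutions to mixing maps, and the final assembly. -/

set_option autoImplicit false
open MeasureTheory Set Filter Topology
open scoped ENNReal NNReal symmDiff

namespace Pool.Agent.P.MP_c1aa6a_an.Mix

namespace REDx

theorem not_countable (Y : Type) [Nonempty Y] : ¬ Countable (Dg × Y) := by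
  intro h
  obtain ⟨y⟩ := ‹Nonempty Y›
  have h1 : Countable (Set (ℕ × ℕ)) := by
    classical
    refine Function.Injective.countable
      (f := fun s : Set (ℕ × ℕ) => ((fun c => decide (c ∈ s), y) : Dg × Y)) fun s s' e => ?_
    ext c
    exact decide_eq_decide.1 (congrFun (congrArg Prod.fst e) c)
  obtain ⟨f, hf⟩ := exists_surjective_nat (Set (ℕ × ℕ))
  exact Function.cantor_surjective (fun c : ℕ × ℕ => f c.1)
    (hf.comp fun n => ⟨(n, 0), rfl⟩)

theorem conj_fib {Y : Type} [MeasurableSpace Y] {μ : Measure Y} [IsProbabilityMeasure μ]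
    {h h' : Y → Y} (hc : Conj μ μ h h') : Conj (mT μ) (mT μ) (fib h) (fib h') := by
  have hq : Measure.QuasiMeasurePreserving (fun ω : W Y => ω.2.2) (mT μ) μ :=
    Measure.quasiMeasurePreserving_snd.comp Measure.quasiMeasurePreserving_snd
  refine ⟨fib_mp hc.1, fib_mp hc.2.1, ?_, ?_⟩
  · filter_upwards [hq.ae hc.2.2.1] with ω hω
    exact Prod.ext rfl (Prod.ext rfl hω)
  · filter_upwards [hq.ae hc.2.2.2] with ω hω
    exact Prod.ext rfl (Prod.ext rfl hω)

end REDx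

open REDx Step2 in
theorem p_RED (hPOI : S_POI) (hTD : S_TD) (hTM : S_TM) (hC : S_C) (hS1 : S_S1) (hS2 : S_S2)
    (hAGR : S_AGR) (hISO : S_ISO) (hFL0 : S_FL0) : S_RED := by
  intro Y _ _ μ _ X _ α hm hα
  obtain ⟨D⟩ := hTD
  have : Nonempty Y := μ.nonempty_of_neZero
  have hz : ∀ x, ZA (mT μ) (D.T (α x)) := fun x =>
    TD.za (hα x).1.2 (hTM.2 D Y μ (α x) (hα x).1)
  obtain ⟨f, h1, h2, h3⟩ := hPOI (Dg × Y) ((unif (ℕ × ℕ)).prod μ) (not_countable Y) D.A D.V X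
    (fun x => D.T (α x)) D.monoA D.ltA
    (fun x => ⟨hz x, ((hC Y μ (α x) (hα x).1).2 D).2, hS1 D Y μ (α x) (hα x).1,
      hS2 D Y μ (α x) (hα x).1⟩) (hTM.1 D X Y α hm 1)
  refine ⟨f, h1, h2, fun x y => Iff.trans ⟨?_, ?_⟩ (h3 x y)⟩
  · rintro ⟨h, h', hc, hi⟩
    exact ⟨fib h, fib h', conj_fib hc, hISO D Y μ (α x) (α y) h (hα x).1 (hα y).1 hc.1 hi 1⟩
  · rintro ⟨θ, θ', hc, hi⟩
    have h4 := hAGR D Y μ (α x) (α y) θ (hα x).1 (hα y).1 hc.1 ((hz x).itw (hz y) hc.1 hi)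
    have hA := conj_equiv MeasurableEquiv.prodAssoc
      (measurePreserving_prodAssoc (Measure.count : Measure ℕ) (unif (ℕ × ℕ)) μ)
    refine hFL0 (ℕ × Dg) Y ℕ ((Measure.count : Measure ℕ).prod (unif (ℕ × ℕ))) μ (α x) (α y) _ _
      (fun e => ?_) (hα x).1.1 (hα y).1.1 (hα x).2 (hα y).2
      (conj_comp (conj_comp hA hc) (conj_symm hA)) fun j => ?_
    · have := measure_Lv (unif (ℕ × ℕ)) 1
      rw [mW, e] at this
      simp at this
    · filter_upwards [aec hA.1 (h4 j)] with w hw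
      have hw' : θ (w.1.1, w.1.2, α x j w.2) = _ := hw
      change MeasurableEquiv.prodAssoc.symm (θ (w.1.1, w.1.2, α x j w.2)) = _
      rw [hw']
      rfl

open Step1 Step2 in
theorem main_mix (hRED : S_RED)
    (G : Type) [TopologicalSpace G] [Group G] [IsTopologicalGroup G] [PolishSpace G]
    (X : Type) [TopologicalSpace X] [PolishSpace X] [MeasurableSpace X] [BorelSpace X]
    [MulAction G X] [ContinuousSMul G X] : Out X fun x y => ∃ g : G, g • x = y := by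
  let _ := TopologicalSpace.upgradeIsCompletelyMetrizable G
  let _ := TopologicalSpace.upgradeIsCompletelyMetrizable X
  obtain ⟨N, hN⟩ := norm_ok G
  obtain ⟨V, hV, hV0, hVb⟩ := exists_basis X
  obtain ⟨lev, lab, pp, dead, π, D, hdm, hmod⟩ := model_ok G X N V hN hV
  set M : X → WS := fun x => ⟨lev, lab, pp, dead x⟩ with hM
  have hRm : ∀ c k k', MeasurableSet {x | Rel (M x) c k k'} := fun c k k' => by
    match c with
    | 0 => exact MeasurableSet.const _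
    | 1 =>
      exact (MeasurableSet.const (k.2 = true ∧ pp k.1 k')).union
        ((MeasurableSet.const (k'.2 = true ∧ pp k'.1 k)).union
        ((MeasurableSet.const (k = k')).inter
          ((MeasurableSet.const (k.2 = true)).inter (hdm k.1))))
    | c + 2 => exact MeasurableSet.const (k = k' ∧ c = Nat.pair (lev k.1)
        (if k.2 = true then lab k.1 else 0))
  obtain ⟨P, hP, hL⟩ := lap_ok (xi lev)
  obtain ⟨I, hI⟩ := chaos_ok approx_ok (xi lev) P hL
  obtain ⟨en, hen⟩ := exists_surjective_nat Gen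
  obtain ⟨hs1, hs2⟩ := sys_ok lift_all maps_ok first_all pe_ok bern_ok lev P I hI
  obtain ⟨f, h1, h2, h3⟩ := hRED (Yl × Cf) ((unif (At × ℕ)).prod P) X
    (fun x j => alpha (Rel (M x)) (en j)) (fun j => hs2 X _ hRm (en j))
    fun x => ⟨⟨fun j => (hs1 _).1.1 _, fun j => (hs1 _).1.2.1 _, fun i j => (hs1 _).1.2.2 _ _⟩,
      fun A hA h => (hs1 _).2 A hA fun g => by obtain ⟨j, rfl⟩ := hen g; exact h j⟩
  refine ⟨f, h1, h2, fun x y => Iff.trans ⟨?_, ?_⟩ (h3 x y)⟩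
  · rintro ⟨g, rfl⟩
    obtain ⟨τ, fl, k1, k2, k3, k4⟩ := baf_ok G X N V (g • x) (M x) (M (g • x)) _ _ _ _ hN hV hV0
      (model_translate (hmod x) g) (hmod (g • x))
    obtain ⟨Θ, Θ', hΘ, hint⟩ := iso_ok lift_all maps_ok lev P I hI (Rel (M x)) (Rel (M (g • x)))
      τ fl k1 (rel_of_iso k1 k2 k3) k4
    exact ⟨Θ, Θ', hΘ, fun j => hint (en j)⟩
  · rintro ⟨Θ, Θ', hΘ, hint⟩
    have h4 : ∀ g, Itw ((unif (At × ℕ)).prod P) Θ (alpha (Rel (M x)) g) (alpha (Rel (M y)) g) :=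
      fun g => by obtain ⟨j, rfl⟩ := hen g; exact hint j
    have hl := (lift_all _ P I hI).2.1
    obtain ⟨b, b', hb1, hb2, h, h', hh, hc1, hc2⟩ := fl_ok Yl Cf (Cell × ℕ) (unif (At × ℕ)) P
      (fun p => act (uC p)) (fun i b => act (rho (Rel (M x)) fun a => b (a, i)))
      (fun i b => act (rho (Rel (M y)) fun a => b (a, i))) Θ Θ' Generic
      (fun p => (hl _ (maps_ok.2.1 lev p).1 (maps_ok.2.1 lev p).2).2.1)
      (first_all lev P I hI).1 hΘ (fun p => h4 (Sum.inr (Sum.inr p)))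
      (fun i => h4 (Sum.inr (Sum.inl i))) bern_ok.2.2.2.2.2.2
    obtain ⟨Corr, hC, hCe⟩ := corr_ok first_all (char_ok approx_ok) lift_all maps_ok lev P I hL hI
      h h' hh hc1 (fun i => rho (Rel (M y)) fun a => b' (a, i))
      (fun i => rho (Rel (M x)) fun a => b (a, i))
      (fun i => hl _ (maps_ok.1 lev _ _).1 (maps_ok.1 lev _ _).2)
      (fun i => hl _ (maps_ok.1 lev _ _).1 (maps_ok.1 lev _ _).2) hc2
    obtain ⟨σ, hσ⟩ := dec1_ok maps_ok lev _ _ b' b Corr hb2 hb1 hC hCe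
    obtain ⟨σ₀, hσ₀, hs⟩ := dec3_ok lev _ _ Corr σ (rel_symm (M y)) (rel_symm (M x)) hC
      (dec2_ok maps_ok approx_ok lev _ _ b' b Corr hb2 hb1 hC hCe σ hσ)
    obtain ⟨g, hg⟩ := conv_ok G X N V y x (M y) (M x) π π D D hN hV hV0 hVb (hmod y) (hmod x)
      (iso_of_rel σ₀ hσ₀ hs)
    exact ⟨g⁻¹, by rw [← hg, inv_smul_smul]⟩

theorem red_all : S_RED :=
  p_RED (p_POI (p_POQ (p_MIX p_LF) p_MIX2 (p_MEAS p_LF) (p_FC (p_HC p_LF)) (p_BACK p_PT))) p_TD p_TM
    (p_C p_KEY) (p_S1 p_TM p_APX (p_S0 p_TM p_KEY (p_C p_KEY) p_CNT))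
    (p_S2 p_KEY (p_C p_KEY) p_CNT) (p_AGR p_KEY (p_C p_KEY) p_APX) (p_ISO p_TM) p_FL0

theorem ergodic_of_mix {Y : Type} [MeasurableSpace Y] {μ : Measure Y} [IsProbabilityMeasure μ]
    {f : Y → Y} (hf : MeasurePreserving f μ μ) (h : MixAll μ f) : Ergodic f μ := by
  refine ⟨hf, ⟨fun s hs hinv => ?_⟩⟩
  have h1 := h 2 (fun _ => s) (fun _ => hs) (fun r => ![r, 0]) (by
    intro i j hij
    fin_cases i <;> fin_cases j
    · exact absurd rfl hij
    · simpa using tendsto_natCast_atTop_atTop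
    · simpa using tendsto_natCast_atTop_atTop
    · exact absurd rfl hij)
  have h2 : ∀ n : ℕ, f^[n] ⁻¹' s = s := fun n => Function.IsFixedPt.preimage_iterate hinv n
  simp only [h2, iInter_const, Fin.prod_univ_two] at h1
  have h3 : μ s = μ s * μ s := tendsto_nhds_unique tendsto_const_nhds h1
  rw [eventuallyConst_set']
  by_cases h0 : μ s = 0
  · exact Or.inl (ae_eq_empty.2 h0)
  · refine Or.inr (ae_eq_univ.2 ((prob_compl_eq_zero_iff hs).2 ?_))
    exact ((ENNReal.mul_right_inj h0 (measure_ne_top μ s)).1 ((mul_one _).trans h3)).symm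

end Pool.Agent.P.MP_c1aa6a_an.Mix
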